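import Mathlib

/-!
# The Prékopa–Leindler inequality (midpoint form)

`PL E` : for measurable `f g h : E → ℝ≥0∞` with `f x * g y ≤ h (midpoint x y) ^ 2` for all `x, y`,
one has `(∫⁻ f) * (∫⁻ g) ≤ (∫⁻ h) ^ 2`.

We prove it for `ℝ`, products, and every finite-dimensional real inner product space.
-/

set_option autoImplicit false

open MeasureTheory Set
open scoped ENNReal NNReal Pointwise

namespace Pool.Agent.H84

/-- Midpoint form of the one-dimensional Brunn–Minkowski inequality. -/
theorem brunn_minkowski_real {A B C : Set ℝ} (hA : MeasurableSet A) (hB : MeasurableSet B)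
    (hA0 : A.Nonempty) (hB0 : B.Nonempty)
    (h : ∀ a ∈ A, ∀ b ∈ B, (a + b) / 2 ∈ C) :
    volume A + volume B ≤ 2 * volume C := by
  obtain ⟨a0, ha0⟩ := hA0
  obtain ⟨b0, hb0⟩ := hB0
  rw [hA.measure_eq_iSup_isCompact volume, hB.measure_eq_iSup_isCompact volume]
  have key : ∀ K : Set ℝ, K ⊆ A → IsCompact K → ∀ L : Set ℝ, L ⊆ B → IsCompact L →
      volume K + volume L ≤ 2 * volume C := by
    intro K hKA hK L hLB hL
    -- add the points
    set K' := insert a0 K with hK'
    set L' := insert b0 L with hL'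
    have hK'c : IsCompact K' := hK.insert a0
    have hL'c : IsCompact L' := hL.insert b0
    have hK'A : K' ⊆ A := insert_subset ha0 hKA
    have hL'B : L' ⊆ B := insert_subset hb0 hLB
    have hK'n : K'.Nonempty := ⟨a0, mem_insert _ _⟩
    have hL'n : L'.Nonempty := ⟨b0, mem_insert _ _⟩
    obtain ⟨a, haK, haM⟩ := hK'c.exists_isGreatest hK'n
    obtain ⟨b, hbL, hbm⟩ := hL'c.exists_isLeast hL'n
    -- the two pieces
    let S : Set ℝ := (fun x => (x + b) / 2) '' K'
    let T : Set ℝ := (fun y => (a + y) / 2) '' L'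
    have hSc : IsCompact S := hK'c.image (by fun_prop)
    have hTc : IsCompact T := hL'c.image (by fun_prop)
    have hSC : S ⊆ C := by
      rintro _ ⟨x, hx, rfl⟩
      exact h x (hK'A hx) b (hL'B hbL)
    have hTC : T ⊆ C := by
      rintro _ ⟨y, hy, rfl⟩
      exact h a (hK'A haK) y (hL'B hy)
    have hST : S ∩ T ⊆ {(a + b) / 2} := by
      rintro z ⟨⟨x, hx, hxz⟩, ⟨y, hy, hyz⟩⟩
      have h1 : x ≤ a := haM hx
      have h2 : b ≤ y := hbm hy
      simp only [mem_singleton_iff]
      simp only at hxz hyz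
      linarith
    have hST0 : volume (S ∩ T) = 0 :=
      measure_mono_null hST (by simp)
    have hvS : volume S = volume K' / 2 := by
      have : S = (fun x => x + b / 2) '' ((fun x => (1 / 2 : ℝ) * x) '' K') := by
        rw [image_image]
        apply image_congr'
        intro x
        ring
      rw [this, image_add_right, measure_preimage_add_right]
      have h3 : (fun x : ℝ => (1 / 2 : ℝ) * x) '' K' = (1 / 2 : ℝ) • K' := rfl
      rw [h3, Measure.addHaar_smul]
      simp only [Module.finrank_self, pow_one]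
      rw [abs_of_pos (by norm_num : (0:ℝ) < 1 / 2), one_div,
        ENNReal.ofReal_inv_of_pos (by norm_num), ENNReal.div_eq_inv_mul]
      norm_num
    have hvT : volume T = volume L' / 2 := by
      have : T = (fun x => x + a / 2) '' ((fun x => (1 / 2 : ℝ) * x) '' L') := by
        rw [image_image]
        apply image_congr'
        intro x
        ring
      rw [this, image_add_right, measure_preimage_add_right]
      have h3 : (fun x : ℝ => (1 / 2 : ℝ) * x) '' L' = (1 / 2 : ℝ) • L' := rfl
      rw [h3, Measure.addHaar_smul]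
      simp only [Module.finrank_self, pow_one]
      rw [abs_of_pos (by norm_num : (0:ℝ) < 1 / 2), one_div,
        ENNReal.ofReal_inv_of_pos (by norm_num), ENNReal.div_eq_inv_mul]
      norm_num
    have hun : volume (S ∪ T) = volume S + volume T := by
      have := measure_union_add_inter S hTc.measurableSet (μ := volume)
      rw [hST0, add_zero] at this
      exact this
    calc volume K + volume L ≤ volume K' + volume L' :=
          add_le_add (measure_mono (subset_insert _ _)) (measure_mono (subset_insert _ _))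
      _ = 2 * (volume K' / 2 + volume L' / 2) := by
          rw [mul_add, ENNReal.mul_div_cancel (by norm_num) (by norm_num),
            ENNReal.mul_div_cancel (by norm_num) (by norm_num)]
      _ = 2 * volume (S ∪ T) := by rw [hun, hvS, hvT]
      _ ≤ 2 * volume C := by gcongr; exact union_subset hSC hTC
  simp only [iSup_and']
  apply ENNReal.biSup_add_biSup_le' ⟨∅, empty_subset _, isCompact_empty⟩
    ⟨∅, empty_subset _, isCompact_empty⟩
  rintro K ⟨hKA, hK⟩ L ⟨hLB, hL⟩
  exact key K hKA hK L hLB hL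

/-- The midpoint Prékopa–Leindler property of a space. -/
def PL (E : Type*) [AddCommGroup E] [Module ℝ E] [MeasureSpace E] : Prop :=
  ∀ f g h : E → ℝ≥0∞, Measurable f → Measurable g → Measurable h →
    (∀ x y, f x * g y ≤ h ((2:ℝ)⁻¹ • (x + y)) ^ 2) →
    (∫⁻ x, f x) * (∫⁻ x, g x) ≤ (∫⁻ x, h x) ^ 2

/-- AM-GM in `ℝ≥0∞`. -/
theorem ENNReal_amgm (a b : ℝ≥0∞) (c : ℝ≥0∞) (h : a + b ≤ 2 * c) : a * b ≤ c ^ 2 := by
  rcases eq_or_ne c ⊤ with hc | hc
  · simp [hc]
  have hab : a + b ≠ ⊤ := ne_top_of_le_ne_top (ENNReal.mul_ne_top (by norm_num) hc) h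
  have ha : a ≠ ⊤ := fun h' => hab (by simp [h'])
  have hb : b ≠ ⊤ := fun h' => hab (by simp [h'])
  lift a to ℝ≥0 using ha
  lift b to ℝ≥0 using hb
  lift c to ℝ≥0 using hc
  norm_cast at h ⊢
  have h' : (a:ℝ) + b ≤ 2 * c := by exact_mod_cast h
  have : (a:ℝ) * b ≤ c ^ 2 := by
    have := sq_nonneg ((a:ℝ) - b)
    have ha := a.coe_nonneg
    have hb := b.coe_nonneg
    nlinarith [mul_self_le_mul_self (by positivity) h']
  exact_mod_cast this

/-- One-dimensional case for real functions with supremum exactly one (in the weak sense that all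
superlevel sets below one are nonempty and all values are at most one). -/
theorem pl_real_aux (f g h : ℝ → ℝ) (hf : Measurable f) (hg : Measurable g) (hh : Measurable h)
    (f0 : ∀ x, 0 ≤ f x) (g0 : ∀ x, 0 ≤ g x) (h0 : ∀ x, 0 ≤ h x)
    (f1 : ∀ x, f x ≤ 1) (g1 : ∀ x, g x ≤ 1)
    (fs : ∀ t < 1, ∃ x, t < f x) (gs : ∀ t < 1, ∃ x, t < g x)
    (H : ∀ x y, f x * g y ≤ h ((x + y) / 2) ^ 2) :
    (∫⁻ x, ENNReal.ofReal (f x)) + (∫⁻ x, ENNReal.ofReal (g x))
      ≤ 2 * ∫⁻ x, ENNReal.ofReal (h x) := by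
  rw [lintegral_eq_lintegral_meas_lt volume (Filter.Eventually.of_forall f0) hf.aemeasurable,
    lintegral_eq_lintegral_meas_lt volume (Filter.Eventually.of_forall g0) hg.aemeasurable,
    lintegral_eq_lintegral_meas_lt volume (Filter.Eventually.of_forall h0) hh.aemeasurable]
  have mf : Measurable fun t => volume {a | t < f a} :=
    Antitone.measurable fun s t hst => measure_mono fun x hx => lt_of_le_of_lt hst hx
  rw [← lintegral_add_left mf, ← lintegral_const_mul' _ _ (by norm_num)]
  apply setLIntegral_mono' measurableSet_Ioi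
  intro t ht
  rw [mem_Ioi] at ht
  rcases lt_or_ge t 1 with h1 | h1
  · apply brunn_minkowski_real (measurableSet_lt measurable_const hf)
      (measurableSet_lt measurable_const hg) (fs t h1) (gs t h1)
    intro a ha b hb
    simp only [mem_ofPred_eq] at ha hb ⊢
    have h2 := H a b
    have h3 : t * t < f a * g b := by
      apply mul_lt_mul'' ha hb ht.le ht.le
    have h4 := h0 ((a + b) / 2)
    nlinarith
  · have e1 : {a | t < f a} = ∅ := by
      ext x; simp only [mem_ofPred_eq, mem_empty_iff_false, iff_false, not_lt]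
      exact (f1 x).trans h1
    have e2 : {a | t < g a} = ∅ := by
      ext x; simp only [mem_ofPred_eq, mem_empty_iff_false, iff_false, not_lt]
      exact (g1 x).trans h1
    simp [e1, e2]

theorem pl_real_bdd (f g h : ℝ → ℝ≥0∞) (hf : Measurable f) (hg : Measurable g)
    (hh : Measurable h) (M N : ℝ≥0∞) (hM0 : M ≠ 0) (hN0 : N ≠ 0) (hM : M ≠ ⊤) (hN : N ≠ ⊤)
    (fM : ⨆ x, f x = M) (gN : ⨆ x, g x = N)
    (H : ∀ x y, f x * g y ≤ h ((2:ℝ)⁻¹ • (x + y)) ^ 2) :
    (∫⁻ x, f x) * (∫⁻ x, g x) ≤ (∫⁻ x, h x) ^ 2 := by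
  -- normalised functions
  set c : ℝ≥0∞ := (M * N) ^ (1 / 2 : ℝ) with hc
  have hc2 : c ^ 2 = M * N := by
    rw [hc, ← ENNReal.rpow_natCast, ← ENNReal.rpow_mul]; norm_num
  have hMN0 : M * N ≠ 0 := mul_ne_zero hM0 hN0
  have hMNt : M * N ≠ ⊤ := ENNReal.mul_ne_top hM hN
  have hc0 : c ≠ 0 := by
    intro h0; rw [h0] at hc2; simp at hc2; exact hc2.elim (fun h => hM0 h) (fun h => hN0 h)
  have hct : c ≠ ⊤ := by
    intro h0; rw [h0] at hc2; simp at hc2; exact hMNt hc2.symm
  let f1 : ℝ → ℝ := fun x => (f x / M).toReal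
  let g1 : ℝ → ℝ := fun x => (g x / N).toReal
  let h1 : ℝ → ℝ := fun x => (min (h x / c) 1).toReal
  have fle : ∀ x, f x / M ≤ 1 := fun x => by
    rw [ENNReal.div_le_iff hM0 hM, one_mul, ← fM]; exact le_iSup f x
  have gle : ∀ x, g x / N ≤ 1 := fun x => by
    rw [ENNReal.div_le_iff hN0 hN, one_mul, ← gN]; exact le_iSup g x
  have fe : ∀ x, ENNReal.ofReal (f1 x) = f x / M := fun x =>
    ENNReal.ofReal_toReal (ne_top_of_le_ne_top ENNReal.one_ne_top (fle x))
  have ge : ∀ x, ENNReal.ofReal (g1 x) = g x / N := fun x =>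
    ENNReal.ofReal_toReal (ne_top_of_le_ne_top ENNReal.one_ne_top (gle x))
  have he : ∀ x, ENNReal.ofReal (h1 x) = min (h x / c) 1 := fun x =>
    ENNReal.ofReal_toReal (ne_top_of_le_ne_top ENNReal.one_ne_top (min_le_right _ _))
  have main := pl_real_aux f1 g1 h1 (by fun_prop) (by fun_prop) (by fun_prop)
    (fun x => ENNReal.toReal_nonneg) (fun x => ENNReal.toReal_nonneg)
    (fun x => ENNReal.toReal_nonneg)
    (fun x => by
      have := ENNReal.toReal_mono ENNReal.one_ne_top (fle x)
      rwa [ENNReal.toReal_one] at this)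
    (fun x => by
      have := ENNReal.toReal_mono ENNReal.one_ne_top (gle x)
      rwa [ENNReal.toReal_one] at this)
    (by
      intro t ht
      rcases lt_or_ge t 0 with h0 | h0
      · exact ⟨0, lt_of_lt_of_le h0 ENNReal.toReal_nonneg⟩
      have h2 : ENNReal.ofReal t * M < M := by
        calc ENNReal.ofReal t * M < 1 * M := by
              apply ENNReal.mul_lt_mul_left hM0 hM
              simpa using ENNReal.ofReal_lt_one.2 ht
          _ = M := one_mul _
      rw [← fM] at h2
      obtain ⟨x, hx⟩ := lt_iSup_iff.1 h2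
      rw [fM] at hx
      refine ⟨x, ?_⟩
      have h3 : ENNReal.ofReal t < f x / M := by
        rwa [ENNReal.lt_div_iff_mul_lt (Or.inl hM0) (Or.inl hM)]
      have := (ENNReal.toReal_lt_toReal ENNReal.ofReal_ne_top
        (ne_top_of_le_ne_top ENNReal.one_ne_top (fle x))).2 h3
      rwa [ENNReal.toReal_ofReal h0] at this)
    (by
      intro t ht
      rcases lt_or_ge t 0 with h0 | h0
      · exact ⟨0, lt_of_lt_of_le h0 ENNReal.toReal_nonneg⟩
      have h2 : ENNReal.ofReal t * N < N := by
        calc ENNReal.ofReal t * N < 1 * N := by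
              apply ENNReal.mul_lt_mul_left hN0 hN
              simpa using ENNReal.ofReal_lt_one.2 ht
          _ = N := one_mul _
      rw [← gN] at h2
      obtain ⟨x, hx⟩ := lt_iSup_iff.1 h2
      rw [gN] at hx
      refine ⟨x, ?_⟩
      have h3 : ENNReal.ofReal t < g x / N := by
        rwa [ENNReal.lt_div_iff_mul_lt (Or.inl hN0) (Or.inl hN)]
      have := (ENNReal.toReal_lt_toReal ENNReal.ofReal_ne_top
        (ne_top_of_le_ne_top ENNReal.one_ne_top (gle x))).2 h3
      rwa [ENNReal.toReal_ofReal h0] at this)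
    (by
      intro x y
      have hxy := H x y
      have e : (2:ℝ)⁻¹ • (x + y) = (x + y) / 2 := by simp; ring
      rw [e] at hxy
      have h3 : f x / M * (g y / N) ≤ (min (h ((x + y) / 2) / c) 1) ^ 2 := by
        have a1 : f x / M * (g y / N) ≤ (h ((x + y) / 2) / c) ^ 2 := by
          have : f x / M * (g y / N) = (f x * g y) / (M * N) := by
            rw [ENNReal.div_eq_inv_mul, ENNReal.div_eq_inv_mul, ENNReal.div_eq_inv_mul,
              ENNReal.mul_inv (Or.inl hM0) (Or.inl hM)]
            ring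
          rw [this, ← hc2]
          have : (h ((x + y) / 2) / c) ^ 2 = h ((x + y) / 2) ^ 2 / c ^ 2 := by
            rw [ENNReal.div_eq_inv_mul, ENNReal.div_eq_inv_mul, mul_pow, ENNReal.inv_pow]
          rw [this]
          gcongr
        have a2 : f x / M * (g y / N) ≤ 1 := by
          calc f x / M * (g y / N) ≤ 1 * 1 := mul_le_mul' (fle x) (gle y)
            _ = 1 := one_mul _
        rcases min_choice (h ((x + y) / 2) / c) 1 with hm | hm
        · rw [hm]; exact a1
        · rw [hm]; simpa using a2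
      have h4 := ENNReal.toReal_mono (by
        apply ENNReal.pow_ne_top
        exact ne_top_of_le_ne_top ENNReal.one_ne_top (min_le_right _ _)) h3
      rw [ENNReal.toReal_mul, ENNReal.toReal_pow] at h4
      exact h4)
  simp only [fe, ge, he] at main
  have m2 : (∫⁻ x, f x / M) + (∫⁻ x, g x / N) ≤ 2 * ∫⁻ x, h x / c :=
    main.trans (by gcongr; exact min_le_left _ _)
  have m3 := ENNReal_amgm _ _ _ m2
  simp only [ENNReal.div_eq_inv_mul] at m3
  rw [lintegral_const_mul' _ _ (ENNReal.inv_ne_top.2 hM0),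
    lintegral_const_mul' _ _ (ENNReal.inv_ne_top.2 hN0),
    lintegral_const_mul' _ _ (ENNReal.inv_ne_top.2 hc0), mul_pow, ← ENNReal.inv_pow, hc2,
    ENNReal.mul_inv (Or.inl hM0) (Or.inl hM)] at m3
  have m4 : (M⁻¹ * N⁻¹) * ((∫⁻ x, f x) * ∫⁻ x, g x) ≤ (M⁻¹ * N⁻¹) * (∫⁻ x, h x) ^ 2 := by
    calc (M⁻¹ * N⁻¹) * ((∫⁻ x, f x) * ∫⁻ x, g x)
        = (M⁻¹ * ∫⁻ x, f x) * (N⁻¹ * ∫⁻ x, g x) := by ring
      _ ≤ _ := m3
  have hne0 : M⁻¹ * N⁻¹ ≠ 0 := mul_ne_zero (ENNReal.inv_ne_zero.2 hM) (ENNReal.inv_ne_zero.2 hN)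
  have hnet : M⁻¹ * N⁻¹ ≠ ⊤ := ENNReal.mul_ne_top (ENNReal.inv_ne_top.2 hM0)
    (ENNReal.inv_ne_top.2 hN0)
  exact (ENNReal.mul_le_mul_iff_right hne0 hnet).1 m4

theorem pl_real : PL ℝ := by
  intro f g h hf hg hh H
  -- truncations
  have key : ∀ n : ℕ, (∫⁻ x, min (f x) n) * (∫⁻ x, min (g x) n) ≤ (∫⁻ x, h x) ^ 2 := by
    intro n
    set M := ⨆ x, min (f x) n with hM
    set N := ⨆ x, min (g x) n with hN
    rcases eq_or_ne M 0 with h0 | h0
    · have : ∀ x, min (f x) (n:ℝ≥0∞) = 0 := by
        intro x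
        have := le_iSup (fun x => min (f x) (n:ℝ≥0∞)) x
        rw [← hM, h0] at this
        exact le_antisymm this zero_le
      simp [this]
    rcases eq_or_ne N 0 with h0' | h0'
    · have : ∀ x, min (g x) (n:ℝ≥0∞) = 0 := by
        intro x
        have := le_iSup (fun x => min (g x) (n:ℝ≥0∞)) x
        rw [← hN, h0'] at this
        exact le_antisymm this zero_le
      simp [this]
    have hMt : M ≠ ⊤ := ne_top_of_le_ne_top (ENNReal.natCast_ne_top n)
      (iSup_le fun x => min_le_right _ _)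
    have hNt : N ≠ ⊤ := ne_top_of_le_ne_top (ENNReal.natCast_ne_top n)
      (iSup_le fun x => min_le_right _ _)
    apply pl_real_bdd _ _ h (by fun_prop) (by fun_prop) hh M N h0 h0' hMt hNt rfl rfl
    intro x y
    exact (mul_le_mul' (min_le_left _ _) (min_le_left _ _)).trans (H x y)
  have mono : ∀ f : ℝ → ℝ≥0∞, Measurable f →
      Filter.Tendsto (fun n : ℕ => ∫⁻ x, min (f x) n) Filter.atTop (nhds (∫⁻ x, f x)) := by
    intro f hf
    apply lintegral_tendsto_of_tendsto_of_monotone (fun n => by fun_prop)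
    · refine Filter.Eventually.of_forall fun x => ?_
      intro m n hmn
      simp only
      gcongr
    · refine Filter.Eventually.of_forall fun x => ?_
      have : Filter.Tendsto (fun n : ℕ => min (f x) (n:ℝ≥0∞)) Filter.atTop
          (nhds (min (f x) ⊤)) :=
        tendsto_const_nhds.min ENNReal.tendsto_nat_nhds_top
      simpa using this
  rcases eq_or_ne (∫⁻ x, h x) ⊤ with hT | hT
  · simp [hT]
  rcases eq_or_ne (∫⁻ x, f x) 0 with hf0 | hf0
  · simp [hf0]
  rcases eq_or_ne (∫⁻ x, g x) 0 with hg0 | hg0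
  · simp [hg0]
  have := ENNReal.Tendsto.mul (mono f hf) (Or.inl hf0) (mono g hg) (Or.inl hg0)
  exact le_of_tendsto' this key

theorem PL.prod {E F : Type*} [AddCommGroup E] [Module ℝ E] [MeasureSpace E]
    [AddCommGroup F] [Module ℝ F] [MeasureSpace F]
    [SFinite (volume : Measure E)] [SFinite (volume : Measure F)]
    (hE : PL E) (hF : PL F) : PL (E × F) := by
  intro f g h hf hg hh H
  rw [Measure.volume_eq_prod, lintegral_prod _ hf.aemeasurable, lintegral_prod _ hg.aemeasurable,
    lintegral_prod _ hh.aemeasurable]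
  apply hE _ _ _ hf.lintegral_prod_right' hg.lintegral_prod_right' hh.lintegral_prod_right'
  intro s t
  apply hF _ _ _ (hf.comp measurable_prodMk_left) (hg.comp measurable_prodMk_left)
    (hh.comp measurable_prodMk_left)
  intro y z
  exact H (s, y) (t, z)

theorem PL.of_equiv {E F : Type*} [AddCommGroup E] [Module ℝ E] [MeasureSpace E]
    [AddCommGroup F] [Module ℝ F] [MeasureSpace F] (e : E ≃ᵐ F)
    (he : MeasurePreserving e volume volume)
    (hlin : ∀ x y : E, e ((2:ℝ)⁻¹ • (x + y)) = (2:ℝ)⁻¹ • (e x + e y))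
    (hF : PL F) : PL E := by
  intro f g h hf hg hh H
  have key : ∀ f : E → ℝ≥0∞, ∫⁻ x, f x = ∫⁻ y, f (e.symm y) := by
    intro f
    rw [← he.lintegral_comp_emb e.measurableEmbedding]
    simp
  rw [key f, key g, key h]
  apply hF _ _ _ (hf.comp e.symm.measurable) (hg.comp e.symm.measurable)
    (hh.comp e.symm.measurable)
  intro x y
  have := H (e.symm x) (e.symm y)
  have e1 : e.symm ((2:ℝ)⁻¹ • (x + y)) = (2:ℝ)⁻¹ • (e.symm x + e.symm y) := by
    apply e.injective
    rw [hlin]
    simp
  simp only [Function.comp_apply]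
  rw [e1]
  exact this

theorem pl_pi (n : ℕ) : PL (Fin n → ℝ) := by
  induction n with
  | zero =>
    intro f g h hf hg hh H
    have key : ∀ f : (Fin 0 → ℝ) → ℝ≥0∞, ∫⁻ x, f x = f 0 := by
      intro f
      rw [lintegral_unique]
      have : (volume : Measure (Fin 0 → ℝ)) univ = 1 := by
        rw [volume_pi, ← Set.pi_univ univ, Measure.pi_pi]
        simp
      rw [this, mul_one]
      congr 1
      exact Subsingleton.elim _ _
    rw [key, key, key]
    have := H 0 0
    simpa using this
  | succ n ih =>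
    apply PL.of_equiv (MeasurableEquiv.piFinSuccAbove (fun _ => ℝ) 0)
      (volume_preserving_piFinSuccAbove (fun _ => ℝ) 0) _ (pl_real.prod ih)
    intro x y
    ext
    · rfl
    · rfl

/-- **Prékopa–Leindler inequality**, midpoint form, on a finite-dimensional inner product space. -/
theorem pl_inner (E : Type*) [NormedAddCommGroup E] [InnerProductSpace ℝ E]
    [FiniteDimensional ℝ E] [MeasurableSpace E] [BorelSpace E] : PL E := by
  let b := stdOrthonormalBasis ℝ E
  have h1 : PL (EuclideanSpace ℝ (Fin (Module.finrank ℝ E))) := by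
    apply PL.of_equiv (MeasurableEquiv.toLp 2 (Fin (Module.finrank ℝ E) → ℝ)).symm
      (EuclideanSpace.volume_preserving_symm_measurableEquiv_toLp _) _ (pl_pi _)
    intro x y
    rfl
  apply PL.of_equiv b.measurableEquiv b.measurePreserving_measurableEquiv _ h1
  intro x y
  change b.repr _ = _ • (b.repr x + b.repr y)
  rw [map_smul, map_add]

end Pool.Agent.H84
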