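import Pool.Agent.H84.L1Smooth
import Pool.Agent.H71.BdryMeasure

/-!
# From a Poincare inequality on a large convex subset to an isoperimetric inequality
-/

set_option autoImplicit false
set_option linter.unusedSectionVars false
set_option linter.unusedVariables false
set_option linter.style.haveILetI false

open MeasureTheory Measure Set Filter Topology
open scoped ENNReal NNReal Pointwise

namespace Pool.Agent.H84

variable {E : Type*} [NormedAddCommGroup E] [InnerProductSpace ℝ E]
    [FiniteDimensional ℝ E] [MeasurableSpace E] [BorelSpace E]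

/-- `PC K Λ`: the uniform measure on `K` satisfies the Poincare inequality with constant
`Λ ^ 2` for all `C^1` functions, `Var g ≤ Λ² E |∇ g|²` (written without division). -/
def PC (K : Set E) (Λ : ℝ) : Prop :=
  ∀ g : E → ℝ, ContDiff ℝ 1 g →
    volume.real K * (∫ x in K, g x ^ 2) - (∫ x in K, g x) ^ 2
      ≤ Λ ^ 2 * (volume.real K * ∫ x in K, ‖fderiv ℝ g x‖ ^ 2)

theorem PC.mono {K : Set E} {Λ Λ' : ℝ} (h : PC K Λ) (h0 : 0 ≤ Λ) (hle : Λ ≤ Λ') : PC K Λ' := by
  intro g hg
  refine (h g hg).trans ?_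
  have h1 : 0 ≤ volume.real K * ∫ x in K, ‖fderiv ℝ g x‖ ^ 2 :=
    mul_nonneg measureReal_nonneg (integral_nonneg fun x => by positivity)
  have h2 : Λ ^ 2 ≤ Λ' ^ 2 := by gcongr
  exact mul_le_mul_of_nonneg_right h2 h1

theorem volume_real_smul (K : Set E) {r : ℝ} (hr : 0 < r) :
    volume.real (r • K) = r ^ Module.finrank ℝ E * volume.real K := by
  rw [Measure.real, Measure.addHaar_smul, ENNReal.toReal_mul, abs_of_pos (by positivity),
    ENNReal.toReal_ofReal (by positivity), Measure.real]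

theorem setIntegral_smul_set (K : Set E) {r : ℝ} (hr : 0 < r) (F : E → ℝ) :
    ∫ x in r • K, F x = r ^ Module.finrank ℝ E * ∫ x in K, F (r • x) := by
  rw [Measure.setIntegral_comp_smul_of_pos volume F K hr, smul_eq_mul, ← mul_assoc,
    mul_inv_cancel₀ (by positivity), one_mul]

theorem PC.smul {K : Set E} {Λ r : ℝ} (h : PC K Λ) (hr : 0 < r) : PC (r • K) (r * Λ) := by
  intro g hg
  have hg' : ContDiff ℝ 1 (fun x => g (r • x)) := hg.comp (contDiff_const_smul r)
  have key := h _ hg'
  have hd : ∀ x, ‖fderiv ℝ (fun x => g (r • x)) x‖ ^ 2 = r ^ 2 * ‖fderiv ℝ g (r • x)‖ ^ 2 := by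
    intro x
    rw [fderiv_comp_smul, norm_smul, mul_pow, Real.norm_eq_abs, sq_abs]
  simp only [hd] at key
  rw [integral_const_mul] at key
  rw [volume_real_smul K hr, setIntegral_smul_set K hr, setIntegral_smul_set K hr,
    setIntegral_smul_set K hr]
  set d := r ^ Module.finrank ℝ E with hdd
  have hd0 : 0 < d := by positivity
  set A := ∫ x in K, g (r • x) ^ 2
  set B := ∫ x in K, g (r • x)
  set G := ∫ x in K, ‖fderiv ℝ g (r • x)‖ ^ 2
  have : d ^ 2 * (volume.real K * A - B ^ 2) ≤ d ^ 2 * (Λ ^ 2 * (volume.real K * (r ^ 2 * G))) :=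
    mul_le_mul_of_nonneg_left key (by positivity)
  nlinarith [this]

/-- `L^1` form of the Poincare inequality for functions with bounded gradient. -/
theorem PC.l1 {K : Set E} {R Λ : ℝ} (hK : CB K R) (hΛ : 0 < Λ) (h : PC K Λ) {g : E → ℝ}
    (hg : ContDiff ℝ 1 g) {M : ℝ} (hM0 : 0 ≤ M) (hM : ∀ x ∈ K, ‖fderiv ℝ g x‖ ≤ M) :
    ∃ c : ℝ, ∫ x in K, |g x - c| ≤ Λ * M * volume.real K := by
  have hfin : volume K ≠ ⊤ := hK.lt_top.ne
  haveI : IsFiniteMeasure (volume.restrict K) := ⟨by simpa using hK.lt_top⟩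
  set V := volume.real K with hV
  have hV0 : 0 < V := ENNReal.toReal_pos hK.vol0 hfin
  set c := (∫ x in K, g x) / V with hc
  refine ⟨c, ?_⟩
  obtain ⟨B, hB⟩ := hK.bdd_of_cont hg.continuous
  have hgi : IntegrableOn g K := by
    refine Measure.integrableOn_of_bounded (M := B) hfin hg.continuous.aestronglyMeasurable ?_
    exact (ae_restrict_iff' hK.meas).2 (Eventually.of_forall fun x hx => hB x hx)
  have hgi2 : IntegrableOn (fun x => g x ^ 2) K := by
    refine Measure.integrableOn_of_bounded (M := B ^ 2) hfin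
      (hg.continuous.pow 2).aestronglyMeasurable ?_
    refine (ae_restrict_iff' hK.meas).2 (Eventually.of_forall fun x hx => ?_)
    rw [norm_pow]
    exact pow_le_pow_left₀ (norm_nonneg _) (hB x hx) 2
  have hci : IntegrableOn (fun x => (g x - c) ^ 2) K := by
    have : (fun x => (g x - c) ^ 2) = fun x => g x ^ 2 - (2 * c) * g x + c ^ 2 := by
      funext x; ring
    rw [this]
    exact (hgi2.sub (hgi.const_mul _)).add (integrableOn_const hfin)
  have hexp : V * ∫ x in K, (g x - c) ^ 2 = V * (∫ x in K, g x ^ 2) - (∫ x in K, g x) ^ 2 := by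
    have : ∫ x in K, (g x - c) ^ 2 = (∫ x in K, g x ^ 2) - 2 * c * (∫ x in K, g x) + c ^ 2 * V := by
      have h1 : (fun x => (g x - c) ^ 2) = fun x => (g x ^ 2 - (2 * c) * g x) + c ^ 2 := by
        funext x; ring
      have hs : IntegrableOn (fun x => g x ^ 2 - (2 * c) * g x) K := hgi2.sub (hgi.const_mul _)
      rw [h1, integral_add hs (integrableOn_const hfin),
        integral_sub hgi2 (hgi.const_mul _), integral_const_mul, setIntegral_const, smul_eq_mul,
        ← hV]
      ring
    rw [this, hc]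
    field_simp
    ring
  have hgrad : V * ∫ x in K, ‖fderiv ℝ g x‖ ^ 2 ≤ V * (M ^ 2 * V) := by
    refine mul_le_mul_of_nonneg_left ?_ hV0.le
    have h1 : ∫ x in K, ‖fderiv ℝ g x‖ ^ 2 ≤ ∫ x in K, M ^ 2 := by
      refine setIntegral_mono_on ?_ (integrableOn_const hfin) hK.meas fun x hx => ?_
      · refine Measure.integrableOn_of_bounded (M := M ^ 2) hfin
          ((hg.continuous_fderiv (by simp)).norm.pow 2).aestronglyMeasurable ?_
        refine (ae_restrict_iff' hK.meas).2 (Eventually.of_forall fun x hx => ?_)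
        rw [norm_pow, norm_norm]
        exact pow_le_pow_left₀ (norm_nonneg _) (hM x hx) 2
      · exact pow_le_pow_left₀ (norm_nonneg _) (hM x hx) 2
    rw [setIntegral_const, smul_eq_mul, ← hV] at h1
    linarith
  have hvar : V * ∫ x in K, (g x - c) ^ 2 ≤ (Λ * M * V) ^ 2 := by
    rw [hexp]
    refine (h g hg).trans ?_
    calc Λ ^ 2 * (V * ∫ x in K, ‖fderiv ℝ g x‖ ^ 2) ≤ Λ ^ 2 * (V * (M ^ 2 * V)) := by gcongr
      _ = (Λ * M * V) ^ 2 := by ring
  -- Cauchy-Schwarz
  have hcs : (∫ x in K, |g x - c|) ^ 2 ≤ V * ∫ x in K, (g x - c) ^ 2 := by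
    have habs : IntegrableOn (fun x => |g x - c|) K := by
      exact (hgi.sub (integrableOn_const hfin)).abs
    set A := ∫ x in K, |g x - c| with hA
    have hnn : 0 ≤ ∫ x in K, (V * |g x - c| - A) ^ 2 := integral_nonneg fun x => by positivity
    have h1 : (fun x => (V * |g x - c| - A) ^ 2)
        = fun x => (V ^ 2 * (g x - c) ^ 2 - (2 * V * A) * |g x - c|) + A ^ 2 := by
      funext x
      have : |g x - c| ^ 2 = (g x - c) ^ 2 := sq_abs _
      calc (V * |g x - c| - A) ^ 2 = V ^ 2 * |g x - c| ^ 2 - (2 * V * A) * |g x - c| + A ^ 2 := by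
            ring
        _ = _ := by rw [this]
    have hs : IntegrableOn (fun x => V ^ 2 * (g x - c) ^ 2 - (2 * V * A) * |g x - c|) K :=
      (hci.const_mul _).sub (habs.const_mul _)
    rw [h1, integral_add hs (integrableOn_const hfin),
      integral_sub (hci.const_mul _) (habs.const_mul _), integral_const_mul, integral_const_mul,
      setIntegral_const, smul_eq_mul, ← hV, ← hA] at hnn
    have h2 : 0 ≤ V * (V * (∫ x in K, (g x - c) ^ 2) - A ^ 2) := by nlinarith
    have h3 := (mul_nonneg_iff_of_pos_left hV0).1 h2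
    linarith
  have h0 : 0 ≤ ∫ x in K, |g x - c| := integral_nonneg fun x => abs_nonneg _
  exact abs_le_of_sq_le_sq' (hcs.trans hvar) (by positivity) |>.2

/-- A set splitting in two large parts is far in `L^1` from every constant. -/
theorem sign_far {K S : Set E} {R : ℝ} (hK : CB K R) (hS : MeasurableSet S) (c b : ℝ)
    (h1 : b ≤ volume.real (K ∩ S)) (h2 : b ≤ volume.real (K \ S)) :
    2 * b ≤ ∫ x in K, |(2 * S.indicator (fun _ => (1:ℝ)) x - 1) - c| := by
  have hfin : volume K ≠ ⊤ := hK.lt_top.ne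
  have hint : ∀ T : Set E, T ⊆ K → IntegrableOn
      (fun x => |(2 * S.indicator (fun _ => (1:ℝ)) x - 1) - c|) T := by
    intro T hT
    refine Measure.integrableOn_of_bounded (M := 1 + |c|)
      (measure_ne_top_of_subset hT hfin) ?_ ?_
    · refine Measurable.aestronglyMeasurable ?_
      exact ((((measurable_const.indicator hS).const_mul 2).sub_const 1).sub_const c).abs
    · refine Eventually.of_forall fun x => ?_
      rw [Real.norm_eq_abs, abs_abs]
      refine (abs_sub _ _).trans ?_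
      by_cases hx : x ∈ S <;> simp [hx]
      norm_num
  have hsplit := integral_inter_add_sdiff (f := fun x =>
    |(2 * S.indicator (fun _ => (1:ℝ)) x - 1) - c|) hS (hint K subset_rfl)
  have e1 : ∫ x in K ∩ S, |(2 * S.indicator (fun _ => (1:ℝ)) x - 1) - c|
      = volume.real (K ∩ S) * |1 - c| := by
    rw [setIntegral_congr_fun (g := fun _ => |1 - c|) (hK.meas.inter hS)]
    · rw [setIntegral_const, smul_eq_mul]
    · rintro x ⟨-, hx⟩
      simp only [indicator_of_mem hx]
      norm_num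
  have e2 : ∫ x in K \ S, |(2 * S.indicator (fun _ => (1:ℝ)) x - 1) - c|
      = volume.real (K \ S) * |1 + c| := by
    rw [setIntegral_congr_fun (g := fun _ => |1 + c|) (hK.meas.diff hS)]
    · rw [setIntegral_const, smul_eq_mul]
    · rintro x ⟨-, hx⟩
      simp only [indicator_of_notMem hx]
      rw [← abs_neg]
      congr 1
      ring
  rw [← hsplit, e1, e2]
  by_cases hb : b ≤ 0
  · have : 0 ≤ volume.real (K ∩ S) * |1 - c| + volume.real (K \ S) * |1 + c| := by positivity
    linarith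
  push Not at hb
  have h3 : 2 ≤ |1 - c| + |1 + c| := by
    have := abs_add_le (1 - c) (1 + c)
    have h4 : |(1 - c) + (1 + c)| = 2 := by
      rw [show (1 - c) + (1 + c) = 2 by ring]
      norm_num
    linarith
  calc 2 * b ≤ (|1 - c| + |1 + c|) * b := by gcongr
    _ = b * |1 - c| + b * |1 + c| := by ring
    _ ≤ _ := by gcongr

section Fin

variable {n : ℕ}

open Pool.H71.Bdry

theorem moll_nonneg (S : Set (EuclideanSpace ℝ (Fin (n + 1)))) {η : EuclideanSpace ℝ (Fin (n + 1)) → ℝ} (h0 : ∀ x, 0 ≤ η x) (x : EuclideanSpace ℝ (Fin (n + 1))) : 0 ≤ moll S η x :=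
  integral_nonneg fun z => h0 _

theorem moll_le_one (S : Set (EuclideanSpace ℝ (Fin (n + 1)))) {η : EuclideanSpace ℝ (Fin (n + 1)) → ℝ} (h0 : ∀ x, 0 ≤ η x) (hi : Integrable η)
    (h1 : ∫ x, η x = 1) (x : EuclideanSpace ℝ (Fin (n + 1))) : moll S η x ≤ 1 := by
  have h2 : Integrable (fun z => η (x - z)) := hi.comp_sub_left x
  calc moll S η x ≤ ∫ z, η (x - z) := setIntegral_le_integral h2 (Eventually.of_forall fun z => h0 _)
    _ = 1 := by rw [integral_sub_left_eq_self η volume x, h1]

/-- The gradient of a mollified indicator of a bounded set is Lipschitz. -/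
theorem moll_fderiv_lip {S : Set (EuclideanSpace ℝ (Fin (n + 1)))} (hS : MeasurableSet S) (hSb : Bornology.IsBounded S)
    {η : EuclideanSpace ℝ (Fin (n + 1)) → ℝ} (hη : ContDiff ℝ 2 η) (hc : HasCompactSupport η) :
    ∃ L : ℝ≥0, LipschitzWith L (fderiv ℝ (moll S η)) := by
  have h2 : ContDiff ℝ 2 (moll S η) := by
    rw [moll_eq S hS]
    exact hc.contDiff_convolution_right _ (locallyIntegrable_ind S hS) hη
  have hcs : HasCompactSupport (moll S η) := by
    rw [moll_eq S hS]
    refine HasCompactSupport.convolution _ ?_ hc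
    refine HasCompactSupport.intro (K := closure S) hSb.isCompact_closure fun x hx => ?_
    exact indicator_of_notMem (fun h => hx (subset_closure h)) _
  exact ContDiff.lipschitzWith_of_hasCompactSupport (hcs.fderiv ℝ)
    (h2.fderiv_right (m := 1) (by norm_num)) (by simp)

/-- A sequence of bump functions. -/
noncomputable def bmp (ρ : ℝ) (hρ : 0 < ρ) (j : ℕ) : ContDiffBump (0 : EuclideanSpace ℝ (Fin (n + 1))) where
  rIn := ρ / (2 * (j + 1))
  rOut := ρ / (j + 1)
  rIn_pos := by positivity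
  rIn_lt_rOut := by
    apply div_lt_div_of_pos_left hρ (by positivity)
    have : (0:ℝ) < (j:ℝ) + 1 := by positivity
    linarith

theorem moll_tendsto {S : Set (EuclideanSpace ℝ (Fin (n + 1)))} (hS : MeasurableSet S) (ρ : ℝ) (hρ : 0 < ρ) :
    ∀ᵐ x ∂(volume : Measure (EuclideanSpace ℝ (Fin (n + 1)))), Tendsto (fun j => moll S ((bmp (n := n) ρ hρ j).normed volume) x)
      atTop (𝓝 (S.indicator (fun _ => (1:ℝ)) x)) := by
  have h := ContDiffBump.ae_convolution_tendsto_right_of_locallyIntegrable (μ := (volume : Measure (EuclideanSpace ℝ (Fin (n + 1)))))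
    (φ := fun j => bmp (n := n) ρ hρ j) (l := atTop) (K := 2) (g := S.indicator (fun _ => (1:ℝ))) ?_ ?_
    (locallyIntegrable_ind S hS)
  · filter_upwards [h] with x hx
    refine hx.congr fun j => ?_
    rw [convolution_lsmul_swap, moll, ← integral_indicator hS]
    congr 1
    ext z
    by_cases hz : z ∈ S <;> simp [hz]
  · have : Tendsto (fun j : ℕ => ρ / ((j:ℝ) + 1)) atTop (𝓝 0) := by
      exact tendsto_const_div_atTop_nhds_zero_nat ρ |>.comp (tendsto_add_atTop_nat 1) |>.congr
        (fun n => by simp)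
    exact this
  · refine Eventually.of_forall fun j => ?_
    have h1 : (0:ℝ) < (j:ℝ) + 1 := by positivity
    show ρ / (j + 1) ≤ 2 * (ρ / (2 * (j + 1)))
    rw [show 2 * (ρ / (2 * ((j:ℝ) + 1))) = ρ / (j + 1) by field_simp]

/-- For every `ε` there is a mollification which is `ε`-close to the sign function. -/
theorem exists_bump {K S : Set (EuclideanSpace ℝ (Fin (n + 1)))} {R : ℝ} (hK : CB K R) (hS : MeasurableSet S)
    (ρ : ℝ) (hρ : 0 < ρ) {ε : ℝ} (hε : 0 < ε) :
    ∃ η : EuclideanSpace ℝ (Fin (n + 1)) → ℝ, ContDiff ℝ 2 η ∧ (∀ x, 0 ≤ η x) ∧ tsupport η ⊆ Metric.closedBall 0 ρ ∧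
      (∫ x, η x = 1) ∧ ∫ x in K, |moll S η x - S.indicator (fun _ => (1:ℝ)) x| ≤ ε := by
  haveI : IsFiniteMeasure (volume.restrict K) := ⟨by simpa using hK.lt_top⟩
  have hη0 : ∀ j, ∀ x, 0 ≤ (bmp (n := n) ρ hρ j).normed volume x := fun j x =>
    ContDiffBump.nonneg_normed _ x
  have hη1 : ∀ j, ∫ x, (bmp (n := n) ρ hρ j).normed volume x = 1 := fun j =>
    ContDiffBump.integral_normed _
  have hη2 : ∀ j, ContDiff ℝ 2 ((bmp (n := n) ρ hρ j).normed volume) := fun j =>
    ContDiffBump.contDiff_normed _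
  have hηc : ∀ j, HasCompactSupport ((bmp (n := n) ρ hρ j).normed volume) := fun j =>
    ContDiffBump.hasCompactSupport_normed _
  have hηi : ∀ j, Integrable ((bmp (n := n) ρ hρ j).normed volume) := fun j =>
    (hη2 j).continuous.integrable_of_hasCompactSupport (hηc j)
  have hlim : Tendsto (fun j => ∫ x in K,
      |moll S ((bmp (n := n) ρ hρ j).normed volume) x - S.indicator (fun _ => (1:ℝ)) x|) atTop
      (𝓝 (∫ x in K, (0:ℝ))) := by
    refine tendsto_integral_of_dominated_convergence (fun _ => (1:ℝ)) ?_ ?_ ?_ ?_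
    · intro j
      refine (Measurable.abs (Measurable.sub ?_ (measurable_const.indicator hS))).aestronglyMeasurable
      exact (moll_contDiff S hS _ ((hη2 j).of_le (by norm_num)) (hηc j)).continuous.measurable
    · exact integrable_const _
    · intro j
      refine Eventually.of_forall fun x => ?_
      rw [Real.norm_eq_abs, abs_abs]
      have h0 := moll_nonneg S (hη0 j) x
      have h1 := moll_le_one S (hη0 j) (hηi j) (hη1 j) x
      by_cases hx : x ∈ S
      · simp only [indicator_of_mem hx]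
        rw [abs_le]; constructor <;> linarith
      · simp only [indicator_of_notMem hx]
        rw [abs_le]; constructor <;> linarith
    · refine ae_restrict_of_ae ?_
      filter_upwards [moll_tendsto hS ρ hρ] with x hx
      have := (hx.sub_const (S.indicator (fun _ => (1:ℝ)) x)).abs
      simpa using this
  rw [integral_zero] at hlim
  obtain ⟨j, hj⟩ := (hlim.eventually_le_const hε).exists
  refine ⟨(bmp (n := n) ρ hρ j).normed volume, hη2 j, hη0 j, ?_, hη1 j, hj⟩
  rw [ContDiffBump.tsupport_normed_eq]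
  apply Metric.closedBall_subset_closedBall
  show ρ / ((j:ℝ) + 1) ≤ ρ
  apply div_le_self hρ.le
  have : (0:ℝ) ≤ (j:ℝ) := by positivity
  linarith

/-- The isoperimetric inequality on a slightly shrunk body. -/
theorem machine_aux {Ω K K' S : Set (EuclideanSpace ℝ (Fin (n + 1)))} {R Λ ρ P : ℝ} (hΩ : IsOpen Ω)
    (hK : CB K R) (hK' : CB K' R) (hKK : K' ⊆ K) (hρ : 0 < ρ)
    (hball : ∀ x ∈ K, Metric.closedBall x ρ ⊆ Ω) (hS : MeasurableSet S)
    (hSb : Bornology.IsBounded S) (hP : μHE[n] (Ω ∩ frontier S) = ENNReal.ofReal P) (hP0 : 0 ≤ P)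
    (hΛ : 0 < Λ) (hPC : PC K' Λ) (b : ℝ)
    (h1 : b ≤ volume.real (K' ∩ S)) (h2 : b ≤ volume.real (K' \ S)) :
    2 * b ≤ 16 * Λ * P + volume.real K' / 4 := by
  refine le_of_forall_pos_le_add fun ε hε => ?_
  obtain ⟨η, hη2, hη0, hηs, hη1, hηε⟩ := exists_bump hK hS ρ hρ (ε := ε / 4) (by positivity)
  have hηc : HasCompactSupport η :=
    (isCompact_closedBall (0 : EuclideanSpace ℝ (Fin (n + 1))) ρ).of_isClosed_subset (isClosed_tsupport η) hηs
  have hηi : Integrable η := hη2.continuous.integrable_of_hasCompactSupport hηc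
  have hη1' : ContDiff ℝ 1 η := hη2.of_le (by norm_num)
  set u := moll S η with hu
  have huC : ContDiff ℝ 1 u := moll_contDiff S hS η hη1' hηc
  obtain ⟨L, hL⟩ := moll_fderiv_lip hS hSb hη2 hηc
  have hu0 := moll_nonneg S hη0
  have hu1 := moll_le_one S hη0 hηi hη1
  set f : EuclideanSpace ℝ (Fin (n + 1)) → ℝ := fun x => 2 * u x - 1 with hf
  have hfC : ContDiff ℝ 1 f := (contDiff_const.mul huC).sub contDiff_const
  have hfd : ∀ x, fderiv ℝ f x = (2:ℝ) • fderiv ℝ u x := by
    intro x
    have hd : DifferentiableAt ℝ u x := (huC.differentiable (by simp)).differentiableAt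
    have := ((hd.hasFDerivAt.const_mul (2:ℝ)).sub_const (1:ℝ)).fderiv
    simpa using this
  have hfL : ∀ x z, ‖fderiv ℝ f x - fderiv ℝ f z‖ ≤ (2 * L) * ‖x - z‖ := by
    intro x z
    rw [hfd, hfd, ← smul_sub, norm_smul, mul_assoc]
    have := hL.dist_le_mul x z
    rw [dist_eq_norm, dist_eq_norm] at this
    rw [Real.norm_of_nonneg (by norm_num : (0:ℝ) ≤ 2)]
    gcongr
  have hf1 : ∀ x ∈ K, |f x| ≤ 1 := by
    intro x _
    rw [hf, abs_le]
    have := hu0 x
    have := hu1 x
    constructor <;> simp only <;> linarith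
  obtain ⟨g, hgC, hgd, hgi⟩ := smoothing hK hfC hfL hf1 (t := 16 * Λ ^ 2) (by positivity)
    (ε := ε / 4) (by positivity)
  have hsq : Real.sqrt (16 * Λ ^ 2) = 4 * Λ := by
    rw [show 16 * Λ ^ 2 = (4 * Λ) ^ 2 by ring]
    exact Real.sqrt_sq (by positivity)
  rw [hsq] at hgd hgi
  haveI : IsFiniteMeasure (volume.restrict K) := ⟨by simpa using hK.lt_top⟩
  haveI : IsFiniteMeasure (volume.restrict K') := ⟨by simpa using hK'.lt_top⟩
  -- the gradient integral
  have hgrad : ∫ x in K, ‖fderiv ℝ f x‖ ≤ 2 * P := by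
    have h3 : ∫ x in K, ‖fderiv ℝ f x‖ = 2 * ∫ x in K, ‖fderiv ℝ u x‖ := by
      rw [← integral_const_mul]
      congr 1
      ext x
      rw [hfd, norm_smul, Real.norm_of_nonneg (by norm_num : (0:ℝ) ≤ 2)]
    rw [h3]
    refine mul_le_mul_of_nonneg_left ?_ (by norm_num)
    have h4 := moll_lintegral_le S Ω K hS hΩ hK.meas η hη0 hη1' ρ hηs hη1
      (by rw [hP]; exact ENNReal.ofReal_ne_top) hball
    rw [hP] at h4
    rw [integral_eq_lintegral_of_nonneg_ae (Eventually.of_forall fun x => norm_nonneg _)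
      (huC.continuous_fderiv (by simp)).norm.aestronglyMeasurable]
    exact ENNReal.toReal_le_of_le_ofReal hP0 h4
  -- integrability
  have hfi : IntegrableOn f K' := by
    obtain ⟨B, hB⟩ := hK'.bdd_of_cont hfC.continuous
    refine Measure.integrableOn_of_bounded (M := B) hK'.lt_top.ne
      hfC.continuous.aestronglyMeasurable ?_
    exact (ae_restrict_iff' hK'.meas).2 (Eventually.of_forall fun x hx => hB x hx)
  have hgi' : IntegrableOn g K' := by
    obtain ⟨B, hB⟩ := hK'.bdd_of_cont hgC.continuous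
    refine Measure.integrableOn_of_bounded (M := B) hK'.lt_top.ne
      hgC.continuous.aestronglyMeasurable ?_
    exact (ae_restrict_iff' hK'.meas).2 (Eventually.of_forall fun x hx => hB x hx)
  have hfiK : IntegrableOn f K := by
    obtain ⟨B, hB⟩ := hK.bdd_of_cont hfC.continuous
    refine Measure.integrableOn_of_bounded (M := B) hK.lt_top.ne
      hfC.continuous.aestronglyMeasurable ?_
    exact (ae_restrict_iff' hK.meas).2 (Eventually.of_forall fun x hx => hB x hx)
  have hgiK : IntegrableOn g K := by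
    obtain ⟨B, hB⟩ := hK.bdd_of_cont hgC.continuous
    refine Measure.integrableOn_of_bounded (M := B) hK.lt_top.ne
      hgC.continuous.aestronglyMeasurable ?_
    exact (ae_restrict_iff' hK.meas).2 (Eventually.of_forall fun x hx => hB x hx)
  have huiK : IntegrableOn u K := by
    obtain ⟨B, hB⟩ := hK.bdd_of_cont huC.continuous
    refine Measure.integrableOn_of_bounded (M := B) hK.lt_top.ne
      huC.continuous.aestronglyMeasurable ?_
    exact (ae_restrict_iff' hK.meas).2 (Eventually.of_forall fun x hx => hB x hx)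
  set σ : EuclideanSpace ℝ (Fin (n + 1)) → ℝ := S.indicator (fun _ => (1:ℝ)) with hσ
  have hσi : ∀ T : Set (EuclideanSpace ℝ (Fin (n + 1))), volume T ≠ ⊤ → IntegrableOn σ T := by
    intro T hT
    haveI : IsFiniteMeasure (volume.restrict T) := ⟨by simpa using hT.lt_top⟩
    exact (integrableOn_const hT).indicator hS
  obtain ⟨c, hc⟩ := hPC.l1 hK' hΛ hgC (M := 1 / (4 * Λ)) (by positivity) (fun x hx => hgd x (hKK hx))
  have hcc : Λ * (1 / (4 * Λ)) * volume.real K' = volume.real K' / 4 := by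
    field_simp
  rw [hcc] at hc
  have hlow := sign_far hK' hS c b h1 h2
  -- triangle inequality
  have hI1 : IntegrableOn (fun x => |(2 * σ x - 1) - f x|) K' :=
    ((((hσi K' hK'.lt_top.ne).const_mul 2).sub (integrableOn_const hK'.lt_top.ne)).sub hfi).abs
  have hI2 : IntegrableOn (fun x => |f x - g x|) K' := (hfi.sub hgi').abs
  have hI3 : IntegrableOn (fun x => |g x - c|) K' :=
    (hgi'.sub (integrableOn_const hK'.lt_top.ne)).abs
  have hI12 : IntegrableOn (fun x => |(2 * σ x - 1) - f x| + |f x - g x|) K' := hI1.add hI2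
  have htri : ∫ x in K', |(2 * σ x - 1) - c|
      ≤ (∫ x in K', |(2 * σ x - 1) - f x|) + (∫ x in K', |f x - g x|) + ∫ x in K', |g x - c| := by
    rw [← integral_add hI1 hI2, ← integral_add hI12 hI3]
    refine integral_mono ?_ (hI12.add hI3) ?_
    · exact ((((hσi K' hK'.lt_top.ne).const_mul 2).sub (integrableOn_const hK'.lt_top.ne)).sub
        (integrableOn_const hK'.lt_top.ne)).abs
    · intro x
      have e1 := abs_add_three ((2 * σ x - 1) - f x) (f x - g x) (g x - c)
      rw [show (2 * σ x - 1) - f x + (f x - g x) + (g x - c) = (2 * σ x - 1) - c by ring] at e1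
      exact e1
  have hsub1 : ∫ x in K', |(2 * σ x - 1) - f x| ≤ ε / 2 := by
    have hJ : IntegrableOn (fun x => |u x - σ x|) K := (huiK.sub (hσi K hK.lt_top.ne)).abs
    calc ∫ x in K', |(2 * σ x - 1) - f x| = ∫ x in K', 2 * |u x - σ x| := by
          congr 1
          ext x
          rw [hf, ← abs_neg]
          simp only
          rw [show -(2 * σ x - 1 - (2 * u x - 1)) = 2 * (u x - σ x) by ring, abs_mul,
            abs_of_pos (by norm_num : (0:ℝ) < 2)]
      _ ≤ ∫ x in K, 2 * |u x - σ x| := by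
          refine setIntegral_mono_set (hJ.const_mul 2) ?_ hKK.eventuallyLE
          exact Eventually.of_forall fun x => by positivity
      _ = 2 * ∫ x in K, |u x - σ x| := integral_const_mul _ _
      _ ≤ 2 * (ε / 4) := by gcongr
      _ = ε / 2 := by ring
  have hsub2 : ∫ x in K', |f x - g x| ≤ 16 * Λ * P + ε / 4 := by
    calc ∫ x in K', |f x - g x| ≤ ∫ x in K, |f x - g x| := by
          refine setIntegral_mono_set (hfiK.sub hgiK).abs ?_ hKK.eventuallyLE
          exact Eventually.of_forall fun x => by positivity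
      _ ≤ 2 * (4 * Λ) * (∫ x in K, ‖fderiv ℝ f x‖) + ε / 4 := hgi
      _ ≤ 2 * (4 * Λ) * (2 * P) + ε / 4 := by gcongr
      _ = _ := by ring
  linarith

/-- Shrinking an open convex set containing the origin. -/
theorem shrink_ball {Ω : Set E} (hΩ : IsOpen Ω) (hc : Convex ℝ Ω) (h0 : (0:E) ∈ Ω) {r : ℝ}
    (hr0 : 0 < r) (hr1 : r < 1) :
    ∃ ρ, 0 < ρ ∧ ∀ x ∈ r • Ω, Metric.closedBall x ρ ⊆ Ω := by
  obtain ⟨δ, hδ, hδs⟩ := Metric.isOpen_iff.1 hΩ 0 h0
  refine ⟨(1 - r) * (δ / 2), by have : 0 < 1 - r := by linarith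
                                positivity, ?_⟩
  rintro _ ⟨ω, hω, rfl⟩ y hy
  have h1r : 0 < 1 - r := by linarith
  set v := (1 - r)⁻¹ • (y - r • ω) with hv
  have hvn : ‖v‖ ≤ δ / 2 := by
    rw [Metric.mem_closedBall, dist_eq_norm] at hy
    rw [hv, norm_smul, norm_inv, Real.norm_of_nonneg h1r.le, inv_mul_le_iff₀ h1r]
    exact hy
  have hvΩ : v ∈ Ω := hδs (by rw [Metric.mem_ball, dist_zero_right]; linarith)
  have := hc hω hvΩ hr0.le h1r.le (by ring)
  have he : y = r • ω + (1 - r) • v := by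
    rw [hv, smul_smul, mul_inv_cancel₀ h1r.ne', one_smul]
    abel
  rw [he]
  exact this

/-- **The machine** (coordinates).  If a convex subset `Ω'` of `Ω` with at least three quarters of
the volume has Poincare constant `Λ²`, then every `S` with half the volume has a boundary in `Ω`
of measure at least `|Ω| / (64 Λ)`. -/
theorem kls_machine_fin {Ω Ω' S : Set (EuclideanSpace ℝ (Fin (n + 1)))} (hΩo : IsOpen Ω) (hΩc : Convex ℝ Ω)
    (hΩb : Bornology.IsBounded Ω) (h0 : (0:EuclideanSpace ℝ (Fin (n + 1))) ∈ Ω) (hsub : Ω' ⊆ Ω) (hΩ'c : Convex ℝ Ω')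
    (hΩ'm : MeasurableSet Ω') {Λ : ℝ} (hΛ : 0 < Λ)
    (hvol : 3 / 4 * volume.real Ω ≤ volume.real Ω') (hPC : PC Ω' Λ)
    (hS : MeasurableSet S) (hSΩ : S ⊆ Ω) (hSv : volume.real S = volume.real Ω / 2) :
    volume Ω ≤ ENNReal.ofReal (64 * Λ) * μHE[n] (Ω ∩ frontier S) := by
  by_cases hPt : μHE[n] (Ω ∩ frontier S) = ⊤
  · rw [hPt, ENNReal.mul_top (by simp [hΛ])]
    exact le_top
  set P := (μHE[n] (Ω ∩ frontier S)).toReal with hPdef
  have hP : μHE[n] (Ω ∩ frontier S) = ENNReal.ofReal P := (ENNReal.ofReal_toReal hPt).symm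
  have hP0 : 0 ≤ P := ENNReal.toReal_nonneg
  have hΩv0 : volume Ω ≠ 0 := (hΩo.measure_pos volume ⟨0, h0⟩).ne'
  have hΩvt : volume Ω ≠ ⊤ := hΩb.measure_lt_top.ne
  set V := volume.real Ω with hV
  have hV0 : 0 < V := ENNReal.toReal_pos hΩv0 hΩvt
  obtain ⟨R, hR⟩ := hΩb.subset_closedBall 0
  have hRpos : 0 ≤ R := by
    have := hR h0
    simpa using this
  have hΩ'v0 : volume Ω' ≠ 0 := by
    intro h
    have h1 : volume.real Ω' = 0 := by simp [Measure.real, h]
    rw [h1] at hvol
    linarith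
  set N := Module.finrank ℝ (EuclideanSpace ℝ (Fin (n + 1))) with hN
  -- estimate for each shrinking factor
  have key : ∀ r : ℝ, 0 < r → r < 1 →
      2 * ((3 / 4 * r ^ N - 1 / 2) * V) ≤ 16 * Λ * P + V / 4 := by
    intro r hr0 hr1
    obtain ⟨ρ, hρ, hball⟩ := shrink_ball hΩo hΩc h0 hr0 hr1
    have hK : CB (r • Ω) R := by
      refine ⟨hΩc.smul r, (hΩo.smul₀ hr0.ne').measurableSet, ?_, ?_⟩
      · rintro _ ⟨ω, hω, rfl⟩
        have := hR hω
        rw [mem_closedBall_zero_iff] at this ⊢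
        simp only [norm_smul, Real.norm_of_nonneg hr0.le]
        nlinarith [norm_nonneg ω]
      · rw [Measure.addHaar_smul]
        simp only [ne_eq, mul_eq_zero, not_or]
        refine ⟨?_, hΩv0⟩
        simp only [ENNReal.ofReal_eq_zero, not_le]
        positivity
    have hK' : CB (r • Ω') R := by
      refine ⟨hΩ'c.smul r, hΩ'm.const_smul_of_ne_zero hr0.ne', ?_, ?_⟩
      · exact (smul_set_mono hsub).trans hK.sub
      · rw [Measure.addHaar_smul]
        simp only [ne_eq, mul_eq_zero, not_or]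
        refine ⟨?_, hΩ'v0⟩
        simp only [ENNReal.ofReal_eq_zero, not_le]
        positivity
    have hPC' : PC (r • Ω') Λ := (hPC.smul hr0).mono (by positivity) (by nlinarith)
    have hrΩ : r • Ω' ⊆ Ω := by
      refine (smul_set_mono hsub).trans fun x hx => hball x hx ?_
      exact Metric.mem_closedBall_self hρ.le
    have hK'v : volume.real (r • Ω') = r ^ N * volume.real Ω' := volume_real_smul Ω' hr0
    have hK'lt : volume.real (r • Ω') ≤ V := measureReal_mono hrΩ hΩvt
    have hsum : volume.real (r • Ω') = volume.real (r • Ω' ∩ S) + volume.real ((r • Ω') \ S) :=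
      (measureReal_inter_add_sdiff hS (hK'.lt_top.ne)).symm
    have hlow : 3 / 4 * r ^ N * V ≤ volume.real (r • Ω') := by
      rw [hK'v]
      have : 0 ≤ r ^ N := by positivity
      nlinarith
    have hA : volume.real (r • Ω' ∩ S) ≤ V / 2 := by
      rw [← hSv]
      exact measureReal_mono inter_subset_right (measure_ne_top_of_subset hSΩ hΩvt)
    have hB : volume.real ((r • Ω') \ S) ≤ V / 2 := by
      have h1 : volume.real ((r • Ω') \ S) ≤ volume.real (Ω \ S) :=
        measureReal_mono (sdiff_subset_sdiff_left hrΩ) (measure_ne_top_of_subset sdiff_subset hΩvt)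
      have h2 : volume.real (Ω \ S) = V - volume.real S := by
        rw [measureReal_sdiff hSΩ hS]
      rw [h2, hSv] at h1
      linarith
    have := machine_aux hΩo hK hK' (smul_set_mono hsub) hρ hball hS (hΩb.subset hSΩ) hP hP0 hΛ
      hPC' ((3 / 4 * r ^ N - 1 / 2) * V) (by nlinarith) (by nlinarith)
    linarith
  -- let r tend to 1
  have hlim : Tendsto (fun r : ℝ => 2 * ((3 / 4 * r ^ N - 1 / 2) * V)) (𝓝[<] 1)
      (𝓝 (2 * ((3 / 4 * 1 ^ N - 1 / 2) * V))) := by
    have : Continuous fun r : ℝ => 2 * ((3 / 4 * r ^ N - 1 / 2) * V) := by fun_prop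
    exact (this.tendsto 1).mono_left nhdsWithin_le_nhds
  have hev : ∀ᶠ r : ℝ in 𝓝[<] 1, 2 * ((3 / 4 * r ^ N - 1 / 2) * V) ≤ 16 * Λ * P + V / 4 := by
    filter_upwards [Ioo_mem_nhdsLT (show (0:ℝ) < 1 by norm_num)] with r hr
    exact key r hr.1 hr.2
  have hfin := le_of_tendsto hlim hev
  rw [one_pow] at hfin
  have hfinal : V ≤ 64 * Λ * P := by linarith
  rw [hP, ← ENNReal.ofReal_mul (by positivity), ← ENNReal.ofReal_toReal hΩvt]
  exact ENNReal.ofReal_le_ofReal hfinal

end Fin

/-- Invariance of the Poincare inequality under linear isometries. -/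
theorem PC.map {F : Type*} [NormedAddCommGroup F] [InnerProductSpace ℝ F]
    [FiniteDimensional ℝ F] [MeasurableSpace F] [BorelSpace F] (φ : E ≃ₗᵢ[ℝ] F) {K : Set E}
    {Λ : ℝ} (h : PC K Λ) : PC (φ '' K) Λ := by
  intro g hg
  have hmp : MeasurePreserving φ := φ.measurePreserving
  have hme : MeasurableEmbedding φ := φ.toHomeomorph.measurableEmbedding
  have hint : ∀ G : F → ℝ, ∫ x in φ '' K, G x = ∫ x in K, G (φ x) := fun G =>
    hmp.setIntegral_image_emb hme G K
  have hv : volume.real (φ '' K) = volume.real K := by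
    rw [Measure.real, Measure.real, ← hmp.measure_preimage_emb hme,
      preimage_image_eq K φ.injective]
  rw [hint, hint, hint, hv]
  have hg' : ContDiff ℝ 1 (fun x => g (φ x)) := hg.comp φ.contDiff
  have hfd : ∀ x, ‖fderiv ℝ (fun x => g (φ x)) x‖ = ‖fderiv ℝ g (φ x)‖ := by
    intro x
    have h1 : fderiv ℝ (fun x => g (φ x)) x
        = (fderiv ℝ g (φ x)).comp (φ : E →L[ℝ] F) := by
      have hd : DifferentiableAt ℝ g (φ x) := (hg.differentiable (by simp)).differentiableAt
      have := (hd.hasFDerivAt.comp x (φ : E →L[ℝ] F).hasFDerivAt).fderiv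
      exact this
    rw [h1]
    exact (fderiv ℝ g (φ x)).opNorm_comp_linearIsometryEquiv φ
  have key := h _ hg'
  simp only [hfd] at key
  exact key

/-- **The machine**, in a Euclidean space of dimension `n + 1`. -/
theorem kls_machine {n : ℕ} (hn : Module.finrank ℝ E = n + 1)
    {Ω Ω' S : Set E} (hΩo : IsOpen Ω) (hΩc : Convex ℝ Ω)
    (hΩb : Bornology.IsBounded Ω) (h0 : (0:E) ∈ Ω) (hsub : Ω' ⊆ Ω) (hΩ'c : Convex ℝ Ω')
    (hΩ'm : MeasurableSet Ω') {Λ : ℝ} (hΛ : 0 < Λ)
    (hvol : 3 / 4 * volume.real Ω ≤ volume.real Ω') (hPC : PC Ω' Λ)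
    (hS : MeasurableSet S) (hSΩ : S ⊆ Ω) (hSv : volume.real S = volume.real Ω / 2) :
    volume Ω ≤ ENNReal.ofReal (64 * Λ) * μHE[n] (Ω ∩ frontier S) := by
  set φ : E ≃ₗᵢ[ℝ] EuclideanSpace ℝ (Fin (n + 1)) :=
    ((stdOrthonormalBasis ℝ E).reindex (finCongr hn)).repr with hφ
  have hmp : MeasurePreserving φ := φ.measurePreserving
  have hme : MeasurableEmbedding φ := φ.toHomeomorph.measurableEmbedding
  have hv : ∀ K : Set E, volume (φ '' K) = volume K := fun K => by
    rw [← hmp.measure_preimage_emb hme, preimage_image_eq K φ.injective]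
  have hvr : ∀ K : Set E, volume.real (φ '' K) = volume.real K := fun K => by
    rw [Measure.real, Measure.real, hv]
  have hfr : φ '' (Ω ∩ frontier S) = φ '' Ω ∩ frontier (φ '' S) := by
    rw [image_inter φ.injective]
    congr 1
    exact φ.toHomeomorph.image_frontier S
  have key := kls_machine_fin (n := n) (Ω := φ '' Ω) (Ω' := φ '' Ω') (S := φ '' S)
    (φ.toHomeomorph.isOpenMap _ hΩo) (hΩc.linear_image φ.toLinearEquiv.toLinearMap)
    (φ.lipschitz.isBounded_image hΩb) ⟨0, h0, map_zero φ⟩ (image_mono hsub)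
    (hΩ'c.linear_image φ.toLinearEquiv.toLinearMap) (hme.measurableSet_image.2 hΩ'm) hΛ
    (by rw [hvr, hvr]; exact hvol) (hPC.map φ) (hme.measurableSet_image.2 hS) (image_mono hSΩ)
    (by rw [hvr, hvr]; exact hSv)
  rw [hv, ← hfr] at key
  have hH : μHE[n] (φ '' (Ω ∩ frontier S)) = μHE[n] (Ω ∩ frontier S) := by
    rw [Pool.H71.Bdry.μHE_apply, Pool.H71.Bdry.μHE_apply]
    congr 1
    exact φ.toIsometryEquiv.isometry.hausdorffMeasure_image (Or.inl (Nat.cast_nonneg n)) _
  rw [hH] at key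
  exact key

end Pool.Agent.H84
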