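import Pool.Agent.H84.KlsMachine
import Pool.Agent.H69.KLS.Section

/-!
# The reduction used for every class of symmetric bodies
-/

set_option autoImplicit false
set_option linter.unusedSectionVars false
set_option linter.unusedVariables false
set_option linter.style.haveILetI false

open MeasureTheory Measure Set Filter Topology
open scoped ENNReal NNReal Pointwise

namespace Pool.Agent.H84

variable {E : Type*} [NormedAddCommGroup E] [InnerProductSpace ℝ E]
    [FiniteDimensional ℝ E] [MeasurableSpace E] [BorelSpace E]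

/-- The section bound of `Pool.Agent.H69.KLS.Section` in a general Euclidean space. -/
theorem section_bound_gen {n : ℕ} (hn : Module.finrank ℝ E = n + 1) {Ω : Set E}
    (hΩ : IsOpen Ω) (hconv : Convex ℝ Ω) (hb : Bornology.IsBounded Ω)
    (hsymm : ∀ x ∈ Ω, -x ∈ Ω) (a : E) (ha : ‖a‖ = 1) :
    μHE[n] {x | x ∈ Ω ∧ inner ℝ a x = (0:ℝ)} ^ 2 * ∫⁻ x in Ω, ENNReal.ofReal ((inner ℝ a x) ^ 2) ≤
      ENNReal.ofReal (4096 * Real.pi) * volume Ω ^ 3 := by
  set φ : E ≃ₗᵢ[ℝ] EuclideanSpace ℝ (Fin (n + 1)) :=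
    ((stdOrthonormalBasis ℝ E).reindex (finCongr hn)).repr with hφ
  have hmp : MeasurePreserving φ := φ.measurePreserving
  have hme : MeasurableEmbedding φ := φ.toHomeomorph.measurableEmbedding
  have hv : volume (φ '' Ω) = volume Ω := by
    rw [← hmp.measure_preimage_emb hme, preimage_image_eq Ω φ.injective]
  have hset : {y | y ∈ φ '' Ω ∧ inner ℝ (φ a) y = (0:ℝ)}
      = φ '' {x | x ∈ Ω ∧ inner ℝ a x = (0:ℝ)} := by
    ext y
    constructor
    · rintro ⟨⟨x, hx, rfl⟩, h2⟩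
      rw [φ.inner_map_map] at h2
      exact ⟨x, ⟨hx, h2⟩, rfl⟩
    · rintro ⟨x, ⟨hx, h2⟩, rfl⟩
      exact ⟨⟨x, hx, rfl⟩, by rw [φ.inner_map_map]; exact h2⟩
  have hH : μHE[n] (φ '' {x | x ∈ Ω ∧ inner ℝ a x = (0:ℝ)})
      = μHE[n] {x | x ∈ Ω ∧ inner ℝ a x = (0:ℝ)} := by
    rw [Pool.H71.Bdry.μHE_apply, Pool.H71.Bdry.μHE_apply]
    congr 1
    exact φ.toIsometryEquiv.isometry.hausdorffMeasure_image (Or.inl (Nat.cast_nonneg n)) _
  have hI : ∫⁻ y in φ '' Ω, ENNReal.ofReal ((inner ℝ (φ a) y) ^ 2)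
      = ∫⁻ x in Ω, ENNReal.ofReal ((inner ℝ a x) ^ 2) := by
    rw [← hmp.setLIntegral_comp_preimage_emb hme, preimage_image_eq Ω φ.injective]
    simp only [φ.inner_map_map]
  have key := Pool.Agent.H69.KLS.section_bound_ennreal (n := n) (Ω := φ '' Ω)
    (φ.toHomeomorph.isOpenMap _ hΩ) (hconv.linear_image φ.toLinearEquiv.toLinearMap)
    (φ.lipschitz.isBounded_image hb)
    (by rintro _ ⟨x, hx, rfl⟩; exact ⟨-x, hsymm x hx, map_neg φ x⟩) (φ a)
    (by rw [φ.norm_map]; exact ha)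
  rw [hv, hI] at key
  have e : {x ∈ φ '' Ω | inner ℝ (φ a) x = 0} = {y | y ∈ φ '' Ω ∧ inner ℝ (φ a) y = (0:ℝ)} := rfl
  rw [e, hset, hH] at key
  exact key

/-- There is a direction of maximal second moment. -/
theorem exists_max_dir [Nontrivial E] {Ω : Set E} (hΩ : IsOpen Ω) (hne : (0:E) ∈ Ω)
    (hb : Bornology.IsBounded Ω) :
    ∃ a : E, ‖a‖ = 1 ∧ ∃ s : ℝ, 0 < s ∧
      (∫ x in Ω, (inner ℝ a x) ^ 2 = s ^ 2 * volume.real Ω) ∧
      ∀ v : E, ∫ x in Ω, (inner ℝ v x) ^ 2 ≤ s ^ 2 * ‖v‖ ^ 2 * volume.real Ω := by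
  have hΩv0 : volume Ω ≠ 0 := (hΩ.measure_pos volume ⟨0, hne⟩).ne'
  have hΩvt : volume Ω ≠ ⊤ := hb.measure_lt_top.ne
  have hV0 : 0 < volume.real Ω := ENNReal.toReal_pos hΩv0 hΩvt
  obtain ⟨R, hR⟩ := hb.subset_closedBall 0
  have hxR : ∀ x ∈ Ω, ‖x‖ ≤ R := fun x hx => by simpa using hR hx
  have hR0 : 0 ≤ R := (norm_nonneg _).trans (hxR 0 hne)
  haveI : IsFiniteMeasure (volume.restrict Ω) := ⟨by simpa using hΩvt.lt_top⟩
  set F : E → ℝ := fun v => ∫ x in Ω, (inner ℝ v x) ^ 2 with hF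
  have hint : ∀ v, IntegrableOn (fun x => (inner ℝ v x) ^ 2) Ω := by
    intro v
    refine Measure.integrableOn_of_bounded (M := (‖v‖ * R) ^ 2) hΩvt
      (by fun_prop) ?_
    refine (ae_restrict_iff' hΩ.measurableSet).2 (Eventually.of_forall fun x hx => ?_)
    rw [norm_pow]
    refine pow_le_pow_left₀ (norm_nonneg _) ?_ 2
    exact (norm_inner_le_norm v x).trans (by gcongr; exact hxR x hx)
  have hcont : Continuous F := by
    rw [continuous_iff_continuousAt]
    intro v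
    refine continuousAt_of_dominated (bound := fun _ => ((‖v‖ + 1) * R) ^ 2) ?_ ?_ ?_ ?_
    · exact Eventually.of_forall fun w => (hint w).aestronglyMeasurable
    · filter_upwards [Metric.ball_mem_nhds v one_pos] with w hw
      refine (ae_restrict_iff' hΩ.measurableSet).2 (Eventually.of_forall fun x hx => ?_)
      rw [norm_pow]
      refine pow_le_pow_left₀ (norm_nonneg _) ?_ 2
      refine (norm_inner_le_norm w x).trans ?_
      have hw' : ‖w‖ ≤ ‖v‖ + 1 := by
        have h1 : ‖w - v‖ < 1 := by simpa [dist_eq_norm] using hw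
        have h2 := norm_add_le (w - v) v
        rw [sub_add_cancel] at h2
        linarith
      gcongr
      exact hxR x hx
    · exact integrable_const _
    · refine Eventually.of_forall fun x => ?_
      have : Continuous fun w : E => (inner ℝ w x : ℝ) ^ 2 := by fun_prop
      exact this.continuousAt
  obtain ⟨a, ha, hmax⟩ := (isCompact_sphere (0:E) 1).exists_isMaxOn
    (NormedSpace.sphere_nonempty.2 zero_le_one) hcont.continuousOn
  have ha1 : ‖a‖ = 1 := by simpa using ha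
  have hFa : 0 < F a := by
    obtain ⟨δ, hδ, hδs⟩ := Metric.isOpen_iff.1 hΩ 0 hne
    rw [hF]
    simp only
    rw [setIntegral_pos_iff_support_of_nonneg_ae (Eventually.of_forall fun x => by positivity)
      (hint a)]
    set y : E := (δ / 2) • a with hy
    have hyΩ : y ∈ Ω := hδs (by
      rw [Metric.mem_ball, dist_zero_right, hy, norm_smul, ha1, mul_one, Real.norm_of_nonneg
        (by positivity)]
      linarith)
    have hopen : IsOpen (Function.support (fun x => (inner ℝ a x : ℝ) ^ 2) ∩ Ω) := by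
      refine IsOpen.inter ?_ hΩ
      have : Continuous fun x : E => (inner ℝ a x : ℝ) ^ 2 := by fun_prop
      exact isOpen_ne.preimage this
    refine hopen.measure_pos volume ⟨y, ?_, hyΩ⟩
    simp only [Function.mem_support, ne_eq]
    rw [hy, inner_smul_right, real_inner_self_eq_norm_sq, ha1]
    positivity
  refine ⟨a, ha1, Real.sqrt (F a / volume.real Ω), Real.sqrt_pos.2 (by positivity), ?_, ?_⟩
  · rw [Real.sq_sqrt (by positivity)]
    field_simp
    rfl
  · intro v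
    rw [Real.sq_sqrt (by positivity)]
    by_cases hv : v = 0
    · subst hv
      simp
    have hvn : 0 < ‖v‖ := norm_pos_iff.2 hv
    have h1 : F (‖v‖⁻¹ • v) ≤ F a := by
      refine hmax ?_
      simp [norm_smul, hvn.ne']
    have h2 : F v = ‖v‖ ^ 2 * F (‖v‖⁻¹ • v) := by
      simp only [hF]
      rw [← integral_const_mul]
      congr 1
      ext x
      rw [inner_smul_left]
      simp only [conj_trivial]
      field_simp
    have h3 : F a / volume.real Ω * ‖v‖ ^ 2 * volume.real Ω = ‖v‖ ^ 2 * F a := by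
      field_simp
    rw [h3]
    show F v ≤ _
    rw [h2]
    gcongr

/-- **Reduction.**  For a symmetric open bounded convex set `Ω` there are a unit vector `a` and
`s > 0` (the largest standard deviation of a linear functional) such that: every convex subset of
`Ω` with three quarters of the volume and Poincare constant `(c s)²` gives the hyperplane
inequality with constant `7300 c`, for the hyperplane orthogonal to `a`. -/
theorem kls_reduce {n : ℕ} (hn : Module.finrank ℝ E = n + 1) {Ω : Set E} (hΩo : IsOpen Ω)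
    (hΩc : Convex ℝ Ω) (hΩb : Bornology.IsBounded Ω) (hsymm : ∀ x ∈ Ω, -x ∈ Ω)
    (hne : Ω.Nonempty) :
    ∃ a : E, ‖a‖ = 1 ∧ ∃ s : ℝ, 0 < s ∧
      (∀ v : E, ∫ x in Ω, (inner ℝ v x) ^ 2 ≤ s ^ 2 * ‖v‖ ^ 2 * volume.real Ω) ∧
      ∀ (Ω' : Set E) (c : ℝ), 0 < c → Ω' ⊆ Ω → Convex ℝ Ω' → MeasurableSet Ω' →
        3 / 4 * volume.real Ω ≤ volume.real Ω' → PC Ω' (c * s) →
        ∀ S : Set E, MeasurableSet S → S ⊆ Ω → volume S = volume Ω / 2 →
          μH[(n:ℝ)] {x | x ∈ Ω ∧ inner ℝ a x = (0:ℝ)}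
            ≤ ENNReal.ofReal (7300 * c) * μH[(n:ℝ)] (Ω ∩ frontier S) := by
  have h0 : (0:E) ∈ Ω := by
    obtain ⟨x, hx⟩ := hne
    have := hΩc hx (hsymm x hx) (a := 1/2) (b := 1/2) (by norm_num) (by norm_num) (by norm_num)
    simpa using this
  haveI : Nontrivial E := Module.nontrivial_of_finrank_pos (R := ℝ) (by omega)
  obtain ⟨a, ha, s, hs, hsa, hsv⟩ := exists_max_dir hΩo h0 hΩb
  refine ⟨a, ha, s, hs, hsv, ?_⟩
  intro Ω' c hc hsub hΩ'c hΩ'm hvol hPC S hS hSΩ hSv
  have hΩv0 : volume Ω ≠ 0 := (hΩo.measure_pos volume ⟨0, h0⟩).ne'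
  have hΩvt : volume Ω ≠ ⊤ := hΩb.measure_lt_top.ne
  set V := volume.real Ω with hV
  have hV0 : 0 < V := ENNReal.toReal_pos hΩv0 hΩvt
  have hVe : volume Ω = ENNReal.ofReal V := (ENNReal.ofReal_toReal hΩvt).symm
  have hSv' : volume.real S = V / 2 := by
    rw [Measure.real, hSv, ENNReal.toReal_div, hV, Measure.real]
    norm_num
  have h1 := kls_machine hn hΩo hΩc hΩb h0 hsub hΩ'c hΩ'm (Λ := c * s) (by positivity) hvol hPC
    hS hSΩ hSv'
  have h2 := section_bound_gen hn hΩo hΩc hΩb hsymm a ha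
  have hI : ∫⁻ x in Ω, ENNReal.ofReal ((inner ℝ a x) ^ 2) = ENNReal.ofReal (s ^ 2 * V) := by
    rw [← hsa, ofReal_integral_eq_lintegral_ofReal _ (Eventually.of_forall fun x => by positivity)]
    obtain ⟨R, hR⟩ := hΩb.subset_closedBall 0
    have hxR : ∀ x ∈ Ω, ‖x‖ ≤ R := fun x hx => by simpa using hR hx
    refine Measure.integrableOn_of_bounded (M := (‖a‖ * R) ^ 2) hΩvt (by fun_prop) ?_
    refine (ae_restrict_iff' hΩo.measurableSet).2 (Eventually.of_forall fun x hx => ?_)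
    rw [norm_pow]
    refine pow_le_pow_left₀ (norm_nonneg _) ?_ 2
    exact (norm_inner_le_norm a x).trans (by gcongr; exact hxR x hx)
  rw [hI, hVe, ← ENNReal.ofReal_pow hV0.le, ← ENNReal.ofReal_mul (by positivity)] at h2
  set M := μHE[n] {x | x ∈ Ω ∧ inner ℝ a x = (0:ℝ)} with hM
  have hMt : M ≠ ⊤ := by
    intro h
    rw [h, ENNReal.top_pow (by norm_num), ENNReal.top_mul] at h2
    · exact absurd (top_le_iff.1 h2) ENNReal.ofReal_ne_top
    · simp only [ne_eq, ENNReal.ofReal_eq_zero, not_le]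
      positivity
  have hMr : M = ENNReal.ofReal M.toReal := (ENNReal.ofReal_toReal hMt).symm
  have hMle : M ≤ ENNReal.ofReal (64 * Real.sqrt Real.pi * V / s) := by
    rw [hMr, ← ENNReal.ofReal_pow ENNReal.toReal_nonneg, ← ENNReal.ofReal_mul (by positivity),
      ENNReal.ofReal_le_ofReal_iff (by positivity)] at h2
    rw [hMr]
    refine ENNReal.ofReal_le_ofReal ?_
    refine abs_le_of_sq_le_sq' ?_ (by positivity) |>.2
    rw [div_pow, mul_pow, mul_pow, Real.sq_sqrt Real.pi_pos.le, le_div_iff₀ (by positivity)]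
    have h3 : V * (M.toReal ^ 2 * s ^ 2) ≤ V * (64 ^ 2 * Real.pi * V ^ 2) := by nlinarith
    exact le_of_mul_le_mul_left h3 hV0
  have hpi : 64 * Real.sqrt Real.pi * 64 ≤ 7300 := by
    have h3 : Real.sqrt Real.pi ≤ 1.78 := by
      rw [Real.sqrt_le_left (by norm_num)]
      have := Real.pi_lt_d4
      norm_num
      linarith
    linarith
  have h4 : M ≤ ENNReal.ofReal (7300 * c) * μHE[n] (Ω ∩ frontier S) := by
    calc M ≤ ENNReal.ofReal (64 * Real.sqrt Real.pi * V / s) := hMle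
      _ = ENNReal.ofReal (64 * Real.sqrt Real.pi / s) * volume Ω := by
          rw [hVe, ← ENNReal.ofReal_mul (by positivity)]
          congr 1
          ring
      _ ≤ ENNReal.ofReal (64 * Real.sqrt Real.pi / s) *
          (ENNReal.ofReal (64 * (c * s)) * μHE[n] (Ω ∩ frontier S)) := by gcongr
      _ = ENNReal.ofReal (64 * Real.sqrt Real.pi * 64 * c) * μHE[n] (Ω ∩ frontier S) := by
          rw [← mul_assoc, ← ENNReal.ofReal_mul (by positivity)]
          congr 2
          field_simp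
      _ ≤ _ := by gcongr
  rw [hM, Pool.H71.Bdry.μHE_apply, Pool.H71.Bdry.μHE_apply] at h4
  have hκ : (Pool.H71.Bdry.κ n : ℝ≥0∞) ≠ 0 := by
    exact_mod_cast Pool.H71.Bdry.κ_ne_zero n
  have hκt : (Pool.H71.Bdry.κ n : ℝ≥0∞) ≠ ⊤ := ENNReal.coe_ne_top
  have h5 : (Pool.H71.Bdry.κ n : ℝ≥0∞) * μH[(n:ℝ)] {x | x ∈ Ω ∧ inner ℝ a x = (0:ℝ)}
      ≤ (Pool.H71.Bdry.κ n : ℝ≥0∞) * (ENNReal.ofReal (7300 * c) * μH[(n:ℝ)] (Ω ∩ frontier S)) := by
    calc _ ≤ _ := h4
      _ = _ := by ring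
  exact (ENNReal.mul_le_mul_iff_right hκ hκt).1 h5

end Pool.Agent.H84
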