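import Mathlib

/-!
# Wigner-positive states and beam-splitter states (definitions)

One bosonic mode, `ℋ = L²(ℝ; ℂ)`. All definitions used in the statement of
`Pool.Agent.Results.MP_bdb089_mp.BeamSplitter.result` are here.
-/

namespace Pool.Agent.H84.BS

open MeasureTheory Complex InnerProductSpace
open scoped ComplexConjugate ENNReal ComplexOrder

noncomputable section

/-- The one-mode Hilbert space `L²(ℝ)`. -/
abbrev H : Type := Lp ℂ 2 (volume : Measure ℝ)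

/-- Bounded operators on `H`. -/
abbrev Op : Type := H →L[ℂ] H

/-- The operator `T` has trace `t`: `∑_i ⟨b_i, T b_i⟩ = t` for every orthonormal basis `b`. -/
def HasTrace (T : Op) (t : ℂ) : Prop :=
  ∀ (ι : Type) (b : HilbertBasis ι ℂ H), HasSum (fun i => inner ℂ (b i) (T (b i))) t

/-- The cross Wigner transform
`(1/π) ∫ u(x+y) conj(v(x-y)) e^(-2ipy) dy`, i.e. the Wigner function of `|u⟩⟨v|`. -/
def wig (u v : H) (x p : ℝ) : ℂ :=
  (1 / (Real.pi : ℂ)) * ∫ y : ℝ, u (x + y) * conj (v (x - y)) * cexp (-(2 * I * p * y))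

/-- `w` is the value at `(x,p)` of the Wigner function
`(1/π) ∫ ⟨x+y|ρ|x-y⟩ e^(-2ipy) dy`; here `⟨x|ρ|x'⟩ = ∑_i (ρ b_i)(x) conj(b_i(x'))` for any
orthonormal basis `b`. -/
def HasWigner (ρ : Op) (x p : ℝ) (w : ℂ) : Prop :=
  ∀ (ι : Type) (b : HilbertBasis ι ℂ H), HasSum (fun i => wig (ρ (b i)) (b i) x p) w

/-- Density operators. -/
def IsState (ρ : Op) : Prop := ρ.IsPositive ∧ HasTrace ρ 1

/-- The convex set `D₊` of Wigner-positive states. -/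
def Dplus : Set Op :=
  {ρ | IsState ρ ∧ ∀ x p : ℝ, ∃ w : ℝ, 0 ≤ w ∧ HasWigner ρ x p (w : ℂ)}

/-- The wave function of the Fock state `|n⟩`:
`(n! √π)^(-1/2) He_n(√2 x) e^(-x²/2)`, with `He_n` the (probabilists') Hermite polynomial;
equivalently `(2^n n! √π)^(-1/2) H_n(x) e^(-x²/2)` with the physicists' one. -/
def fock (n : ℕ) (x : ℝ) : ℝ :=
  (Real.sqrt (n.factorial * Real.sqrt Real.pi))⁻¹ *
    Polynomial.aeval (Real.sqrt 2 * x) (Polynomial.hermite n) * Real.exp (-(x ^ 2 / 2))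

/-- `ψ` is Fock-bounded: `⟨n|ψ⟩ = 0` for all but finitely many `n`. -/
def FockBounded (ψ : H) : Prop :=
  {n : ℕ | ∫ x : ℝ, (fock n x : ℂ) * ψ x ≠ 0}.Finite

/-- The two-mode wave function `U (ψ ⊗ φ)` of the balanced beam splitter
`U = exp (π/4 (a†b - ab†))`. In the position representation `a†b - ab† = x ∂_y - y ∂_x`, so that
`(U F)(x,y) = F ((x-y)/√2, (x+y)/√2)`. -/
def twoMode (ψ φ : H) (x y : ℝ) : ℂ :=
  ψ ((x - y) / Real.sqrt 2) * φ ((x + y) / Real.sqrt 2)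

/-- `σ` is the beam-splitter state `Tr₂ [U (|ψ⟩⟨ψ| ⊗ |φ⟩⟨φ|) U†]`, i.e. with `Ψ = U (ψ ⊗ φ)`,
`⟨f|σ|h⟩ = ∫ ⟨f|Ψ(·,y)⟩ ⟨Ψ(·,y)|h⟩ dy` for all `f, h`. -/
def IsBeamSplitterState (ψ φ : H) (σ : Op) : Prop :=
  ∀ f h : H, inner ℂ f (σ h) =
    ∫ y : ℝ, (∫ x : ℝ, conj (f x) * twoMode ψ φ x y) * (∫ x : ℝ, conj (twoMode ψ φ x y) * h x)

end

end Pool.Agent.H84.BS
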