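import Pool.Agent.H84.BSDefs

namespace Pool.Agent.H84.BS

open MeasureTheory Complex InnerProductSpace
open scoped ComplexConjugate ENNReal ComplexOrder

noncomputable section

/-! ### Gaussian moments -/

lemma integrable_pow_exp (k : ℕ) : Integrable (fun x : ℝ => x ^ k * Real.exp (-(x ^ 2))) := by
  have h := integrable_rpow_mul_exp_neg_mul_sq (b := 1) one_pos (s := (k : ℝ))
    (by have : (0 : ℝ) ≤ k := Nat.cast_nonneg k
        linarith)
  refine h.congr (Filter.Eventually.of_forall fun x => ?_)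
  simp only [Real.rpow_natCast, neg_mul, one_mul]

/-- The Gaussian kernel `exp (-y^2 - 2 i p y)`. -/
def E (p y : ℝ) : ℂ := cexp (-((y : ℂ) ^ 2) - 2 * I * p * y)

lemma norm_E (p y : ℝ) : ‖E p y‖ = Real.exp (-(y ^ 2)) := by
  unfold E
  rw [Complex.norm_exp]
  congr 1
  simp [pow_two]

lemma continuous_E (p : ℝ) : Continuous (E p) := by
  unfold E
  fun_prop

lemma integrable_pow_E (k : ℕ) (p : ℝ) : Integrable (fun y : ℝ => (y : ℂ) ^ k * E p y) := by
  have h := (integrable_pow_exp k).norm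
  refine h.mono' ?_ (Filter.Eventually.of_forall fun y => ?_)
  · apply Continuous.aestronglyMeasurable
    exact (continuous_ofReal.pow k).mul (continuous_E p)
  · rw [norm_mul, norm_E, norm_pow, Complex.norm_real, norm_mul, norm_pow, Real.norm_eq_abs,
      Real.norm_eq_abs (Real.exp _), abs_of_pos (Real.exp_pos _)]

/-- `J k p = ∫ y^k exp (-y^2 - 2 i p y) dy`. -/
def J (k : ℕ) (p : ℝ) : ℂ := ∫ y : ℝ, (y : ℂ) ^ k * E p y

lemma integral_lin2 {f₀ f₁ : ℝ → ℂ} (h₀ : Integrable f₀) (h₁ : Integrable f₁) (a b : ℂ) :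
    ∫ y, (a * f₀ y + b * f₁ y) = a * (∫ y, f₀ y) + b * (∫ y, f₁ y) := by
  rw [← integral_const_mul, ← integral_const_mul]
  exact integral_add (h₀.const_mul a) (h₁.const_mul b)

lemma integrable_lin2 {f₀ f₁ : ℝ → ℂ} (h₀ : Integrable f₀) (h₁ : Integrable f₁) (a b : ℂ) :
    Integrable (fun y => a * f₀ y + b * f₁ y) :=
  (h₀.const_mul a).add (h₁.const_mul b)

lemma integral_lin3 {f₀ f₁ f₂ : ℝ → ℂ} (h₀ : Integrable f₀) (h₁ : Integrable f₁)
    (h₂ : Integrable f₂) (a b c : ℂ) :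
    ∫ y, (a * f₀ y + b * f₁ y + c * f₂ y) =
      a * (∫ y, f₀ y) + b * (∫ y, f₁ y) + c * (∫ y, f₂ y) := by
  rw [← integral_lin2 h₀ h₁, ← integral_const_mul]
  exact integral_add (integrable_lin2 h₀ h₁ a b) (h₂.const_mul c)

lemma integrable_lin3 {f₀ f₁ f₂ : ℝ → ℂ} (h₀ : Integrable f₀) (h₁ : Integrable f₁)
    (h₂ : Integrable f₂) (a b c : ℂ) :
    Integrable (fun y => a * f₀ y + b * f₁ y + c * f₂ y) :=
  (integrable_lin2 h₀ h₁ a b).add (h₂.const_mul c)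

lemma hasDerivAt_E (p y : ℝ) : HasDerivAt (E p) ((-2 * (y : ℂ) - 2 * I * p) * E p y) y := by
  have h1 : HasDerivAt (fun y : ℝ => (y : ℂ)) 1 y := Complex.ofRealCLM.hasDerivAt
  have h2 : HasDerivAt (fun y : ℝ => -((y : ℂ) ^ 2) - 2 * I * p * y)
      (-(2 * (y : ℂ)) - 2 * I * p) y := by
    have h3 : HasDerivAt (fun y : ℝ => (y : ℂ) ^ 2) (2 * (y : ℂ)) y := by
      simpa using h1.fun_pow 2
    have h4 : HasDerivAt (fun y : ℝ => 2 * I * p * (y : ℂ)) (2 * I * p) y := by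
      simpa using h1.const_mul (2 * I * p)
    exact h3.neg.sub h4
  exact h2.cexp.congr_deriv (by unfold E; ring)

lemma J_rec_one (p : ℝ) : J 1 p = -(I * p) * J 0 p := by
  have hd : ∀ y : ℝ, HasDerivAt (E p)
      ((-2) * ((y : ℂ) ^ 1 * E p y) + (-2 * I * p) * ((y : ℂ) ^ 0 * E p y)) y := by
    intro y
    exact (hasDerivAt_E p y).congr_deriv (by ring)
  have h := integral_eq_zero_of_hasDerivAt_of_integrable hd
    (integrable_lin2 (integrable_pow_E 1 p) (integrable_pow_E 0 p) _ _)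
    (by
      refine (integrable_pow_E 0 p).congr (Filter.Eventually.of_forall fun y => ?_)
      simp)
  rw [integral_lin2 (integrable_pow_E 1 p) (integrable_pow_E 0 p)] at h
  change (-2) * J 1 p + (-2 * I * p) * J 0 p = 0 at h
  linear_combination (-1 / 2) * h

lemma J_rec (k : ℕ) (p : ℝ) :
    J (k + 2) p = ((k : ℂ) + 1) / 2 * J k p - I * p * J (k + 1) p := by
  have hd : ∀ y : ℝ, HasDerivAt (fun y : ℝ => (y : ℂ) ^ (k + 1) * E p y)
      (((k : ℂ) + 1) * ((y : ℂ) ^ k * E p y) + (-2) * ((y : ℂ) ^ (k + 2) * E p y)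
        + (-2 * I * p) * ((y : ℂ) ^ (k + 1) * E p y)) y := by
    intro y
    have h1 : HasDerivAt (fun y : ℝ => (y : ℂ)) 1 y := Complex.ofRealCLM.hasDerivAt
    have h3 : HasDerivAt (fun y : ℝ => (y : ℂ) ^ (k + 1)) (((k : ℂ) + 1) * (y : ℂ) ^ k) y := by
      simpa using h1.fun_pow (k + 1)
    exact (h3.mul (hasDerivAt_E p y)).congr_deriv (by ring)
  have i0 := integrable_pow_E k p
  have i1 := integrable_pow_E (k + 2) p
  have i2 := integrable_pow_E (k + 1) p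
  have h := integral_eq_zero_of_hasDerivAt_of_integrable hd (integrable_lin3 i0 i1 i2 _ _ _)
    (integrable_pow_E (k + 1) p)
  rw [integral_lin3 i0 i1 i2] at h
  change ((k : ℂ) + 1) * J k p + (-2) * J (k + 2) p + (-2 * I * p) * J (k + 1) p = 0 at h
  linear_combination (-1 / 2) * h

lemma J_zero (p : ℝ) : J 0 p = ((Real.sqrt Real.pi * Real.exp (-(p ^ 2)) : ℝ) : ℂ) := by
  unfold J E
  have h := integral_cexp_quadratic (b := -1) (by simp) (-(2 * I * p)) 0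
  have h1 : ∫ y : ℝ, (y : ℂ) ^ 0 * cexp (-((y : ℂ) ^ 2) - 2 * I * p * y) =
      ∫ x : ℝ, cexp (-1 * (x : ℂ) ^ 2 + -(2 * I * p) * x + 0) := by
    apply integral_congr_ae
    refine Filter.Eventually.of_forall fun y => ?_
    simp only
    rw [pow_zero, one_mul]
    congr 1
    ring
  rw [h1, h]
  have h2 : (Real.pi / -(-1 : ℂ)) ^ (1 / 2 : ℂ) = ((Real.sqrt Real.pi : ℝ) : ℂ) := by
    rw [neg_neg, div_one, Real.sqrt_eq_rpow, Complex.ofReal_cpow Real.pi_pos.le]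
    norm_num
  rw [h2]
  push_cast
  congr 2
  have : I ^ 2 = -1 := I_sq
  linear_combination (p : ℂ) ^ 2 * this

/-! ### States, traces, Wigner functions -/

/-- The displaced parity operator applied to `u`: `y ↦ e^(2ip(y-x)) u(2x-y)`. -/
lemma memLp_par (u : H) (x p : ℝ) :
    MemLp (fun y : ℝ => cexp (2 * I * p * (y - x)) * u (2 * x - y)) 2 volume := by
  have h1 : MemLp (fun y : ℝ => u (2 * x - y)) 2 volume :=
    (Lp.memLp u).comp_measurePreserving (Measure.measurePreserving_sub_left volume (2 * x))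
  refine h1.congr_norm ?_ (Filter.Eventually.of_forall fun y => ?_)
  · apply AEStronglyMeasurable.mul _ h1.1
    apply Continuous.aestronglyMeasurable
    fun_prop
  · rw [norm_mul, Complex.norm_exp]
    simp

def par (u : H) (x p : ℝ) : H := (memLp_par u x p).toLp _

lemma coeFn_par (u : H) (x p : ℝ) :
    par u x p =ᵐ[volume] fun y : ℝ => cexp (2 * I * p * (y - x)) * u (2 * x - y) :=
  (memLp_par u x p).coeFn_toLp

lemma wig_eq (u v : H) (x p : ℝ) : wig u v x p = (1 / (Real.pi : ℂ)) * inner ℂ v (par u x p) := by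
  unfold wig
  congr 1
  rw [L2.inner_def]
  have h1 : ∫ a : ℝ, inner ℂ (v a) (par u x p a) =
      ∫ a : ℝ, u (2 * x - a) * conj (v a) * cexp (-(2 * I * p * (x - a))) := by
    apply integral_congr_ae
    filter_upwards [coeFn_par u x p] with a ha
    rw [ha, RCLike.inner_apply, show -(2 * I * (p : ℂ) * (x - a)) = 2 * I * p * (a - x) by ring]
    ring
  rw [h1]
  have h2 := integral_sub_left_eq_self
    (fun a : ℝ => u (2 * x - a) * conj (v a) * cexp (-(2 * I * p * (x - a)))) volume x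
  rw [← h2]
  apply integral_congr_ae
  refine Filter.Eventually.of_forall fun y => ?_
  simp only
  rw [show 2 * x - (x - y) = x + y by ring]
  push_cast
  rw [show (x : ℂ) - (x - y) = y by ring]

lemma par_add (u₁ u₂ : H) (x p : ℝ) : par (u₁ + u₂) x p = par u₁ x p + par u₂ x p := by
  unfold par
  rw [← MemLp.toLp_add, MemLp.toLp_eq_toLp_iff]
  have h := (Measure.measurePreserving_sub_left (volume : Measure ℝ) (2 * x)).quasiMeasurePreserving.ae_eq_comp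
    (Lp.coeFn_add u₁ u₂)
  filter_upwards [h] with y hy
  simp only [Function.comp_apply, Pi.add_apply] at hy ⊢
  rw [hy]; ring

lemma par_smul (c : ℂ) (u : H) (x p : ℝ) : par (c • u) x p = c • par u x p := by
  unfold par
  rw [← MemLp.toLp_const_smul, MemLp.toLp_eq_toLp_iff]
  have h := (Measure.measurePreserving_sub_left (volume : Measure ℝ) (2 * x)).quasiMeasurePreserving.ae_eq_comp
    (Lp.coeFn_smul c u)
  filter_upwards [h] with y hy
  simp only [Function.comp_apply, Pi.smul_apply, smul_eq_mul] at hy ⊢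
  rw [hy]; ring

lemma wig_add_left (u₁ u₂ v : H) (x p : ℝ) :
    wig (u₁ + u₂) v x p = wig u₁ v x p + wig u₂ v x p := by
  rw [wig_eq, wig_eq, wig_eq, par_add, inner_add_right]; ring

lemma wig_smul_left (c : ℂ) (u v : H) (x p : ℝ) :
    wig (c • u) v x p = c * wig u v x p := by
  rw [wig_eq, wig_eq, par_smul, inner_smul_right]; ring

lemma HasTrace.add {T₁ T₂ : H →L[ℂ] H} {t₁ t₂ : ℂ} (h₁ : HasTrace T₁ t₁) (h₂ : HasTrace T₂ t₂) :
    HasTrace (T₁ + T₂) (t₁ + t₂) := by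
  intro ι b
  refine ((h₁ ι b).add (h₂ ι b)).congr_fun fun i => ?_
  rw [add_apply, inner_add_right]

lemma HasTrace.smul {T : H →L[ℂ] H} {t : ℂ} (h : HasTrace T t) (c : ℂ) :
    HasTrace (c • T) (c * t) := by
  intro ι b
  refine ((h ι b).mul_left c).congr_fun fun i => ?_
  rw [smul_apply, inner_smul_right]

lemma hasTrace_rankOne (u v : H) : HasTrace (rankOne ℂ u v) (inner ℂ v u) := by
  intro ι b
  refine (b.hasSum_inner_mul_inner v u).congr_fun fun i => ?_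
  rw [rankOne_apply, inner_smul_right]

lemma HasWigner.add {T₁ T₂ : H →L[ℂ] H} {x p : ℝ} {w₁ w₂ : ℂ} (h₁ : HasWigner T₁ x p w₁)
    (h₂ : HasWigner T₂ x p w₂) : HasWigner (T₁ + T₂) x p (w₁ + w₂) := by
  intro ι b
  refine ((h₁ ι b).add (h₂ ι b)).congr_fun fun i => ?_
  rw [add_apply, wig_add_left]

lemma HasWigner.smul {T : H →L[ℂ] H} {x p : ℝ} {w : ℂ} (h : HasWigner T x p w) (c : ℂ) :
    HasWigner (c • T) x p (c * w) := by
  intro ι b
  refine ((h ι b).mul_left c).congr_fun fun i => ?_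
  rw [smul_apply, wig_smul_left]

/-- The Wigner function of the rank one operator `|u⟩⟨v|` is `wig u v`. -/
lemma hasWigner_rankOne (u v : H) (x p : ℝ) : HasWigner (rankOne ℂ u v) x p (wig u v x p) := by
  intro ι b
  rw [wig_eq]
  refine ((b.hasSum_inner_mul_inner v (par u x p)).mul_left (1 / (Real.pi : ℂ))).congr_fun
    fun i => ?_
  rw [rankOne_apply, wig_smul_left, wig_eq]
  ring

/-! ### The vectors `g_j = x^j e^(-x²/2)` -/

def gfun (j : ℕ) (x : ℝ) : ℂ := (x : ℂ) ^ j * cexp (-((x : ℂ) ^ 2 / 2))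

lemma continuous_gfun (j : ℕ) : Continuous (gfun j) := by
  unfold gfun; fun_prop

lemma norm_gfun_sq (j : ℕ) (x : ℝ) : ‖gfun j x‖ ^ 2 = x ^ (2 * j) * Real.exp (-(x ^ 2)) := by
  unfold gfun
  rw [norm_mul, norm_pow, Complex.norm_real, Complex.norm_exp, mul_pow, ← pow_mul, mul_comm j 2,
    Real.norm_eq_abs, pow_mul, sq_abs, ← pow_mul, ← Real.exp_nat_mul]
  congr 2
  have : (-((x : ℂ) ^ 2 / 2)).re = -(x ^ 2 / 2) := by
    rw [show (-((x : ℂ) ^ 2 / 2)) = ((-(x ^ 2 / 2) : ℝ) : ℂ) by push_cast; ring, ofReal_re]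
  rw [this]; push_cast; ring

lemma memLp_gfun (j : ℕ) : MemLp (gfun j) 2 volume := by
  rw [memLp_two_iff_integrable_sq_norm (continuous_gfun j).aestronglyMeasurable]
  refine (integrable_pow_exp (2 * j)).congr (Filter.Eventually.of_forall fun x => ?_)
  simp only
  rw [norm_gfun_sq]

def g (j : ℕ) : H := (memLp_gfun j).toLp _

lemma coeFn_g (j : ℕ) : g j =ᵐ[volume] gfun j := (memLp_gfun j).coeFn_toLp

lemma conj_gfun (j : ℕ) (x : ℝ) : conj (gfun j x) = gfun j x := by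
  unfold gfun
  rw [map_mul, map_pow, conj_ofReal, ← exp_conj]
  congr 2
  rw [map_neg, map_div₀, map_pow, conj_ofReal]
  congr 2
  exact Complex.conj_ofNat 2

lemma E_zero_eq (x : ℝ) : E 0 x = cexp (-((x : ℂ) ^ 2 / 2)) * cexp (-((x : ℂ) ^ 2 / 2)) := by
  unfold E
  rw [← Complex.exp_add]
  congr 1
  push_cast
  ring

lemma inner_g (i j : ℕ) : inner ℂ (g i) (g j) = J (i + j) 0 := by
  rw [L2.inner_def]
  unfold J
  apply integral_congr_ae
  filter_upwards [coeFn_g i, coeFn_g j] with x hi hj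
  rw [hi, hj, RCLike.inner_apply, conj_gfun, E_zero_eq]
  unfold gfun
  ring

lemma J0 : J 0 0 = ((Real.sqrt Real.pi : ℝ) : ℂ) := by
  rw [J_zero]; simp

lemma J1 : J 1 0 = 0 := by
  rw [J_rec_one]; simp

lemma J2 : J 2 0 = 1 / 2 * ((Real.sqrt Real.pi : ℝ) : ℂ) := by
  rw [J_rec 0, J0]; simp

lemma J3 : J 3 0 = 0 := by
  rw [J_rec 1, J1]; simp

lemma J4 : J 4 0 = 3 / 4 * ((Real.sqrt Real.pi : ℝ) : ℂ) := by
  rw [J_rec 2, J2]; push_cast; ring

/-! ### Wigner functions of `|g_i⟩⟨g_j|` -/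

lemma qmp_add (x : ℝ) : Measure.QuasiMeasurePreserving (fun y : ℝ => x + y) volume volume :=
  (measurePreserving_add_left (volume : Measure ℝ) x).quasiMeasurePreserving

lemma qmp_sub (x : ℝ) : Measure.QuasiMeasurePreserving (fun y : ℝ => x - y) volume volume :=
  (Measure.measurePreserving_sub_left (volume : Measure ℝ) x).quasiMeasurePreserving

lemma wig_g (i j : ℕ) (x p : ℝ) : wig (g i) (g j) x p = (1 / (Real.pi : ℂ)) *
    (cexp (-(x : ℂ) ^ 2) * ∫ y : ℝ, ((x : ℂ) + y) ^ i * ((x : ℂ) - y) ^ j * E p y) := by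
  unfold wig
  congr 1
  rw [← integral_const_mul]
  apply integral_congr_ae
  filter_upwards [(qmp_add x).ae_eq_comp (coeFn_g i), (qmp_sub x).ae_eq_comp (coeFn_g j)]
    with y hy1 hy2
  simp only [Function.comp_apply] at hy1 hy2
  rw [hy1, hy2, conj_gfun]
  unfold gfun E
  push_cast
  have h : cexp (-(((x : ℂ) + y) ^ 2 / 2)) * cexp (-(((x : ℂ) - y) ^ 2 / 2)) *
      cexp (-(2 * I * p * y)) = cexp (-(x : ℂ) ^ 2) * cexp (-((y : ℂ) ^ 2) - 2 * I * p * y) := by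
    rw [← Complex.exp_add, ← Complex.exp_add, ← Complex.exp_add]
    congr 1
    ring
  linear_combination (((x : ℂ) + y) ^ i * ((x : ℂ) - y) ^ j) * h

/-- The polynomial moments of `E p`. -/
lemma J_one_val (p : ℝ) : J 1 p = -(I * p) * J 0 p := J_rec_one p

lemma J_two_val (p : ℝ) : J 2 p = (1 / 2 - (p : ℂ) ^ 2) * J 0 p := by
  rw [J_rec 0, J_rec_one]
  have : I ^ 2 = -1 := I_sq
  push_cast
  linear_combination ((p : ℂ) ^ 2 * J 0 p) * this

lemma J_three_val (p : ℝ) : J 3 p = -(I * p) * (3 / 2 - (p : ℂ) ^ 2) * J 0 p := by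
  rw [J_rec 1, J_rec_one, J_two_val]
  push_cast
  ring

lemma J_four_val (p : ℝ) : J 4 p = (3 / 4 - 3 * (p : ℂ) ^ 2 + (p : ℂ) ^ 4) * J 0 p := by
  rw [J_rec 2, J_two_val, J_three_val]
  have : I ^ 2 = -1 := I_sq
  push_cast
  linear_combination ((p : ℂ) ^ 2 * (3 / 2 - (p : ℂ) ^ 2) * J 0 p) * this

lemma int_poly4 (p : ℝ) (c₀ c₁ c₂ c₃ c₄ : ℂ) :
    ∫ y : ℝ, (c₀ * ((y : ℂ) ^ 0 * E p y) + c₁ * ((y : ℂ) ^ 1 * E p y) +
      c₂ * ((y : ℂ) ^ 2 * E p y) + c₃ * ((y : ℂ) ^ 3 * E p y) + c₄ * ((y : ℂ) ^ 4 * E p y)) =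
    c₀ * J 0 p + c₁ * J 1 p + c₂ * J 2 p + c₃ * J 3 p + c₄ * J 4 p := by
  have i0 := integrable_pow_E 0 p
  have i1 := integrable_pow_E 1 p
  have i2 := integrable_pow_E 2 p
  have i3 := integrable_pow_E 3 p
  have i4 := integrable_pow_E 4 p
  have e3 := integrable_lin3 i0 i1 i2 c₀ c₁ c₂
  have h1 : ∫ y : ℝ, (c₀ * ((y : ℂ) ^ 0 * E p y) + c₁ * ((y : ℂ) ^ 1 * E p y) +
      c₂ * ((y : ℂ) ^ 2 * E p y)) + c₃ * ((y : ℂ) ^ 3 * E p y) =
      (∫ y : ℝ, (c₀ * ((y : ℂ) ^ 0 * E p y) + c₁ * ((y : ℂ) ^ 1 * E p y) +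
      c₂ * ((y : ℂ) ^ 2 * E p y))) + ∫ y : ℝ, c₃ * ((y : ℂ) ^ 3 * E p y) :=
    integral_add e3 (i3.const_mul c₃)
  have h2 := integral_add (e3.add (i3.const_mul c₃)) (i4.const_mul c₄)
  simp only [Pi.add_apply] at h2
  rw [h2, h1, integral_lin3 i0 i1 i2, integral_const_mul, integral_const_mul]
  rfl

lemma wig_22 (x p : ℝ) : wig (g 2) (g 2) x p = (1 / (Real.pi : ℂ)) * cexp (-(x : ℂ) ^ 2) *
    ((x : ℂ) ^ 4 * J 0 p - 2 * (x : ℂ) ^ 2 * J 2 p + J 4 p) := by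
  rw [wig_g]
  have h : ∫ y : ℝ, ((x : ℂ) + y) ^ 2 * ((x : ℂ) - y) ^ 2 * E p y =
      ∫ y : ℝ, ((x : ℂ) ^ 4 * ((y : ℂ) ^ 0 * E p y) + 0 * ((y : ℂ) ^ 1 * E p y) +
      (-2 * (x : ℂ) ^ 2) * ((y : ℂ) ^ 2 * E p y) + 0 * ((y : ℂ) ^ 3 * E p y) +
      1 * ((y : ℂ) ^ 4 * E p y)) := by
    apply integral_congr_ae
    refine Filter.Eventually.of_forall fun y => ?_
    simp only
    ring
  rw [h, int_poly4]; ring

lemma wig_20 (x p : ℝ) : wig (g 2) (g 0) x p = (1 / (Real.pi : ℂ)) * cexp (-(x : ℂ) ^ 2) *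
    ((x : ℂ) ^ 2 * J 0 p + 2 * x * J 1 p + J 2 p) := by
  rw [wig_g]
  have h : ∫ y : ℝ, ((x : ℂ) + y) ^ 2 * ((x : ℂ) - y) ^ 0 * E p y =
      ∫ y : ℝ, ((x : ℂ) ^ 2 * ((y : ℂ) ^ 0 * E p y) + (2 * x) * ((y : ℂ) ^ 1 * E p y) +
      1 * ((y : ℂ) ^ 2 * E p y) + 0 * ((y : ℂ) ^ 3 * E p y) +
      0 * ((y : ℂ) ^ 4 * E p y)) := by
    apply integral_congr_ae
    refine Filter.Eventually.of_forall fun y => ?_
    simp only
    ring
  rw [h, int_poly4]; ring

lemma wig_02 (x p : ℝ) : wig (g 0) (g 2) x p = (1 / (Real.pi : ℂ)) * cexp (-(x : ℂ) ^ 2) *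
    ((x : ℂ) ^ 2 * J 0 p - 2 * x * J 1 p + J 2 p) := by
  rw [wig_g]
  have h : ∫ y : ℝ, ((x : ℂ) + y) ^ 0 * ((x : ℂ) - y) ^ 2 * E p y =
      ∫ y : ℝ, ((x : ℂ) ^ 2 * ((y : ℂ) ^ 0 * E p y) + (-2 * x) * ((y : ℂ) ^ 1 * E p y) +
      1 * ((y : ℂ) ^ 2 * E p y) + 0 * ((y : ℂ) ^ 3 * E p y) +
      0 * ((y : ℂ) ^ 4 * E p y)) := by
    apply integral_congr_ae
    refine Filter.Eventually.of_forall fun y => ?_
    simp only
    ring
  rw [h, int_poly4]; ring

lemma wig_11 (x p : ℝ) : wig (g 1) (g 1) x p = (1 / (Real.pi : ℂ)) * cexp (-(x : ℂ) ^ 2) *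
    ((x : ℂ) ^ 2 * J 0 p - J 2 p) := by
  rw [wig_g]
  have h : ∫ y : ℝ, ((x : ℂ) + y) ^ 1 * ((x : ℂ) - y) ^ 1 * E p y =
      ∫ y : ℝ, ((x : ℂ) ^ 2 * ((y : ℂ) ^ 0 * E p y) + 0 * ((y : ℂ) ^ 1 * E p y) +
      (-1) * ((y : ℂ) ^ 2 * E p y) + 0 * ((y : ℂ) ^ 3 * E p y) +
      0 * ((y : ℂ) ^ 4 * E p y)) := by
    apply integral_congr_ae
    refine Filter.Eventually.of_forall fun y => ?_
    simp only
    ring
  rw [h, int_poly4]; ring

lemma wig_00 (x p : ℝ) : wig (g 0) (g 0) x p = (1 / (Real.pi : ℂ)) * cexp (-(x : ℂ) ^ 2) *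
    J 0 p := by
  rw [wig_g]
  have h : ∫ y : ℝ, ((x : ℂ) + y) ^ 0 * ((x : ℂ) - y) ^ 0 * E p y =
      ∫ y : ℝ, (1 * ((y : ℂ) ^ 0 * E p y) + 0 * ((y : ℂ) ^ 1 * E p y) +
      0 * ((y : ℂ) ^ 2 * E p y) + 0 * ((y : ℂ) ^ 3 * E p y) +
      0 * ((y : ℂ) ^ 4 * E p y)) := by
    apply integral_congr_ae
    refine Filter.Eventually.of_forall fun y => ?_
    simp only
    ring
  rw [h, int_poly4]; ring

/-! ### The operators `T a b c e` -/

/-- `a |g₂⟩⟨g₂| + b (|g₂⟩⟨g₀| + |g₀⟩⟨g₂|) + c |g₀⟩⟨g₀| + e |g₁⟩⟨g₁|`. -/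
def T (a b c e : ℝ) : H →L[ℂ] H :=
  (a : ℂ) • rankOne ℂ (g 2) (g 2) + (b : ℂ) • (rankOne ℂ (g 2) (g 0) + rankOne ℂ (g 0) (g 2)) +
    (c : ℂ) • rankOne ℂ (g 0) (g 0) + (e : ℂ) • rankOne ℂ (g 1) (g 1)

lemma T_trace (a b c e : ℝ) : HasTrace (T a b c e)
    (((3 / 4 * a + b + c + 1 / 2 * e) * Real.sqrt Real.pi : ℝ) : ℂ) := by
  have h := ((((hasTrace_rankOne (g 2) (g 2)).smul a).add
    (((hasTrace_rankOne (g 2) (g 0)).add (hasTrace_rankOne (g 0) (g 2))).smul b)).add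
    ((hasTrace_rankOne (g 0) (g 0)).smul c)).add ((hasTrace_rankOne (g 1) (g 1)).smul e)
  have e22 : inner ℂ (g 2) (g 2) = J 4 0 := inner_g 2 2
  have e20 : inner ℂ (g 2) (g 0) = J 2 0 := inner_g 2 0
  have e02 : inner ℂ (g 0) (g 2) = J 2 0 := inner_g 0 2
  have e11 : inner ℂ (g 1) (g 1) = J 2 0 := inner_g 1 1
  have e00 : inner ℂ (g 0) (g 0) = J 0 0 := inner_g 0 0
  rw [e22, e20, e02, e11, e00, J0, J2, J4] at h
  unfold T
  convert h using 1
  push_cast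
  ring

/-- The Wigner function of `T a b c e`. -/
def WT (a b c e x p : ℝ) : ℝ :=
  (Real.sqrt Real.pi)⁻¹ * (Real.exp (-(x ^ 2)) * Real.exp (-(p ^ 2))) *
    (a * (x ^ 4 - x ^ 2 + 2 * x ^ 2 * p ^ 2 + 3 / 4 - 3 * p ^ 2 + p ^ 4) +
      2 * b * (x ^ 2 + 1 / 2 - p ^ 2) + c + e * (x ^ 2 - 1 / 2 + p ^ 2))

lemma T_wigner (a b c e x p : ℝ) : HasWigner (T a b c e) x p ((WT a b c e x p : ℝ) : ℂ) := by
  have h := ((((hasWigner_rankOne (g 2) (g 2) x p).smul a).add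
    (((hasWigner_rankOne (g 2) (g 0) x p).add (hasWigner_rankOne (g 0) (g 2) x p)).smul b)).add
    ((hasWigner_rankOne (g 0) (g 0) x p).smul c)).add ((hasWigner_rankOne (g 1) (g 1) x p).smul e)
  rw [wig_22, wig_20, wig_02, wig_00, wig_11, J_two_val, J_four_val] at h
  unfold T
  convert h using 1
  unfold WT
  rw [J_zero]
  push_cast
  have hpi : (Real.pi : ℂ) = ((Real.sqrt Real.pi : ℝ) : ℂ) * ((Real.sqrt Real.pi : ℝ) : ℂ) := by
    rw [← ofReal_mul, Real.mul_self_sqrt Real.pi_pos.le]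
  have hs : ((Real.sqrt Real.pi : ℝ) : ℂ) ≠ 0 := by
    rw [Ne, ofReal_eq_zero]
    exact (Real.sqrt_pos.2 Real.pi_pos).ne'
  rw [hpi]
  field_simp
  ring

lemma T_pos {a b c e : ℝ} (ha : 0 < a) (hc : 0 ≤ c - b ^ 2 / a) (he : 0 ≤ e) :
    (T a b c e).IsPositive := by
  have h1 : T a b c e = (a : ℂ) • rankOne ℂ (g 2 + ((b / a : ℝ) : ℂ) • g 0)
      (g 2 + ((b / a : ℝ) : ℂ) • g 0) + ((c - b ^ 2 / a : ℝ) : ℂ) • rankOne ℂ (g 0) (g 0) +
      (e : ℂ) • rankOne ℂ (g 1) (g 1) := by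
    unfold T
    ext1 z
    simp only [add_apply, smul_apply, rankOne_apply, inner_add_left, inner_smul_left, conj_ofReal,
      smul_add, add_smul, smul_smul]
    have haC : (a : ℂ) ≠ 0 := by exact_mod_cast ha.ne'
    push_cast
    match_scalars <;> field_simp
    ring
  rw [h1]
  have hp : ∀ r : ℝ, 0 ≤ r → (0 : ℂ) ≤ (r : ℂ) := fun r hr => by exact_mod_cast hr
  exact (((isPositive_rankOne_self _).smul_of_nonneg (hp a ha.le)).add
    ((isPositive_rankOne_self _).smul_of_nonneg (hp _ hc))).add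
    ((isPositive_rankOne_self _).smul_of_nonneg (hp e he))

/-! ### Fock states -/

lemma integrable_poly_exp (P : Polynomial ℝ) :
    Integrable (fun x : ℝ => P.eval x * Real.exp (-(x ^ 2))) := by
  induction P using Polynomial.induction_on' with
  | add p q hp hq =>
    refine (hp.add hq).congr (Filter.Eventually.of_forall fun x => ?_)
    simp only [Pi.add_apply, Polynomial.eval_add]
    ring
  | monomial n a =>
    refine ((integrable_pow_exp n).const_mul a).congr (Filter.Eventually.of_forall fun x => ?_)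
    simp only [Polynomial.eval_monomial]
    ring

/-- `x ↦ He_n(√2 x)`. -/
def he (n : ℕ) (x : ℝ) : ℝ := Polynomial.aeval (Real.sqrt 2 * x) (Polynomial.hermite n)

lemma he_eq_eval (n : ℕ) (x : ℝ) : he n x =
    (((Polynomial.hermite n).map (Int.castRingHom ℝ)).comp
      (Polynomial.C (Real.sqrt 2) * Polynomial.X)).eval x := by
  unfold he
  rw [Polynomial.eval_comp, Polynomial.aeval_def, Polynomial.eval_mul, Polynomial.eval_C,
    Polynomial.eval_X, Polynomial.eval_map]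
  rfl

lemma integrable_he (n k : ℕ) :
    Integrable (fun x : ℝ => he n x * x ^ k * Real.exp (-(x ^ 2))) := by
  refine (integrable_poly_exp ((((Polynomial.hermite n).map (Int.castRingHom ℝ)).comp
      (Polynomial.C (Real.sqrt 2) * Polynomial.X)) * Polynomial.X ^ k)).congr
      (Filter.Eventually.of_forall fun x => ?_)
  simp only [Polynomial.eval_mul, Polynomial.eval_pow, Polynomial.eval_X]
  rw [he_eq_eval]

lemma hasDerivAt_he (n : ℕ) (x : ℝ) :
    HasDerivAt (he n) (2 * x * he n x - Real.sqrt 2 * he (n + 1) x) x := by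
  have h1 : HasDerivAt (fun x : ℝ => Real.sqrt 2 * x) (Real.sqrt 2) x := by
    simpa using (hasDerivAt_id x).const_mul (Real.sqrt 2)
  have h2 := (Polynomial.hermite n).hasDerivAt_aeval (Real.sqrt 2 * x)
  have h3 := h2.comp x h1
  have h4 : Real.sqrt 2 * Real.sqrt 2 = 2 := Real.mul_self_sqrt (by norm_num)
  refine h3.congr_deriv ?_
  unfold he
  rw [Polynomial.hermite_succ, map_sub, map_mul, Polynomial.aeval_X]
  linear_combination (x * (Polynomial.aeval (Real.sqrt 2 * x)) (Polynomial.hermite n)) * h4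

/-- `K n k = ∫ He_n(√2 x) x^k e^(-x²) dx`. -/
def K (n k : ℕ) : ℝ := ∫ x : ℝ, he n x * x ^ k * Real.exp (-(x ^ 2))

lemma hasDerivAt_gauss (x : ℝ) :
    HasDerivAt (fun x : ℝ => Real.exp (-(x ^ 2))) (-(2 * x) * Real.exp (-(x ^ 2))) x := by
  have h1 : HasDerivAt (fun x : ℝ => -(x ^ 2)) (-(2 * x)) x := by
    simpa using (hasDerivAt_pow 2 x).fun_neg
  exact h1.exp.congr_deriv (by ring)

lemma K_zero (n : ℕ) : K (n + 1) 0 = 0 := by
  have hd : ∀ x : ℝ, HasDerivAt (fun x : ℝ => he n x * Real.exp (-(x ^ 2)))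
      (-Real.sqrt 2 * (he (n + 1) x * x ^ 0 * Real.exp (-(x ^ 2)))) x := by
    intro x
    exact ((hasDerivAt_he n x).mul (hasDerivAt_gauss x)).congr_deriv (by ring)
  have h := integral_eq_zero_of_hasDerivAt_of_integrable hd
    ((integrable_he (n + 1) 0).const_mul _)
    ((integrable_he n 0).congr (Filter.Eventually.of_forall fun x => by simp))
  rw [integral_const_mul] at h
  have h4 : (-Real.sqrt 2) ≠ 0 := by
    rw [Ne, neg_eq_zero]
    exact (Real.sqrt_pos.2 (by norm_num)).ne'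
  exact (mul_eq_zero.1 h).resolve_left h4

lemma K_rec (n k : ℕ) : Real.sqrt 2 * K (n + 1) (k + 1) = ((k : ℝ) + 1) * K n k := by
  have hd : ∀ x : ℝ, HasDerivAt (fun x : ℝ => he n x * x ^ (k + 1) * Real.exp (-(x ^ 2)))
      (((k : ℝ) + 1) * (he n x * x ^ k * Real.exp (-(x ^ 2))) +
        (-Real.sqrt 2) * (he (n + 1) x * x ^ (k + 1) * Real.exp (-(x ^ 2)))) x := by
    intro x
    have h1 : HasDerivAt (fun x : ℝ => x ^ (k + 1)) (((k : ℝ) + 1) * x ^ k) x := by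
      simpa using hasDerivAt_pow (k + 1) x
    exact (((hasDerivAt_he n x).mul h1).mul (hasDerivAt_gauss x)).congr_deriv (by
      simp only [Pi.mul_apply]; ring)
  have i1 := (integrable_he n k).const_mul ((k : ℝ) + 1)
  have i2 := (integrable_he (n + 1) (k + 1)).const_mul (-Real.sqrt 2)
  have h := integral_eq_zero_of_hasDerivAt_of_integrable hd (i1.add i2) (integrable_he n (k + 1))
  have h2 := integral_add i1 i2
  simp only [integral_const_mul] at h2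
  rw [h2] at h
  unfold K
  linarith

lemma K_two (n : ℕ) : K (n + 3) 2 = 0 := by
  have h4 : Real.sqrt 2 ≠ 0 := (Real.sqrt_pos.2 (by norm_num)).ne'
  have h1 := K_rec (n + 2) 1
  have h2 := K_rec (n + 1) 0
  rw [K_zero n, mul_zero] at h2
  have h3 : K (n + 2) 1 = 0 := (mul_eq_zero.1 h2).resolve_left h4
  rw [h3, mul_zero] at h1
  exact (mul_eq_zero.1 h1).resolve_left h4

lemma integral_fock_g (n j : ℕ) (N : ℂ) : ∫ x : ℝ, (fock n x : ℂ) * (N • g j) x =
    N * (((Real.sqrt (n.factorial * Real.sqrt Real.pi))⁻¹ * K n j : ℝ) : ℂ) := by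
  unfold K
  rw [← integral_const_mul, ← integral_complex_ofReal, ← integral_const_mul]
  apply integral_congr_ae
  filter_upwards [coeFn_g j, Lp.coeFn_smul N (g j)] with x h1 h2
  rw [h2, Pi.smul_apply, h1, smul_eq_mul]
  unfold fock gfun he
  push_cast
  have h : cexp (-((x : ℂ) ^ 2)) = cexp (-((x : ℂ) ^ 2 / 2)) * cexp (-((x : ℂ) ^ 2 / 2)) := by
    rw [← Complex.exp_add]; congr 1; ring
  rw [h]
  ring

lemma fockBounded_g2 (N : ℂ) : FockBounded (N • g 2) := by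
  unfold FockBounded
  apply (Set.finite_lt_nat 3).subset
  intro n hn
  by_contra hc
  apply hn
  obtain ⟨m, rfl⟩ : ∃ m, n = m + 3 := ⟨n - 3, by
    have : ¬ n < 3 := hc
    omega⟩
  rw [integral_fock_g, K_two]
  simp

lemma fockBounded_g0 (N : ℂ) : FockBounded (N • g 0) := by
  unfold FockBounded
  apply (Set.finite_lt_nat 1).subset
  intro n hn
  by_contra hc
  apply hn
  obtain ⟨m, rfl⟩ : ∃ m, n = m + 1 := ⟨n - 1, by
    have : ¬ n < 1 := hc
    omega⟩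
  rw [integral_fock_g, K_zero]
  simp

/-! ### The beam-splitter state -/

lemma qmp_affine (a : ℝ) :
    Measure.QuasiMeasurePreserving (fun x : ℝ => (x + a) / Real.sqrt 2) volume volume := by
  have h1 : Measure.QuasiMeasurePreserving (fun x : ℝ => x + a) volume volume :=
    (measurePreserving_add_right (volume : Measure ℝ) a).quasiMeasurePreserving
  have hs : (Real.sqrt 2)⁻¹ ≠ 0 := inv_ne_zero (Real.sqrt_pos.2 (by norm_num)).ne'
  have h2 : Measure.QuasiMeasurePreserving (fun x : ℝ => x / Real.sqrt 2) volume volume := by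
    refine ⟨by fun_prop, ?_⟩
    have h3 : (fun x : ℝ => x / Real.sqrt 2) = fun x => x * (Real.sqrt 2)⁻¹ := by
      ext x; rw [div_eq_mul_inv]
    rw [h3, Real.map_volume_mul_right hs]
    exact Measure.smul_absolutelyContinuous
  exact h2.comp h1

lemma twoMode_ae (N M : ℂ) (y : ℝ) :
    (fun x : ℝ => twoMode (N • g 2) (M • g 0) x y) =ᵐ[volume]
      fun x : ℝ => (N * M / 2) * cexp (-((y : ℂ) ^ 2 / 2)) *
        (gfun 2 x - 2 * y * gfun 1 x + (y : ℂ) ^ 2 * gfun 0 x) := by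
  have a1 := (qmp_affine (-y)).ae_eq_comp (coeFn_g 2)
  have a2 := (qmp_affine (-y)).ae_eq_comp (Lp.coeFn_smul N (g 2))
  have a3 := (qmp_affine y).ae_eq_comp (coeFn_g 0)
  have a4 := (qmp_affine y).ae_eq_comp (Lp.coeFn_smul M (g 0))
  filter_upwards [a1, a2, a3, a4] with x h1 h2 h3 h4
  simp only [Function.comp_apply, Pi.smul_apply, smul_eq_mul] at h1 h2 h3 h4
  unfold twoMode
  rw [sub_eq_add_neg, h2, h1, h4, h3]
  unfold gfun
  push_cast
  have hs : ((Real.sqrt 2 : ℝ) : ℂ) ^ 2 = 2 := by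
    rw [← ofReal_pow, Real.sq_sqrt (by norm_num)]; norm_num
  have e1 : (((x : ℂ) + -(y : ℂ)) / ((Real.sqrt 2 : ℝ) : ℂ)) ^ 2 = ((x : ℂ) - y) ^ 2 / 2 := by
    rw [div_pow, hs]; ring
  have e2 : (((x : ℂ) + (y : ℂ)) / ((Real.sqrt 2 : ℝ) : ℂ)) ^ 2 = ((x : ℂ) + y) ^ 2 / 2 := by
    rw [div_pow, hs]
  rw [e1, e2]
  have h : cexp (-(((x : ℂ) - y) ^ 2 / 2 / 2)) * cexp (-(((x : ℂ) + y) ^ 2 / 2 / 2)) =
      cexp (-((y : ℂ) ^ 2 / 2)) * cexp (-((x : ℂ) ^ 2 / 2)) := by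
    rw [← Complex.exp_add, ← Complex.exp_add]
    congr 1
    ring
  linear_combination (N * M * (((x : ℂ) - y) ^ 2 / 2)) * h

lemma integrable_conj_mul_g (f : H) (j : ℕ) :
    Integrable (fun x : ℝ => conj (f x) * gfun j x) := by
  refine (L2.integrable_inner (𝕜 := ℂ) f (g j)).congr ?_
  filter_upwards [coeFn_g j] with x hx
  rw [hx, RCLike.inner_apply]; ring

lemma integral_conj_mul_g (f : H) (j : ℕ) :
    ∫ x : ℝ, conj (f x) * gfun j x = inner ℂ f (g j) := by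
  rw [L2.inner_def]
  apply integral_congr_ae
  filter_upwards [coeFn_g j] with x hx
  rw [hx, RCLike.inner_apply]; ring

lemma integrable_g_mul (h : H) (j : ℕ) :
    Integrable (fun x : ℝ => gfun j x * h x) := by
  refine (L2.integrable_inner (𝕜 := ℂ) (g j) h).congr ?_
  filter_upwards [coeFn_g j] with x hx
  rw [hx, RCLike.inner_apply, conj_gfun]; ring

lemma integral_g_mul (h : H) (j : ℕ) :
    ∫ x : ℝ, gfun j x * h x = inner ℂ (g j) h := by
  rw [L2.inner_def]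
  apply integral_congr_ae
  filter_upwards [coeFn_g j] with x hx
  rw [hx, RCLike.inner_apply, conj_gfun]; ring

lemma inner_left_integral (N M : ℂ) (f : H) (y : ℝ) :
    ∫ x : ℝ, conj (f x) * twoMode (N • g 2) (M • g 0) x y =
      (N * M / 2) * cexp (-((y : ℂ) ^ 2 / 2)) *
        (inner ℂ f (g 2) - 2 * y * inner ℂ f (g 1) + (y : ℂ) ^ 2 * inner ℂ f (g 0)) := by
  have h1 : ∫ x : ℝ, conj (f x) * twoMode (N • g 2) (M • g 0) x y =
      ∫ x : ℝ, ((N * M / 2) * cexp (-((y : ℂ) ^ 2 / 2))) * (1 * (conj (f x) * gfun 2 x) +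
        (-2 * y) * (conj (f x) * gfun 1 x) + (y : ℂ) ^ 2 * (conj (f x) * gfun 0 x)) := by
    apply integral_congr_ae
    filter_upwards [twoMode_ae N M y] with x hx
    rw [hx]; ring
  rw [h1, integral_const_mul, integral_lin3 (integrable_conj_mul_g f 2)
    (integrable_conj_mul_g f 1) (integrable_conj_mul_g f 0), integral_conj_mul_g,
    integral_conj_mul_g, integral_conj_mul_g]
  ring

lemma inner_right_integral (N M : ℝ) (h : H) (y : ℝ) :
    ∫ x : ℝ, conj (twoMode ((N : ℂ) • g 2) ((M : ℂ) • g 0) x y) * h x =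
      ((N : ℂ) * M / 2) * cexp (-((y : ℂ) ^ 2 / 2)) *
        (inner ℂ (g 2) h - 2 * y * inner ℂ (g 1) h + (y : ℂ) ^ 2 * inner ℂ (g 0) h) := by
  have h1 : ∫ x : ℝ, conj (twoMode ((N : ℂ) • g 2) ((M : ℂ) • g 0) x y) * h x =
      ∫ x : ℝ, (((N : ℂ) * M / 2) * cexp (-((y : ℂ) ^ 2 / 2))) * (1 * (gfun 2 x * h x) +
        (-2 * y) * (gfun 1 x * h x) + (y : ℂ) ^ 2 * (gfun 0 x * h x)) := by
    apply integral_congr_ae
    filter_upwards [twoMode_ae (N : ℂ) (M : ℂ) y] with x hx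
    rw [hx]
    have hy : conj (cexp (-((y : ℂ) ^ 2 / 2))) = cexp (-((y : ℂ) ^ 2 / 2)) := by
      have := conj_gfun 0 y
      unfold gfun at this
      simpa using this
    simp only [map_mul, map_sub, map_add, map_div₀, conj_ofReal, conj_gfun, hy, map_pow,
      Complex.conj_ofNat]
    ring
  rw [h1, integral_const_mul, integral_lin3 (integrable_g_mul h 2)
    (integrable_g_mul h 1) (integrable_g_mul h 0), integral_g_mul,
    integral_g_mul, integral_g_mul]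
  ring

lemma inner_T (a b c e : ℝ) (f h : H) : inner ℂ f (T a b c e h) =
    a * (inner ℂ f (g 2) * inner ℂ (g 2) h) +
    b * (inner ℂ f (g 2) * inner ℂ (g 0) h + inner ℂ f (g 0) * inner ℂ (g 2) h) +
    c * (inner ℂ f (g 0) * inner ℂ (g 0) h) + e * (inner ℂ f (g 1) * inner ℂ (g 1) h) := by
  unfold T
  simp only [add_apply, smul_apply, rankOne_apply, inner_add_right, inner_smul_right]
  ring

lemma beamSplitter_eq (N M κ : ℝ) (hκ : (N * M / 2) ^ 2 * Real.sqrt Real.pi = κ) :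
    IsBeamSplitterState ((N : ℂ) • g 2) ((M : ℂ) • g 0) (T κ (κ / 2) (3 / 4 * κ) (2 * κ)) := by
  intro f h
  rw [inner_T]
  set F2 := inner ℂ f (g 2)
  set F1 := inner ℂ f (g 1)
  set F0 := inner ℂ f (g 0)
  set G2 := inner ℂ (g 2) h
  set G1 := inner ℂ (g 1) h
  set G0 := inner ℂ (g 0) h
  have h1 : ∫ y : ℝ, (∫ x : ℝ, conj (f x) * twoMode ((N : ℂ) • g 2) ((M : ℂ) • g 0) x y) *
      (∫ x : ℝ, conj (twoMode ((N : ℂ) • g 2) ((M : ℂ) • g 0) x y) * h x) =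
      ∫ y : ℝ, ((N : ℂ) * M / 2) ^ 2 * ((F2 * G2) * ((y : ℂ) ^ 0 * E 0 y) +
        (-2 * (F2 * G1 + F1 * G2)) * ((y : ℂ) ^ 1 * E 0 y) +
        (F2 * G0 + F0 * G2 + 4 * (F1 * G1)) * ((y : ℂ) ^ 2 * E 0 y) +
        (-2 * (F1 * G0 + F0 * G1)) * ((y : ℂ) ^ 3 * E 0 y) +
        (F0 * G0) * ((y : ℂ) ^ 4 * E 0 y)) := by
    apply integral_congr_ae
    refine Filter.Eventually.of_forall fun y => ?_
    simp only
    rw [inner_left_integral, inner_right_integral, E_zero_eq]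
    ring
  rw [h1, integral_const_mul, int_poly4, J0, J1, J2, J3, J4, ← hκ]
  push_cast
  ring

/-! ### The counterexample -/

lemma sqrtpi_pos : 0 < Real.sqrt Real.pi := Real.sqrt_pos.2 Real.pi_pos

lemma WT_nonneg {a b c e x p : ℝ}
    (h : 0 ≤ a * (x ^ 4 - x ^ 2 + 2 * x ^ 2 * p ^ 2 + 3 / 4 - 3 * p ^ 2 + p ^ 4) +
      2 * b * (x ^ 2 + 1 / 2 - p ^ 2) + c + e * (x ^ 2 - 1 / 2 + p ^ 2)) :
    0 ≤ WT a b c e x p := by
  unfold WT
  apply mul_nonneg _ h
  have := sqrtpi_pos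
  positivity

lemma T_mem_Dplus {a b c e : ℝ} (ha : 0 < a) (hc : 0 ≤ c - b ^ 2 / a) (he : 0 ≤ e)
    (htr : (3 / 4 * a + b + c + 1 / 2 * e) * Real.sqrt Real.pi = 1)
    (hw : ∀ x p : ℝ, 0 ≤ a * (x ^ 4 - x ^ 2 + 2 * x ^ 2 * p ^ 2 + 3 / 4 - 3 * p ^ 2 + p ^ 4) +
      2 * b * (x ^ 2 + 1 / 2 - p ^ 2) + c + e * (x ^ 2 - 1 / 2 + p ^ 2)) :
    T a b c e ∈ Dplus := by
  refine ⟨⟨T_pos ha hc he, ?_⟩, fun x p => ⟨WT a b c e x p, WT_nonneg (hw x p),
    T_wigner a b c e x p⟩⟩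
  have h := T_trace a b c e
  rw [htr] at h
  simpa using h

lemma norm_g_sq (j : ℕ) : ((‖g j‖ : ℝ) : ℂ) ^ 2 = J (j + j) 0 := by
  rw [← inner_g j j]
  exact (inner_self_eq_norm_sq_to_K (𝕜 := ℂ) (g j)).symm

lemma norm_g2 : ‖g 2‖ ^ 2 = 3 / 4 * Real.sqrt Real.pi := by
  have h := norm_g_sq 2
  rw [show 2 + 2 = 4 from rfl, J4] at h
  apply Complex.ofReal_injective
  push_cast
  exact h

lemma norm_g0 : ‖g 0‖ ^ 2 = Real.sqrt Real.pi := by
  have h := norm_g_sq 0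
  rw [show 0 + 0 = 0 from rfl, J0] at h
  exact_mod_cast h

/-- The entries `⟨g₁|T|g₁⟩` distinguish the operators. -/
lemma T_inj_e {a b c e a' b' c' e' : ℝ} (h : T a b c e = T a' b' c' e') : e = e' := by
  have h1 := congrArg (fun S : H →L[ℂ] H => inner ℂ (g 1) (S (g 1))) h
  simp only [inner_T] at h1
  have e12 : inner ℂ (g 1) (g 2) = 0 := by rw [inner_g]; exact J3
  have e10 : inner ℂ (g 1) (g 0) = 0 := by rw [inner_g]; exact J1
  have e21 : inner ℂ (g 2) (g 1) = 0 := by rw [inner_g]; exact J3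
  have e01 : inner ℂ (g 0) (g 1) = 0 := by rw [inner_g]; exact J1
  have e11 : inner ℂ (g 1) (g 1) = J 2 0 := inner_g 1 1
  rw [e12, e10, e21, e01, e11, J2] at h1
  simp only [mul_zero, zero_add, add_zero] at h1
  have hs : ((Real.sqrt Real.pi : ℝ) : ℂ) ≠ 0 := by
    rw [Ne, ofReal_eq_zero]; exact sqrtpi_pos.ne'
  have h2 : (e : ℂ) = e' := by
    have h3 : (1 / 2 * ((Real.sqrt Real.pi : ℝ) : ℂ)) * (1 / 2 * ((Real.sqrt Real.pi : ℝ) : ℂ)) ≠ 0 := by
      have : (1 / 2 * ((Real.sqrt Real.pi : ℝ) : ℂ)) ≠ 0 := mul_ne_zero (by norm_num) hs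
      exact mul_ne_zero this this
    exact mul_right_cancel₀ h3 h1
  exact_mod_cast h2

/-- The state `(|0⟩ + √2 |2⟩)/√3`. -/
def psi : H := (((2 / (Real.sqrt 3 * Real.sqrt (Real.sqrt Real.pi)) : ℝ)) : ℂ) • g 2

/-- The vacuum state. -/
def vac : H := ((((Real.sqrt (Real.sqrt Real.pi))⁻¹ : ℝ)) : ℂ) • g 0

lemma he_zero (x : ℝ) : Polynomial.aeval (Real.sqrt 2 * x) (Polynomial.hermite 0) = 1 := by
  simp

lemma he_two (x : ℝ) :
    Polynomial.aeval (Real.sqrt 2 * x) (Polynomial.hermite 2) = 2 * x ^ 2 - 1 := by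
  have h : Polynomial.hermite 2 = Polynomial.X ^ 2 - 1 := by
    rw [Polynomial.hermite_succ, Polynomial.hermite_one, Polynomial.derivative_X]; ring
  rw [h]
  simp only [map_sub, map_pow, Polynomial.aeval_X, map_one, mul_pow]
  rw [Real.sq_sqrt (by norm_num)]

lemma psi_ae : psi =ᵐ[volume]
    fun x : ℝ => (((fock 0 x + Real.sqrt 2 * fock 2 x) / Real.sqrt 3 : ℝ) : ℂ) := by
  unfold psi
  filter_upwards [coeFn_g 2, Lp.coeFn_smul
    (((2 / (Real.sqrt 3 * Real.sqrt (Real.sqrt Real.pi)) : ℝ)) : ℂ) (g 2)] with x h1 h2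
  rw [h2, Pi.smul_apply, h1, smul_eq_mul]
  unfold fock
  rw [he_zero, he_two]
  have h3 : gfun 2 x = ((x ^ 2 * Real.exp (-(x ^ 2 / 2)) : ℝ) : ℂ) := by
    unfold gfun; push_cast; rfl
  rw [h3, ← ofReal_mul]
  congr 1
  have hs2 : Real.sqrt ((Nat.factorial 2 : ℕ) * Real.sqrt Real.pi) =
      Real.sqrt 2 * Real.sqrt (Real.sqrt Real.pi) := by
    rw [Nat.factorial_two, Nat.cast_ofNat, Real.sqrt_mul (by norm_num)]
  have hs0 : Real.sqrt ((Nat.factorial 0 : ℕ) * Real.sqrt Real.pi) =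
      Real.sqrt (Real.sqrt Real.pi) := by
    rw [Nat.factorial_zero, Nat.cast_one, one_mul]
  rw [hs2, hs0]
  have p2 : 0 < Real.sqrt 2 := Real.sqrt_pos.2 (by norm_num)
  have p3 : 0 < Real.sqrt 3 := Real.sqrt_pos.2 (by norm_num)
  have pp : 0 < Real.sqrt (Real.sqrt Real.pi) := Real.sqrt_pos.2 sqrtpi_pos
  field_simp
  ring

lemma vac_ae : vac =ᵐ[volume] fun x : ℝ => ((fock 0 x : ℝ) : ℂ) := by
  unfold vac
  filter_upwards [coeFn_g 0, Lp.coeFn_smul
    ((((Real.sqrt (Real.sqrt Real.pi))⁻¹ : ℝ)) : ℂ) (g 0)] with x h1 h2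
  rw [h2, Pi.smul_apply, h1, smul_eq_mul]
  unfold fock
  rw [he_zero]
  have h3 : gfun 0 x = ((Real.exp (-(x ^ 2 / 2)) : ℝ) : ℂ) := by
    unfold gfun; push_cast; rw [pow_zero, one_mul]
  rw [h3, ← ofReal_mul]
  congr 1
  rw [Nat.factorial_zero, Nat.cast_one, one_mul]
  ring

lemma norm_psi : ‖psi‖ = 1 := by
  have h : ‖psi‖ ^ 2 = 1 := by
    unfold psi
    rw [norm_smul, mul_pow, norm_g2, Complex.norm_real, Real.norm_eq_abs, sq_abs, div_pow, mul_pow,
      Real.sq_sqrt (by norm_num), Real.sq_sqrt sqrtpi_pos.le]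
    have := sqrtpi_pos
    field_simp
    norm_num
  exact (pow_eq_one_iff_of_nonneg (norm_nonneg _) (by norm_num)).1 h

lemma norm_vac : ‖vac‖ = 1 := by
  have h : ‖vac‖ ^ 2 = 1 := by
    unfold vac
    rw [norm_smul, mul_pow, norm_g0, Complex.norm_real, Real.norm_eq_abs, sq_abs, inv_pow,
      Real.sq_sqrt sqrtpi_pos.le]
    have := sqrtpi_pos
    field_simp
  exact (pow_eq_one_iff_of_nonneg (norm_nonneg _) (by norm_num)).1 h

/-- `κ = 1/(3√π)`. -/
def κ : ℝ := (3 * Real.sqrt Real.pi)⁻¹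

lemma κ_pos : 0 < κ := by
  have := sqrtpi_pos
  unfold κ; positivity

lemma κ_mul : 3 * κ * Real.sqrt Real.pi = 1 := by
  have := sqrtpi_pos
  unfold κ; field_simp


/-- **Disproof of Q1.** For the Fock-bounded pure states `ψ = (|0⟩ + √2 |2⟩)/√3` and `φ = |0⟩`
(the vacuum), the beam-splitter state `σ(ψ, φ)` is Wigner-positive but not an extreme point
of the set of Wigner-positive states. -/
theorem counterexample : ∃ (ψ φ : H) (σ : Op),
    (ψ =ᵐ[volume] fun x : ℝ => (((fock 0 x + Real.sqrt 2 * fock 2 x) / Real.sqrt 3 : ℝ) : ℂ)) ∧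
    (φ =ᵐ[volume] fun x : ℝ => ((fock 0 x : ℝ) : ℂ)) ∧
    ‖ψ‖ = 1 ∧ ‖φ‖ = 1 ∧ FockBounded ψ ∧ FockBounded φ ∧
    IsBeamSplitterState ψ φ σ ∧ σ ∈ Dplus ∧ σ ∉ Set.extremePoints ℝ Dplus := by
  have hκ := κ_pos
  have hκm := κ_mul
  refine ⟨psi, vac, T κ (κ / 2) (3 / 4 * κ) (2 * κ), psi_ae, vac_ae, norm_psi, norm_vac,
    fockBounded_g2 _, fockBounded_g0 _, ?_, ?_, ?_⟩
  · apply beamSplitter_eq
    unfold κ
    have p3 : 0 < Real.sqrt 3 := Real.sqrt_pos.2 (by norm_num)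
    have pp : 0 < Real.sqrt (Real.sqrt Real.pi) := Real.sqrt_pos.2 sqrtpi_pos
    have hp : Real.sqrt (Real.sqrt Real.pi) ^ 2 = Real.sqrt Real.pi :=
      Real.sq_sqrt sqrtpi_pos.le
    have h3 : Real.sqrt 3 ^ 2 = 3 := Real.sq_sqrt (by norm_num)
    have e1 : 2 / (Real.sqrt 3 * Real.sqrt (Real.sqrt Real.pi)) *
        (Real.sqrt (Real.sqrt Real.pi))⁻¹ / 2 =
        1 / (Real.sqrt 3 * Real.sqrt (Real.sqrt Real.pi) ^ 2) := by
      field_simp
    rw [e1, hp, div_pow, mul_pow, h3]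
    have := sqrtpi_pos
    field_simp
  · apply T_mem_Dplus hκ
    · have : 3 / 4 * κ - (κ / 2) ^ 2 / κ = κ / 2 := by field_simp; ring
      rw [this]; positivity
    · positivity
    · linarith
    · intro x p
      nlinarith [mul_nonneg hκ.le (sq_nonneg (p ^ 2 - 1)), mul_nonneg hκ.le (sq_nonneg (x ^ 2)),
        mul_nonneg hκ.le (sq_nonneg (x * p)), mul_nonneg hκ.le (sq_nonneg x)]
  · intro hext
    rw [mem_extremePoints] at hext
    have h1 : T (5 / 6 * κ) (2 / 3 * κ) (5 / 8 * κ) (13 / 6 * κ) ∈ Dplus := by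
      apply T_mem_Dplus (by positivity)
      · have : 5 / 8 * κ - (2 / 3 * κ) ^ 2 / (5 / 6 * κ) = 11 / 120 * κ := by field_simp; ring
        rw [this]; positivity
      · positivity
      · linarith
      · intro x p
        nlinarith [mul_nonneg hκ.le (sq_nonneg (p ^ 2 - 1)), mul_nonneg hκ.le (sq_nonneg (x ^ 2)),
          mul_nonneg hκ.le (sq_nonneg (x * p)), mul_nonneg hκ.le (sq_nonneg x)]
    have h2 : T (7 / 6 * κ) (1 / 3 * κ) (7 / 8 * κ) (11 / 6 * κ) ∈ Dplus := by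
      apply T_mem_Dplus (by positivity)
      · have : 7 / 8 * κ - (1 / 3 * κ) ^ 2 / (7 / 6 * κ) = 131 / 168 * κ := by field_simp; ring
        rw [this]; positivity
      · positivity
      · linarith
      · intro x p
        nlinarith [mul_nonneg hκ.le (sq_nonneg (p ^ 2 - 1)), mul_nonneg hκ.le (sq_nonneg (x ^ 2)),
          mul_nonneg hκ.le (sq_nonneg (x * p)), mul_nonneg hκ.le (sq_nonneg x)]
    have h3 : T κ (κ / 2) (3 / 4 * κ) (2 * κ) ∈ openSegment ℝ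
        (T (5 / 6 * κ) (2 / 3 * κ) (5 / 8 * κ) (13 / 6 * κ))
        (T (7 / 6 * κ) (1 / 3 * κ) (7 / 8 * κ) (11 / 6 * κ)) := by
      refine ⟨1 / 2, 1 / 2, by norm_num, by norm_num, by norm_num, ?_⟩
      unfold T
      ext1 z
      simp only [add_apply, smul_apply, rankOne_apply, smul_add]
      match_scalars <;> (simp; ring)
    have h4 := T_inj_e (hext.2 _ h1 _ h2 h3).1
    linarith

end

end Pool.Agent.H84.BS
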