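import Mathlib

/-!
# Nets of the sphere
-/

set_option autoImplicit false

open Set

namespace Pool.Agent.H84

/-- A finite set `N` of at most `5 ^ dim` vectors of norm at most `2` which controls the norm of
every linear map up to a factor `2`. -/
theorem exists_net (W : Type*) [NormedAddCommGroup W] [NormedSpace ℝ W] [FiniteDimensional ℝ W] :
    ∃ N : Finset W, N.card ≤ 5 ^ Module.finrank ℝ W ∧ (∀ c ∈ N, ‖c‖ ≤ 2) ∧
      ∀ (F : Type*) [NormedAddCommGroup F] [NormedSpace ℝ F] (A : W →ₗ[ℝ] F) (r : ℝ), 0 ≤ r →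
        (∀ c ∈ N, ‖A c‖ ≤ r * ‖c‖) → ∀ v, ‖A v‖ ≤ 2 * r * ‖v‖ := by
  classical
  set P : ℕ → Prop := fun j => ∃ s : Finset W, s.card = j ∧ (∀ c ∈ s, ‖c‖ ≤ 2) ∧
    ∀ c ∈ s, ∀ d ∈ s, c ≠ d → 1 ≤ ‖c - d‖ with hP
  have hbound : ∀ j, P j → j ≤ 5 ^ Module.finrank ℝ W := by
    rintro j ⟨s, rfl, h1, h2⟩
    exact Besicovitch.card_le_of_separated s h1 h2
  have h0 : P 0 := ⟨∅, rfl, by simp, by simp⟩
  have hmax : P (Nat.findGreatest P (5 ^ Module.finrank ℝ W)) :=
    Nat.findGreatest_spec (Nat.zero_le _) h0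
  obtain ⟨N, hcard, hN2, hsep⟩ := hmax
  refine ⟨N, ?_, hN2, ?_⟩
  · rw [hcard]
    exact Nat.findGreatest_le _
  -- maximality
  have hcover : ∀ v : W, ‖v‖ ≤ 2 → ∃ c ∈ N, ‖v - c‖ ≤ 1 := by
    intro v hv
    by_contra hcon
    push Not at hcon
    have hvN : v ∉ N := by
      intro h
      have := hcon v h
      simp at this
      linarith
    have hP' : P (N.card + 1) := by
      refine ⟨insert v N, Finset.card_insert_of_notMem hvN, ?_, ?_⟩
      · intro c hc
        rcases Finset.mem_insert.1 hc with rfl | hc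
        · exact hv
        · exact hN2 c hc
      · intro c hc d hd hcd
        rcases Finset.mem_insert.1 hc with hc1 | hc1 <;>
          rcases Finset.mem_insert.1 hd with hd1 | hd1
        · exact absurd (hc1.trans hd1.symm) hcd
        · rw [hc1]
          exact (hcon d hd1).le
        · rw [hd1, norm_sub_rev]
          exact (hcon c hc1).le
        · exact hsep c hc1 d hd1 hcd
    have h1 := Nat.le_findGreatest (hbound _ hP') hP'
    omega
  intro F _ _ A r hr hA v
  -- the operator norm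
  set B : W →L[ℝ] F := LinearMap.toContinuousLinearMap A with hB
  have hAB : ∀ w, A w = B w := fun w => rfl
  have hnorm : ‖B‖ ≤ 2 * r := by
    have key : ∀ w : W, ‖w‖ = 2 → ‖B w‖ ≤ 2 * r + ‖B‖ := by
      intro w hw
      obtain ⟨c, hc, hwc⟩ := hcover w hw.le
      have h1 : ‖B c‖ ≤ r * 2 := (hA c hc).trans (by gcongr; exact hN2 c hc)
      have h2 : ‖B (w - c)‖ ≤ ‖B‖ * 1 := (B.le_opNorm _).trans (by gcongr)
      calc ‖B w‖ = ‖B c + B (w - c)‖ := by rw [← map_add]; congr 2; abel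
        _ ≤ ‖B c‖ + ‖B (w - c)‖ := norm_add_le _ _
        _ ≤ _ := by linarith
    have h3 : ‖B‖ ≤ (2 * r + ‖B‖) / 2 := by
      refine ContinuousLinearMap.opNorm_le_bound _ (by positivity) fun w => ?_
      by_cases hw : w = 0
      · subst hw; simp
      have hwn : 0 < ‖w‖ := norm_pos_iff.2 hw
      have h4 := key ((2 / ‖w‖) • w) (by
        rw [norm_smul, Real.norm_of_nonneg (by positivity)]
        field_simp)
      rw [map_smul, norm_smul, Real.norm_of_nonneg (by positivity)] at h4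
      have h5 : ‖w‖ / 2 * (2 / ‖w‖ * ‖B w‖) = ‖B w‖ := by field_simp
      have h6 : ‖w‖ / 2 * (2 / ‖w‖ * ‖B w‖) ≤ ‖w‖ / 2 * (2 * r + ‖B‖) :=
        mul_le_mul_of_nonneg_left h4 (by positivity)
      rw [h5] at h6
      linarith
    linarith
  rw [hAB]
  exact (B.le_opNorm v).trans (by gcongr)

end Pool.Agent.H84
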