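import Pool.Agent.H97.KlsDefs
import Pool.Agent.H84.KlsMachine
import Pool.Agent.H84.Net

/-!
# Direct sums of spaces of matrices
-/

set_option autoImplicit false
set_option linter.unusedSectionVars false
set_option linter.unusedVariables false

open MeasureTheory Measure Set Filter Topology
open scoped ENNReal NNReal Pointwise

namespace Pool.Agent.H84

open Pool.H97.KLS

variable {p : ℕ} {m k : Fin p → ℕ}

/-- The orthogonal direct sum of the spaces of `m l × k l` matrices, `l < p`. -/
abbrev BMat (p : ℕ) (m k : Fin p → ℕ) := EuclideanSpace ℝ (Σ l : Fin p, Fin (m l) × Fin (k l))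

/-- The block of index `l`. -/
noncomputable def blk (l : Fin p) : BMat p m k →ₗ[ℝ] Mat (m l) (k l) where
  toFun X := WithLp.toLp 2 (fun q => X ⟨l, q⟩)
  map_add' X Y := by ext q; simp
  map_smul' c X := by ext q; simp

/-- Multiply every block `X_l` on the right by the matrix `O l`. -/
noncomputable def blkRot (O : (l : Fin p) → Matrix (Fin (k l)) (Fin (k l)) ℝ) :
    BMat p m k →ₗ[ℝ] BMat p m k where
  toFun X := WithLp.toLp 2 (fun q => ∑ j, X ⟨q.1, (q.2.1, j)⟩ * O q.1 j q.2.2)
  map_add' X Y := by ext q; simp [add_mul, Finset.sum_add_distrib]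
  map_smul' c X := by
    ext q
    simp only [PiLp.smul_apply, smul_eq_mul, RingHom.id_apply, Finset.mul_sum]
    exact Finset.sum_congr rfl fun _ _ => by ring

@[simp] theorem blk_apply (l : Fin p) (X : BMat p m k) (q : Fin (m l) × Fin (k l)) :
    blk l X q = X ⟨l, q⟩ := rfl

@[simp] theorem blkRot_apply (O : (l : Fin p) → Matrix (Fin (k l)) (Fin (k l)) ℝ) (X : BMat p m k)
    (q : Σ l : Fin p, Fin (m l) × Fin (k l)) :
    blkRot O X q = ∑ j, X ⟨q.1, (q.2.1, j)⟩ * O q.1 j q.2.2 := rfl

theorem blk_blkRot (O : (l : Fin p) → Matrix (Fin (k l)) (Fin (k l)) ℝ) (X : BMat p m k)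
    (l : Fin p) : blk l (blkRot O X) = rotX (O l) (blk l X) := by
  ext q
  simp

theorem inner_eq_sum (X Y : BMat p m k) : inner ℝ X Y = ∑ l, inner ℝ (blk l X) (blk l Y) := by
  simp only [PiLp.inner_apply, RCLike.inner_apply, conj_trivial, blk_apply]
  rw [Fintype.sum_sigma]

theorem norm_sq_eq_sum (X : BMat p m k) : ‖X‖ ^ 2 = ∑ l, ‖blk l X‖ ^ 2 := by
  rw [← real_inner_self_eq_norm_sq, inner_eq_sum]
  simp only [real_inner_self_eq_norm_sq]

theorem norm_blk_le (l : Fin p) (X : BMat p m k) : ‖blk l X‖ ≤ ‖X‖ := by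
  have h : ‖blk l X‖ ^ 2 ≤ ‖X‖ ^ 2 := by
    rw [norm_sq_eq_sum X]
    exact Finset.single_le_sum (f := fun l => ‖blk l X‖ ^ 2) (fun _ _ => sq_nonneg _)
      (Finset.mem_univ l)
  exact abs_le_of_sq_le_sq' h (norm_nonneg _) |>.2

/-- Blockwise rotations are isometries. -/
theorem norm_blkRot (O : (l : Fin p) → Matrix (Fin (k l)) (Fin (k l)) ℝ)
    (hO : ∀ l, O l * (O l).transpose = 1) (X : BMat p m k) : ‖blkRot O X‖ = ‖X‖ := by
  have h : ‖blkRot O X‖ ^ 2 = ‖X‖ ^ 2 := by
    rw [norm_sq_eq_sum, norm_sq_eq_sum]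
    refine Finset.sum_congr rfl fun l _ => ?_
    rw [blk_blkRot, norm_rotX _ (hO l)]
  exact (sq_eq_sq₀ (norm_nonneg _) (norm_nonneg _)).1 h

theorem blkRot_comp (O O' : (l : Fin p) → Matrix (Fin (k l)) (Fin (k l)) ℝ) (X : BMat p m k) :
    blkRot (fun l => O l * O' l) X = blkRot O' (blkRot O X) := by
  ext q
  simp only [blkRot_apply, Matrix.mul_apply, Finset.mul_sum, Finset.sum_mul]
  rw [Finset.sum_comm]
  refine Finset.sum_congr rfl (fun _ _ => Finset.sum_congr rfl (fun _ _ => by ring))

theorem blkRot_one (X : BMat p m k) : blkRot (fun _ => 1) X = X := by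
  ext q
  simp [Matrix.one_apply]

/-- Blockwise rotations as linear isometry equivalences. -/
noncomputable def blkRotLI (O : (l : Fin p) → Matrix (Fin (k l)) (Fin (k l)) ℝ)
    (hO : ∀ l, O l * (O l).transpose = 1) : BMat p m k ≃ₗᵢ[ℝ] BMat p m k where
  toFun X := blkRot O X
  invFun X := blkRot (fun l => (O l).transpose) X
  map_add' X Y := map_add _ _ _
  map_smul' c X := map_smul _ _ _
  left_inv X := by
    show blkRot _ (blkRot O X) = X
    rw [← blkRot_comp]
    simp only [hO]
    exact blkRot_one X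
  right_inv X := by
    show blkRot O (blkRot _ X) = X
    rw [← blkRot_comp]
    simp only [fun l => mul_eq_one_comm.mp (hO l)]
    exact blkRot_one X
  norm_map' X := norm_blkRot O hO X

@[simp] theorem blkRotLI_apply (O : (l : Fin p) → Matrix (Fin (k l)) (Fin (k l)) ℝ)
    (hO : ∀ l, O l * (O l).transpose = 1) (X : BMat p m k) :
    blkRotLI O hO X = blkRot O X := rfl

/-- `rowComb v (blk l X)` as a linear map of `X`. -/
noncomputable def rowB (l : Fin p) (v : EuclideanSpace ℝ (Fin (m l))) :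
    BMat p m k →ₗ[ℝ] EuclideanSpace ℝ (Fin (k l)) where
  toFun X := rowComb v (blk l X)
  map_add' X Y := by ext j; simp [mul_add, Finset.sum_add_distrib]
  map_smul' c X := by
    ext j
    simp only [rowComb_apply, blk_apply, PiLp.smul_apply, smul_eq_mul, RingHom.id_apply,
      Finset.mul_sum]
    exact Finset.sum_congr rfl fun _ _ => by ring

@[simp] theorem rowB_apply (l : Fin p) (v : EuclideanSpace ℝ (Fin (m l))) (X : BMat p m k) :
    rowB l v X = rowComb v (blk l X) := rfl

/-- `rowComb v X` is also linear in `v`. -/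
noncomputable def rowV (l : Fin p) (X : BMat p m k) :
    EuclideanSpace ℝ (Fin (m l)) →ₗ[ℝ] EuclideanSpace ℝ (Fin (k l)) where
  toFun v := rowComb v (blk l X)
  map_add' v w := by ext j; simp [add_mul, Finset.sum_add_distrib]
  map_smul' c v := by
    ext j
    simp only [rowComb_apply, blk_apply, PiLp.smul_apply, smul_eq_mul, RingHom.id_apply,
      Finset.mul_sum]
    exact Finset.sum_congr rfl fun _ _ => by ring

@[simp] theorem rowV_apply (l : Fin p) (X : BMat p m k) (v : EuclideanSpace ℝ (Fin (m l))) :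
    rowV l X v = rowComb v (blk l X) := rfl

/-- The vector representing one entry of `rowComb v (blk l X)`. -/
noncomputable def entryVec (l : Fin p) (v : EuclideanSpace ℝ (Fin (m l))) (j : Fin (k l)) :
    BMat p m k :=
  ∑ i, v i • EuclideanSpace.single (⟨l, (i, j)⟩ : Σ l : Fin p, Fin (m l) × Fin (k l)) (1:ℝ)

theorem inner_entryVec (l : Fin p) (v : EuclideanSpace ℝ (Fin (m l))) (j : Fin (k l))
    (X : BMat p m k) : inner ℝ (entryVec l v j) X = rowComb v (blk l X) j := by
  simp only [entryVec, sum_inner, inner_smul_left, EuclideanSpace.inner_single_left, conj_trivial,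
    map_one, one_mul, rowComb_apply, blk_apply]

theorem norm_entryVec (l : Fin p) (v : EuclideanSpace ℝ (Fin (m l))) (j : Fin (k l)) :
    ‖(entryVec l v j : BMat p m k)‖ ^ 2 = ‖v‖ ^ 2 := by
  rw [← real_inner_self_eq_norm_sq, inner_entryVec]
  simp only [rowComb_apply, blk_apply]
  rw [EuclideanSpace.norm_sq_eq]
  refine Finset.sum_congr rfl fun i _ => ?_
  have : (entryVec l v j : BMat p m k) ⟨l, (i, j)⟩ = v i := by
    simp only [entryVec, WithLp.ofLp_sum, Finset.sum_apply, PiLp.smul_apply, smul_eq_mul]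
    rw [Finset.sum_eq_single i]
    · simp
    · intro b _ hb
      have : (⟨l, (i, j)⟩ : Σ l : Fin p, Fin (m l) × Fin (k l)) ≠ ⟨l, (b, j)⟩ := by
        intro h
        apply hb
        have h1 := (Sigma.mk.inj_iff.1 h).2
        have h2 := eq_of_heq h1
        exact ((Prod.mk.injEq _ _ _ _).mp h2).1.symm
      rw [PiLp.single_apply, if_neg this, mul_zero]
    · simp
  rw [this, Real.norm_eq_abs, sq_abs, sq]

end Pool.Agent.H84
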