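import Pool.Agent.H84.PrekopaLeindler

/-!
# Brascamp–Lieb / Poincaré inequality for strongly log-concave weights on bounded convex sets

Derived from the midpoint Prékopa–Leindler inequality.
-/

set_option autoImplicit false

open MeasureTheory Set Filter Topology
open scoped ENNReal NNReal

namespace Pool.Agent.H84

/-- `w` is (midpoint) strongly log-concave on the (midpoint) convex set `K`, with constant `ρ`
(for `w = exp (-V)` with `V` smooth this says `Hess V ≥ ρ`). -/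
structure SLC {E : Type*} [NormedAddCommGroup E] [InnerProductSpace ℝ E]
    (K : Set E) (w : E → ℝ) (ρ : ℝ) : Prop where
  conv : Convex ℝ K
  nonneg : ∀ x ∈ K, 0 ≤ w x
  slc : ∀ x ∈ K, ∀ y ∈ K,
    w x * w y ≤ w ((2:ℝ)⁻¹ • (x + y)) ^ 2 * Real.exp (-ρ * ‖x - y‖ ^ 2 / 4)

variable {E : Type*} [NormedAddCommGroup E] [InnerProductSpace ℝ E]
    [FiniteDimensional ℝ E] [MeasurableSpace E] [BorelSpace E]

omit [FiniteDimensional ℝ E] [MeasurableSpace E] [BorelSpace E] in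
theorem mid_mem {K : Set E} (hK : Convex ℝ K) {x y : E} (hx : x ∈ K) (hy : y ∈ K) :
    (2:ℝ)⁻¹ • (x + y) ∈ K := by
  have := hK hx hy (a := 2⁻¹) (b := 2⁻¹) (by norm_num) (by norm_num) (by norm_num)
  rwa [← smul_add] at this

omit [MeasurableSpace E] [BorelSpace E] in
/-- Uniform first-order bound around midpoints. -/
theorem exists_mid_bound (ψ : E → ℝ) (hψ : ContDiff ℝ 1 ψ) (R : ℝ) (η : ℝ) (hη : 0 < η) :
    ∃ r > 0, ∀ x ∈ Metric.closedBall (0:E) R, ∀ y ∈ Metric.closedBall (0:E) R, ‖x - y‖ ≤ r →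
      ψ x - ψ y ≤ (‖fderiv ℝ ψ ((2:ℝ)⁻¹ • (x + y))‖ + η) * ‖x - y‖ := by
  have hc : Continuous (fderiv ℝ ψ) := hψ.continuous_fderiv one_ne_zero
  have hu : UniformContinuousOn (fderiv ℝ ψ) (Metric.closedBall (0:E) R) :=
    (isCompact_closedBall (0:E) R).uniformContinuousOn_of_continuous hc.continuousOn
  rw [Metric.uniformContinuousOn_iff_le] at hu
  obtain ⟨r, hr, h⟩ := hu η hη
  refine ⟨r, hr, ?_⟩
  intro x hx y hy hxy
  set m := (2:ℝ)⁻¹ • (x + y) with hm
  have hcb : Convex ℝ (Metric.closedBall (0:E) R) := convex_closedBall _ _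
  have hmB : m ∈ Metric.closedBall (0:E) R := mid_mem hcb hx hy
  have hseg : segment ℝ y x ⊆ Metric.closedBall (0:E) R := hcb.segment_subset hy hx
  have hdist : ∀ z ∈ segment ℝ y x, dist z m ≤ r := by
    intro z hz
    obtain ⟨a, b, ha, hb, hab, rfl⟩ := hz
    have : a • y + b • x - m = (b - 1/2) • (x - y) := by
      have ha' : a = 1 - b := by linarith
      rw [hm, ha']
      module
    rw [dist_eq_norm, this, norm_smul]
    have : ‖b - 1/2‖ ≤ 1 := by
      rw [Real.norm_eq_abs, abs_le]; constructor <;> linarith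
    calc ‖b - 1 / 2‖ * ‖x - y‖ ≤ 1 * ‖x - y‖ := by gcongr
      _ ≤ r := by simpa using hxy
  have hb : ∀ z ∈ segment ℝ y x, ‖fderiv ℝ ψ z‖ ≤ ‖fderiv ℝ ψ m‖ + η := by
    intro z hz
    have h1 := h z (hseg hz) m hmB (hdist z hz)
    rw [dist_eq_norm] at h1
    calc ‖fderiv ℝ ψ z‖ = ‖(fderiv ℝ ψ z - fderiv ℝ ψ m) + fderiv ℝ ψ m‖ := by simp
      _ ≤ ‖fderiv ℝ ψ z - fderiv ℝ ψ m‖ + ‖fderiv ℝ ψ m‖ := norm_add_le _ _
      _ ≤ _ := by linarith
  have := Convex.norm_image_sub_le_of_norm_fderiv_le (𝕜 := ℝ) (f := ψ)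
    (fun z _ => (hψ.differentiable one_ne_zero) z) hb (convex_segment y x)
    (left_mem_segment ℝ y x) (right_mem_segment ℝ y x)
  exact (le_abs_self _).trans this

/-- The inequality obtained from Prékopa–Leindler for small `ε`. -/
theorem pl_applied {K : Set E} {w : E → ℝ} {ρ : ℝ} (hρ : 0 < ρ) (h : SLC K w ρ)
    (hKm : MeasurableSet K) (hwm : Measurable w) (hwi : IntegrableOn w K)
    {R : ℝ} (hKR : K ⊆ Metric.closedBall 0 R)
    (ψ : E → ℝ) (hψ : ContDiff ℝ 1 ψ) (η : ℝ) (hη : 0 < η) :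
    ∀ᶠ ε : ℝ in 𝓝[>] 0,
      (∫ x in K, Real.exp (ε * ψ x) * w x) * (∫ x in K, Real.exp (-(ε * ψ x)) * w x) ≤
      (∫ x in K, Real.exp (ε ^ 2 * ((‖fderiv ℝ ψ x‖ + η) ^ 2 / (2 * ρ))) * w x) ^ 2 := by
  obtain ⟨r, hr, hmid⟩ := exists_mid_bound ψ hψ R η hη
  have hcψ : Continuous ψ := hψ.continuous
  have hcf : Continuous (fderiv ℝ ψ) := hψ.continuous_fderiv one_ne_zero
  obtain ⟨M, hM⟩ := (isCompact_closedBall (0:E) R).exists_bound_of_continuousOn
    hcψ.continuousOn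
  obtain ⟨G, hG⟩ := (isCompact_closedBall (0:E) R).exists_bound_of_continuousOn
    (f := fun x => (‖fderiv ℝ ψ x‖ + η) ^ 2 / (2 * ρ)) (by fun_prop)
  have hM0 : 0 ≤ |M| := abs_nonneg _
  have hM' : ∀ x ∈ K, |ψ x| ≤ |M| := fun x hx =>
    (Real.norm_eq_abs _ ▸ hM x (hKR hx)).trans (le_abs_self _)
  have hev : ∀ᶠ ε : ℝ in 𝓝[>] 0, ε * (2 * |M|) ≤ ρ * r ^ 2 / 4 := by
    have : Tendsto (fun ε : ℝ => ε * (2 * |M|)) (𝓝[>] 0) (𝓝 (0 * (2 * |M|))) :=
      (tendsto_id.mono_left nhdsWithin_le_nhds).mul_const _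
    rw [zero_mul] at this
    exact this.eventually_le_const (by positivity)
  filter_upwards [hev, self_mem_nhdsWithin] with ε hε hε0
  rw [mem_Ioi] at hε0
  -- integrability
  have int1 : ∀ g : E → ℝ, Continuous g → IntegrableOn (fun x => g x * w x) K := by
    intro g hg
    obtain ⟨B, hB⟩ := (isCompact_closedBall (0:E) R).exists_bound_of_continuousOn
      hg.continuousOn
    apply Integrable.bdd_mul hwi hg.aestronglyMeasurable (c := B)
    filter_upwards [ae_restrict_mem hKm] with x hx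
    exact hB x (hKR hx)
  have i1 := int1 (fun x => Real.exp (ε * ψ x)) (by fun_prop)
  have i2 := int1 (fun x => Real.exp (-(ε * ψ x))) (by fun_prop)
  have i3 := int1 (fun x => Real.exp (ε ^ 2 * ((‖fderiv ℝ ψ x‖ + η) ^ 2 / (2 * ρ)))) (by fun_prop)
  have conv : ∀ g : E → ℝ, (∀ x, 0 ≤ g x) → IntegrableOn (fun x => g x * w x) K →
      ∫⁻ x, K.indicator (fun x => ENNReal.ofReal (g x * w x)) x =
      ENNReal.ofReal (∫ x in K, g x * w x) := by
    intro g hg hi
    rw [lintegral_indicator hKm, ← ofReal_integral_eq_lintegral_ofReal hi]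
    filter_upwards [ae_restrict_mem hKm] with x hx
    exact mul_nonneg (hg x) (h.nonneg x hx)
  have nn : ∀ g : E → ℝ, (∀ x, 0 ≤ g x) → 0 ≤ ∫ x in K, g x * w x := by
    intro g hg
    apply setIntegral_nonneg hKm
    intro x hx
    exact mul_nonneg (hg x) (h.nonneg x hx)
  have key := pl_inner E
    (K.indicator (fun x => ENNReal.ofReal (Real.exp (ε * ψ x) * w x)))
    (K.indicator (fun x => ENNReal.ofReal (Real.exp (-(ε * ψ x)) * w x)))
    (K.indicator (fun x => ENNReal.ofReal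
      (Real.exp (ε ^ 2 * ((‖fderiv ℝ ψ x‖ + η) ^ 2 / (2 * ρ))) * w x)))
    (Measurable.indicator (by fun_prop) hKm) (Measurable.indicator (by fun_prop) hKm)
    (Measurable.indicator (by fun_prop) hKm) (by
      intro x y
      by_cases hx : x ∈ K
      swap
      · simp [hx]
      by_cases hy : y ∈ K
      swap
      · simp [hy]
      have hm := mid_mem h.conv hx hy
      rw [indicator_of_mem hx, indicator_of_mem hy, indicator_of_mem hm,
        ← ENNReal.ofReal_mul (mul_nonneg (Real.exp_pos _).le (h.nonneg x hx)),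
        ← ENNReal.ofReal_pow (mul_nonneg (Real.exp_pos _).le (h.nonneg _ hm))]
      apply ENNReal.ofReal_le_ofReal
      set m := (2:ℝ)⁻¹ • (x + y) with hmdef
      set a := ‖fderiv ℝ ψ m‖ + η with ha
      have ha0 : 0 < a := by positivity
      have hexp : ε * (ψ x - ψ y) - ρ * ‖x - y‖ ^ 2 / 4 ≤ ε ^ 2 * a ^ 2 / ρ := by
        rcases le_or_gt ‖x - y‖ r with h1 | h1
        · have h2 := hmid x (hKR hx) y (hKR hy) h1
          have h3 : ε * (ψ x - ψ y) ≤ ε * (a * ‖x - y‖) := by gcongr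
          have h4 : ε * (a * ‖x - y‖) - ρ * ‖x - y‖ ^ 2 / 4 ≤ ε ^ 2 * a ^ 2 / ρ := by
            rw [le_div_iff₀ hρ]
            nlinarith [sq_nonneg (ρ * ‖x - y‖ / 2 - ε * a)]
          linarith
        · have h2 : ε * (ψ x - ψ y) ≤ ε * (2 * |M|) := by
            have := hM' x hx
            have := hM' y hy
            rw [abs_le] at *
            gcongr
            linarith
          have h3 : ρ * r ^ 2 / 4 ≤ ρ * ‖x - y‖ ^ 2 / 4 := by gcongr
          have h4 : 0 ≤ ε ^ 2 * a ^ 2 / ρ := by positivity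
          linarith
      calc Real.exp (ε * ψ x) * w x * (Real.exp (-(ε * ψ y)) * w y)
          = Real.exp (ε * (ψ x - ψ y)) * (w x * w y) := by
            rw [mul_sub, sub_eq_add_neg, Real.exp_add]; ring
        _ ≤ Real.exp (ε * (ψ x - ψ y)) *
            (w m ^ 2 * Real.exp (-ρ * ‖x - y‖ ^ 2 / 4)) :=
            mul_le_mul_of_nonneg_left (h.slc x hx y hy) (Real.exp_pos _).le
        _ = Real.exp (ε * (ψ x - ψ y) - ρ * ‖x - y‖ ^ 2 / 4) * w m ^ 2 := by
            have e0 : ε * (ψ x - ψ y) - ρ * ‖x - y‖ ^ 2 / 4 =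
              ε * (ψ x - ψ y) + (-ρ * ‖x - y‖ ^ 2 / 4) := by ring
            rw [e0, Real.exp_add]
            ring
        _ ≤ Real.exp (ε ^ 2 * a ^ 2 / ρ) * w m ^ 2 := by
            gcongr
        _ = (Real.exp (ε ^ 2 * (a ^ 2 / (2 * ρ))) * w m) ^ 2 := by
            rw [mul_pow, ← Real.exp_nat_mul]
            congr 2
            push_cast
            field_simp)
  rw [conv _ (fun x => (Real.exp_pos _).le) i1, conv _ (fun x => (Real.exp_pos _).le) i2,
    conv _ (fun x => (Real.exp_pos _).le) i3,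
    ← ENNReal.ofReal_mul (nn _ (fun x => (Real.exp_pos _).le)),
    ← ENNReal.ofReal_pow (nn _ (fun x => (Real.exp_pos _).le)),
    ENNReal.ofReal_le_ofReal_iff (by positivity)] at key
  exact key

theorem exp_lower {x : ℝ} (hx : |x| ≤ 1) : 1 + x + x ^ 2 / 2 - |x| ^ 3 ≤ Real.exp x := by
  have h := Real.exp_bound hx (n := 3) (by norm_num)
  simp only [Finset.sum_range_succ, Finset.sum_range_zero, Nat.factorial, pow_zero, pow_one] at h
  rw [abs_le] at h
  have h1 := h.1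
  norm_num at h1
  have : |x| ^ 3 * (4 / 18) ≤ |x| ^ 3 := by
    have : 0 ≤ |x| ^ 3 := by positivity
    linarith
  norm_num at this
  linarith

/-- Second order consequence of the Prékopa–Leindler inequality, for centred functions. -/
theorem bl_centered {K : Set E} {w : E → ℝ} {ρ : ℝ} (hρ : 0 < ρ) (h : SLC K w ρ)
    (hKm : MeasurableSet K) (hwm : Measurable w) (hwi : IntegrableOn w K)
    (hZ : 0 < ∫ x in K, w x)
    {R : ℝ} (hKR : K ⊆ Metric.closedBall 0 R)
    (φ : E → ℝ) (hφ : ContDiff ℝ 1 φ) (hc : ∫ x in K, φ x * w x = 0) (η : ℝ) (hη : 0 < η) :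
    ∫ x in K, φ x ^ 2 * w x ≤ ρ⁻¹ * ∫ x in K, (‖fderiv ℝ φ x‖ + η) ^ 2 * w x := by
  have hcψ : Continuous φ := hφ.continuous
  have hcf : Continuous (fderiv ℝ φ) := hφ.continuous_fderiv one_ne_zero
  obtain ⟨M0, hM0⟩ := (isCompact_closedBall (0:E) R).exists_bound_of_continuousOn
    hcψ.continuousOn
  obtain ⟨G0, hG0⟩ := (isCompact_closedBall (0:E) R).exists_bound_of_continuousOn
    (f := fun x => (‖fderiv ℝ φ x‖ + η) ^ 2 / (2 * ρ)) (by fun_prop)
  set M := |M0| with hMdef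
  set G := |G0| with hGdef
  have hM : ∀ x ∈ K, |φ x| ≤ M := fun x hx =>
    (Real.norm_eq_abs _ ▸ hM0 x (hKR hx)).trans (le_abs_self _)
  have hG : ∀ x ∈ K, (‖fderiv ℝ φ x‖ + η) ^ 2 / (2 * ρ) ≤ G := fun x hx =>
    ((le_abs_self _).trans (Real.norm_eq_abs _ ▸ hG0 x (hKR hx))).trans (le_abs_self _)
  have hMn : 0 ≤ M := abs_nonneg _
  have hGn : 0 ≤ G := abs_nonneg _
  set Z := ∫ x in K, w x with hZdef
  set s := ∫ x in K, φ x ^ 2 * w x with hs
  set γ := ∫ x in K, ((‖fderiv ℝ φ x‖ + η) ^ 2 / (2 * ρ)) * w x with hγ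
  have int1 : ∀ g : E → ℝ, Continuous g → IntegrableOn (fun x => g x * w x) K := by
    intro g hg
    obtain ⟨B, hB⟩ := (isCompact_closedBall (0:E) R).exists_bound_of_continuousOn
      hg.continuousOn
    apply Integrable.bdd_mul hwi hg.aestronglyMeasurable (c := B)
    filter_upwards [ae_restrict_mem hKm] with x hx
    exact hB x (hKR hx)
  have iφ := int1 φ hcψ
  have iφ2 := int1 (fun x => φ x ^ 2) (by fun_prop)
  have ig := int1 (fun x => (‖fderiv ℝ φ x‖ + η) ^ 2 / (2 * ρ)) (by fun_prop)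
  -- lower bound for the exponential integrals
  have lower : ∀ σ : ℝ, |σ| * M ≤ 1 →
      Z + σ ^ 2 / 2 * s - |σ| ^ 3 * M ^ 3 * Z ≤ ∫ x in K, Real.exp (σ * φ x) * w x := by
    intro σ hσ
    have e1 : Z + σ ^ 2 / 2 * s - |σ| ^ 3 * M ^ 3 * Z =
        ∫ x in K, (w x + σ * (φ x * w x) + σ ^ 2 / 2 * (φ x ^ 2 * w x)
          - |σ| ^ 3 * M ^ 3 * w x) := by
      rw [integral_sub, integral_add, integral_add, integral_const_mul, integral_const_mul,
        integral_const_mul, hc]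
      · ring
      · exact hwi
      · exact iφ.const_mul _
      · exact hwi.add (iφ.const_mul _)
      · exact iφ2.const_mul _
      · exact (hwi.add (iφ.const_mul _)).add (iφ2.const_mul _)
      · exact hwi.const_mul _
    rw [e1]
    apply setIntegral_mono_on _ (int1 _ (by fun_prop)) hKm
    · intro x hx
      have hx1 : |σ * φ x| ≤ 1 := by
        rw [abs_mul]
        calc |σ| * |φ x| ≤ |σ| * M := by gcongr; exact hM x hx
          _ ≤ 1 := hσ
      have h1 := exp_lower hx1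
      have h2 : |σ * φ x| ^ 3 ≤ |σ| ^ 3 * M ^ 3 := by
        rw [abs_mul, mul_pow]
        gcongr
        exact hM x hx
      have h3 := h.nonneg x hx
      calc w x + σ * (φ x * w x) + σ ^ 2 / 2 * (φ x ^ 2 * w x) - |σ| ^ 3 * M ^ 3 * w x
          = (1 + σ * φ x + (σ * φ x) ^ 2 / 2 - |σ| ^ 3 * M ^ 3) * w x := by ring
        _ ≤ Real.exp (σ * φ x) * w x := by
            gcongr
            linarith
    · exact ((hwi.add (iφ.const_mul _)).add (iφ2.const_mul _)).sub (hwi.const_mul _)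
  have upper : ∀ σ : ℝ, σ ^ 2 * G ≤ 1 →
      ∫ x in K, Real.exp (σ ^ 2 * ((‖fderiv ℝ φ x‖ + η) ^ 2 / (2 * ρ))) * w x ≤
        Z + σ ^ 2 * γ + σ ^ 4 * G ^ 2 * Z := by
    intro σ hσ
    have e1 : Z + σ ^ 2 * γ + σ ^ 4 * G ^ 2 * Z =
        ∫ x in K, (w x + σ ^ 2 * (((‖fderiv ℝ φ x‖ + η) ^ 2 / (2 * ρ)) * w x)
          + σ ^ 4 * G ^ 2 * w x) := by
      rw [integral_add, integral_add, integral_const_mul, integral_const_mul]
      · exact hwi
      · exact ig.const_mul _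
      · exact hwi.add (ig.const_mul _)
      · exact hwi.const_mul _
    rw [e1]
    apply setIntegral_mono_on (int1 _ (by fun_prop)) _ hKm
    · intro x hx
      set u := (‖fderiv ℝ φ x‖ + η) ^ 2 / (2 * ρ) with hu
      have hu0 : 0 ≤ u := by positivity
      have huG := hG x hx
      have hx1 : |σ ^ 2 * u| ≤ 1 := by
        rw [abs_of_nonneg (by positivity)]
        calc σ ^ 2 * u ≤ σ ^ 2 * G := by gcongr
          _ ≤ 1 := hσ
      have h1 := Real.abs_exp_sub_one_sub_id_le hx1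
      have h1' := (le_abs_self _).trans h1
      have h2 : (σ ^ 2 * u) ^ 2 ≤ σ ^ 4 * G ^ 2 := by
        calc (σ ^ 2 * u) ^ 2 ≤ (σ ^ 2 * G) ^ 2 := by gcongr
          _ = _ := by ring
      have h3 := h.nonneg x hx
      calc Real.exp (σ ^ 2 * u) * w x ≤ (1 + σ ^ 2 * u + σ ^ 4 * G ^ 2) * w x := by
            gcongr
            linarith
        _ = _ := by ring
    · exact (hwi.add (ig.const_mul _)).add (hwi.const_mul _)
  -- combine
  have main : ∀ᶠ ε : ℝ in 𝓝[>] 0, s / 2 ≤ γ + ε * (M ^ 3 * Z) + ε ^ 2 * (G ^ 2 * Z) := by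
    have hev := pl_applied hρ h hKm hwm hwi hKR φ hφ η hη
    have t1 : Tendsto (fun ε : ℝ => ε * M) (𝓝[>] 0) (𝓝 (0 * M)) :=
      (tendsto_id.mono_left nhdsWithin_le_nhds).mul_const _
    rw [zero_mul] at t1
    have t2 : Tendsto (fun ε : ℝ => ε ^ 2 * G) (𝓝[>] 0) (𝓝 (0 ^ 2 * G)) :=
      ((tendsto_id.mono_left nhdsWithin_le_nhds).pow 2).mul_const _
    rw [zero_pow two_ne_zero, zero_mul] at t2
    have t3 : Tendsto (fun ε : ℝ => Z + ε ^ 2 / 2 * s - ε ^ 3 * M ^ 3 * Z) (𝓝[>] 0)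
        (𝓝 (Z + 0 ^ 2 / 2 * s - 0 ^ 3 * M ^ 3 * Z)) := by
      have : Continuous (fun ε : ℝ => Z + ε ^ 2 / 2 * s - ε ^ 3 * M ^ 3 * Z) := by fun_prop
      exact (this.tendsto 0).mono_left nhdsWithin_le_nhds
    have t3' : Z + 0 ^ 2 / 2 * s - 0 ^ 3 * M ^ 3 * Z = Z := by ring
    rw [t3'] at t3
    filter_upwards [hev, self_mem_nhdsWithin, t1.eventually_le_const (by norm_num : (0:ℝ) < 1),
      t2.eventually_le_const (by norm_num : (0:ℝ) < 1), t3.eventually_const_le hZ]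
      with ε hε hε0 h1 h2 h3
    rw [mem_Ioi] at hε0
    have l1 := lower ε (by rwa [abs_of_pos hε0])
    have l2 := lower (-ε) (by rwa [abs_neg, abs_of_pos hε0])
    have u1 := upper ε h2
    rw [abs_of_pos hε0] at l1
    rw [abs_neg, abs_of_pos hε0, neg_sq] at l2
    have e2 : ∀ x, -ε * φ x = -(ε * φ x) := fun x => by ring
    simp only [e2] at l2
    set A := ∫ x in K, Real.exp (ε * φ x) * w x
    set B := ∫ x in K, Real.exp (-(ε * φ x)) * w x
    set C := ∫ x in K, Real.exp (ε ^ 2 * ((‖fderiv ℝ φ x‖ + η) ^ 2 / (2 * ρ))) * w x with hC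
    set L := Z + ε ^ 2 / 2 * s - ε ^ 3 * M ^ 3 * Z with hL
    have hC0 : 0 ≤ C := by
      apply setIntegral_nonneg hKm
      intro x hx
      exact mul_nonneg (Real.exp_pos _).le (h.nonneg x hx)
    have hLC : L ≤ C := by
      have : L * L ≤ C ^ 2 := (mul_le_mul l1 l2 h3 (h3.trans l1)).trans hε
      nlinarith
    have h4 := hLC.trans u1
    rw [hL] at h4
    have h5 : ε ^ 2 * (s / 2) ≤ ε ^ 2 * (γ + ε * (M ^ 3 * Z) + ε ^ 2 * (G ^ 2 * Z)) := by
      linarith
    exact le_of_mul_le_mul_left h5 (by positivity)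
  have lim : Tendsto (fun ε : ℝ => γ + ε * (M ^ 3 * Z) + ε ^ 2 * (G ^ 2 * Z)) (𝓝[>] 0)
      (𝓝 (γ + 0 * (M ^ 3 * Z) + 0 ^ 2 * (G ^ 2 * Z))) := by
    have : Continuous (fun ε : ℝ => γ + ε * (M ^ 3 * Z) + ε ^ 2 * (G ^ 2 * Z)) := by fun_prop
    exact (this.tendsto 0).mono_left nhdsWithin_le_nhds
  have fin := ge_of_tendsto lim main
  have e3 : γ = (2 * ρ)⁻¹ * ∫ x in K, (‖fderiv ℝ φ x‖ + η) ^ 2 * w x := by
    rw [hγ, ← integral_const_mul]
    congr 1
    ext x
    ring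
  rw [e3] at fin
  have e4 : (2 * ρ)⁻¹ = ρ⁻¹ / 2 := by
    rw [mul_inv]; ring
  rw [e4] at fin
  linarith

/-- **Brascamp–Lieb (Poincaré) inequality** for strongly log-concave weights on bounded convex
sets, in polynomial form. -/
theorem brascamp_lieb {K : Set E} {w : E → ℝ} {ρ : ℝ} (hρ : 0 < ρ) (h : SLC K w ρ)
    (hKm : MeasurableSet K) (hwm : Measurable w) (hwi : IntegrableOn w K)
    (hZ : 0 < ∫ x in K, w x) (hKb : Bornology.IsBounded K)
    (ψ : E → ℝ) (hψ : ContDiff ℝ 1 ψ) :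
    (∫ x in K, w x) * (∫ x in K, ψ x ^ 2 * w x) - (∫ x in K, ψ x * w x) ^ 2 ≤
      ρ⁻¹ * ((∫ x in K, w x) * ∫ x in K, ‖fderiv ℝ ψ x‖ ^ 2 * w x) := by
  obtain ⟨R, hKR⟩ := hKb.subset_closedBall 0
  have hcψ : Continuous ψ := hψ.continuous
  have hcf : Continuous (fderiv ℝ ψ) := hψ.continuous_fderiv one_ne_zero
  have int1 : ∀ g : E → ℝ, Continuous g → IntegrableOn (fun x => g x * w x) K := by
    intro g hg
    obtain ⟨B, hB⟩ := (isCompact_closedBall (0:E) R).exists_bound_of_continuousOn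
      hg.continuousOn
    apply Integrable.bdd_mul hwi hg.aestronglyMeasurable (c := B)
    filter_upwards [ae_restrict_mem hKm] with x hx
    exact hB x (hKR hx)
  set Z := ∫ x in K, w x with hZdef
  set m := (∫ x in K, ψ x * w x) / Z with hm
  have iψ := int1 ψ hcψ
  have iψ2 := int1 (fun x => ψ x ^ 2) (by fun_prop)
  have id2 := int1 (fun x => ‖fderiv ℝ ψ x‖ ^ 2) (by fun_prop)
  have id1 := int1 (fun x => ‖fderiv ℝ ψ x‖) (by fun_prop)
  have hcent : ∫ x in K, (ψ x - m) * w x = 0 := by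
    simp only [sub_mul]
    rw [integral_sub iψ (hwi.const_mul m), integral_const_mul, hm]
    field_simp
    simp [hZdef]
  have hsq : ∫ x in K, (ψ x - m) ^ 2 * w x =
      (∫ x in K, ψ x ^ 2 * w x) - (∫ x in K, ψ x * w x) ^ 2 / Z := by
    have : ∀ x, (ψ x - m) ^ 2 * w x = ψ x ^ 2 * w x - 2 * m * (ψ x * w x) + m ^ 2 * w x := by
      intro x; ring
    simp only [this]
    rw [integral_add, integral_sub, integral_const_mul, integral_const_mul, ← hZdef, hm]
    · field_simp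
      ring
    · exact iψ2
    · exact iψ.const_mul _
    · exact iψ2.sub (iψ.const_mul _)
    · exact hwi.const_mul _
  have hfd : ∀ x, fderiv ℝ (fun x => ψ x - m) x = fderiv ℝ ψ x := by
    intro x
    rw [fderiv_sub_const]
  have key : ∀ η > 0, ∫ x in K, (ψ x - m) ^ 2 * w x ≤
      ρ⁻¹ * ((∫ x in K, ‖fderiv ℝ ψ x‖ ^ 2 * w x) + (2 * η * (∫ x in K, ‖fderiv ℝ ψ x‖ * w x)
        + η ^ 2 * Z)) := by
    intro η hη
    have := bl_centered hρ h hKm hwm hwi hZ hKR (fun x => ψ x - m)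
      (hψ.sub contDiff_const) hcent η hη
    refine this.trans (le_of_eq ?_)
    congr 1
    simp only [hfd]
    have e : ∀ x, (‖fderiv ℝ ψ x‖ + η) ^ 2 * w x = ‖fderiv ℝ ψ x‖ ^ 2 * w x +
        (2 * η * (‖fderiv ℝ ψ x‖ * w x) + η ^ 2 * w x) := fun x => by ring
    simp only [e]
    rw [integral_add, integral_add, integral_const_mul, integral_const_mul]
    · exact id1.const_mul _
    · exact hwi.const_mul _
    · exact id2
    · exact (id1.const_mul _).add (hwi.const_mul _)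
  have lim : Tendsto (fun η : ℝ => ρ⁻¹ * ((∫ x in K, ‖fderiv ℝ ψ x‖ ^ 2 * w x) +
      (2 * η * (∫ x in K, ‖fderiv ℝ ψ x‖ * w x) + η ^ 2 * Z))) (𝓝[>] 0)
      (𝓝 (ρ⁻¹ * ((∫ x in K, ‖fderiv ℝ ψ x‖ ^ 2 * w x) +
      (2 * 0 * (∫ x in K, ‖fderiv ℝ ψ x‖ * w x) + 0 ^ 2 * Z)))) := by
    have : Continuous (fun η : ℝ => ρ⁻¹ * ((∫ x in K, ‖fderiv ℝ ψ x‖ ^ 2 * w x) +
      (2 * η * (∫ x in K, ‖fderiv ℝ ψ x‖ * w x) + η ^ 2 * Z))) := by fun_prop
    exact (this.tendsto 0).mono_left nhdsWithin_le_nhds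
  have fin := ge_of_tendsto lim (by
    filter_upwards [self_mem_nhdsWithin] with η hη
    exact key η hη)
  rw [hsq] at fin
  have fin2 : (∫ x in K, ψ x ^ 2 * w x) - (∫ x in K, ψ x * w x) ^ 2 / Z ≤
      ρ⁻¹ * ∫ x in K, ‖fderiv ℝ ψ x‖ ^ 2 * w x := by
    refine fin.trans (le_of_eq ?_)
    ring
  have := mul_le_mul_of_nonneg_left fin2 hZ.le
  rw [mul_sub, mul_div_cancel₀ _ hZ.ne'] at this
  linarith

end Pool.Agent.H84
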