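import Pool.Agent.H84.Machine

/-!
# Duality and the `L^1` smoothing theorem
-/

set_option autoImplicit false
set_option linter.unusedSectionVars false
set_option linter.unusedVariables false
set_option linter.style.haveILetI false

open MeasureTheory Set Filter Topology
open scoped ENNReal NNReal

namespace Pool.Agent.H84

variable {E : Type*} [NormedAddCommGroup E] [InnerProductSpace ℝ E]
    [FiniteDimensional ℝ E] [MeasurableSpace E] [BorelSpace E]

variable {K : Set E} {R δ : ℝ}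

/-- The weight `d law(X + δ G)` (up to normalisation). -/
noncomputable def ww (K : Set E) (δ : ℝ) (y : E) : ℝ := ZZ K δ y / cE E δ

section

variable (hδ : 0 < δ) (hK : CB K R)
include hδ hK

theorem ww_pos (y : E) : 0 < ww K δ y := div_pos (ZZ_pos hδ hK.meas hK.vol0 y) (cE_pos hδ)

theorem integrable_prod_kern : Integrable (fun p : E × E => kern δ p.2 p.1)
    ((volume.restrict K).prod volume) := by
  haveI : IsFiniteMeasure (volume.restrict K) := ⟨by simpa using hK.lt_top⟩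
  have hc : Continuous (fun p : E × E => kern δ p.2 p.1) := by unfold kern; fun_prop
  rw [integrable_prod_iff hc.aestronglyMeasurable]
  constructor
  · exact Eventually.of_forall fun x => integrable_kern hδ x
  · have : ∀ x : E, ∫ y, ‖kern δ y x‖ = cE E δ := by
      intro x
      rw [← ZZ_univ x, ZZ, Measure.restrict_univ]
      congr 1
      ext y
      rw [Real.norm_eq_abs, abs_of_pos (kern_pos _ _ _)]
    simp only [this]
    exact integrable_const _

theorem integrable_prod_full {h : E → ℝ} (hm : Measurable h) {M : ℝ} (hM : ∀ x, |h x| ≤ M)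
    {ψ : E → ℝ} (hψ : BM K ψ) : Integrable (fun p : E × E => h p.2 * ψ p.1 * kern δ p.2 p.1)
    ((volume.restrict K).prod volume) := by
  haveI : IsFiniteMeasure (volume.restrict K) := ⟨by simpa using hK.lt_top⟩
  obtain ⟨hψm, N, hN⟩ := hψ
  apply Integrable.bdd_mul (integrable_prod_kern hδ hK) (c := M * N)
  · exact ((hm.comp measurable_snd).mul (hψm.comp measurable_fst)).aestronglyMeasurable
  · have h1 : ∀ᵐ x ∂(volume.restrict K), x ∈ K := ae_restrict_mem hK.meas
    have h2 : ∀ᵐ p : E × E ∂((volume.restrict K).prod volume), p.1 ∈ K :=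
      Measure.quasiMeasurePreserving_fst.ae h1
    filter_upwards [h2] with p hp
    rw [norm_mul]
    exact mul_le_mul (hM _) (hN _ hp) (abs_nonneg _) ((abs_nonneg _).trans (hM 0))

theorem duality {h : E → ℝ} (hm : Measurable h) {M : ℝ} (hM : ∀ x, |h x| ≤ M)
    {ψ : E → ℝ} (hψ : BM K ψ) :
    ∫ x in K, Aop δ h x * ψ x = ∫ y, h y * avg K δ ψ y * ww K δ y := by
  have hc := cE_pos (E := E) hδ
  have e1 : ∀ x, Aop δ h x * ψ x = (cE E δ)⁻¹ * ∫ y, h y * ψ x * kern δ y x := by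
    intro x
    rw [Aop, avg, ZZ_univ, NN, Measure.restrict_univ, div_eq_inv_mul, mul_assoc,
      ← integral_mul_const]
    congr 2
    ext y
    ring
  have e2 : ∀ y, h y * avg K δ ψ y * ww K δ y =
      (cE E δ)⁻¹ * ∫ x in K, h y * ψ x * kern δ y x := by
    intro y
    have hZ := ZZ_pos hδ hK.meas hK.vol0 y
    rw [avg, ww, NN]
    have : ∫ x in K, h y * ψ x * kern δ y x = h y * ∫ x in K, ψ x * kern δ x y := by
      rw [← integral_const_mul]
      congr 1
      ext x
      rw [kern_comm δ y x]; ring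
    rw [this]
    field_simp
  simp only [e1, e2]
  rw [integral_const_mul, integral_const_mul]
  congr 1
  exact integral_integral_swap (f := fun x y => h y * ψ x * kern δ y x)
    (integrable_prod_full hδ hK hm hM hψ)

theorem integrable_ww : Integrable (ww K δ) := by
  have h := (integrable_prod_kern hδ hK).integral_prod_right
  have : ww K δ = fun y => (∫ x in K, kern δ y x) / cE E δ := by
    ext y
    rw [ww, ZZ]
    congr 2
    ext x
    exact kern_comm δ x y
  rw [this]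
  exact h.div_const _

theorem Aop_one (x : E) : Aop δ (fun _ => (1:ℝ)) x = 1 := by
  haveI := isProb_PP (K := (univ : Set E)) hδ MeasurableSet.univ vol_univ_ne x
  rw [Aop, ← integral_PP hδ MeasurableSet.univ vol_univ_ne]
  simp

theorem integral_avg_ww {ψ : E → ℝ} (hψ : BM K ψ) :
    ∫ y, avg K δ ψ y * ww K δ y = ∫ x in K, ψ x := by
  have := duality hδ hK (h := fun _ => 1) measurable_const (M := 1) (by simp) hψ
  simp only [Aop_one hδ hK, one_mul] at this
  exact this.symm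

theorem avg_one (y : E) : avg K δ (fun _ => (1:ℝ)) y = 1 := by
  haveI := isProb_PP hδ hK.meas hK.vol0 y
  rw [← integral_PP hδ hK.meas hK.vol0]
  simp

theorem integral_ww : ∫ y, ww K δ y = volume.real K := by
  have := integral_avg_ww hδ hK (ψ := fun _ => (1:ℝ)) (hK.bm_of_cont continuous_const)
  simpa [avg_one hδ hK] using this

theorem integrable_mul_ww {h : E → ℝ} (hm : Measurable h) {M : ℝ} (hM : ∀ x, |h x| ≤ M) :
    Integrable (fun y => h y * ww K δ y) := by
  apply Integrable.bdd_mul (integrable_ww hδ hK) hm.aestronglyMeasurable (c := M)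
  exact Eventually.of_forall fun x => hM x

/-- `Q` is symmetric on `L²(K)`. -/
theorem Qop_symm {f g : E → ℝ} (hf : BM K f) (hg : BM K g) :
    ∫ x in K, Qop K δ f x * g x = ∫ x in K, f x * Qop K δ g x := by
  obtain ⟨M, h1, h2, -⟩ := avg_props hδ hK hf
  obtain ⟨N, h1', h2', -⟩ := avg_props hδ hK hg
  have a := duality hδ hK h1.continuous.measurable h2 hg
  have b := duality hδ hK h1'.continuous.measurable h2' hf
  change ∫ x in K, Aop δ (avg K δ f) x * g x = _
  rw [a]
  have : ∀ x, f x * Qop K δ g x = Aop δ (avg K δ g) x * f x := fun x => mul_comm _ _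
  simp only [this]
  rw [b]
  congr 1
  ext y
  ring

theorem iter_symm {f g : E → ℝ} (hf : BM K f) (hg : BM K g) (j : ℕ) :
    ∫ x in K, (Qop K δ)^[j] f x * g x = ∫ x in K, f x * (Qop K δ)^[j] g x := by
  induction j generalizing f with
  | zero => rfl
  | succ j ih =>
    rw [Function.iterate_succ_apply, ih (bm_Qop hδ hK hf), Function.iterate_succ_apply' _ j g]
    exact Qop_symm hδ hK hf (bm_iter hδ hK hg j)

/-- The Dirichlet form as an averaged covariance. -/
theorem dirichlet_eq {f ψ : E → ℝ} (hf : BM K f) (hψ : BM K ψ) :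
    ∫ x in K, (f x - Qop K δ f x) * ψ x =
      ∫ y, (avg K δ (fun x => f x * ψ x) y - avg K δ f y * avg K δ ψ y) * ww K δ y := by
  obtain ⟨M, h1, h2, -⟩ := avg_props hδ hK hf
  obtain ⟨N, h1', h2', -⟩ := avg_props hδ hK hψ
  obtain ⟨P, h1'', h2'', -⟩ := avg_props hδ hK (hf.mul hψ)
  have i1 := (hf.mul hψ).integrableOn hK
  have i2 := ((bm_Qop hδ hK hf).mul hψ).integrableOn hK
  simp only [sub_mul]
  rw [integral_sub i1 i2, integral_sub]
  · rw [integral_avg_ww hδ hK (hf.mul hψ)]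
    congr 1
    exact duality hδ hK h1.continuous.measurable h2 hψ
  · exact integrable_mul_ww hδ hK h1''.continuous.measurable h2''
  · apply integrable_mul_ww hδ hK (h1.continuous.measurable.mul h1'.continuous.measurable)
      (M := M * N)
    intro x
    rw [Pi.mul_apply, abs_mul]
    exact mul_le_mul (h2 x) (h2' x) (abs_nonneg _) ((abs_nonneg _).trans (h2 x))

/-! ### Covariance bounds -/

/-- Conditional covariance. -/
noncomputable def cv (K : Set E) (δ : ℝ) (f ψ : E → ℝ) (y : E) : ℝ :=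
  avg K δ (fun x => f x * ψ x) y - avg K δ f y * avg K δ ψ y

theorem cv_sq_le {f ψ : E → ℝ} (hf : BM K f) (hψ : BM K ψ) (y : E) :
    (cv K δ f ψ y) ^ 2 ≤ ((∫ x, f x ^ 2 ∂(PP K δ y)) - (∫ x, f x ∂(PP K δ y)) ^ 2) *
      ((∫ x, ψ x ^ 2 ∂(PP K δ y)) - (∫ x, ψ x ∂(PP K δ y)) ^ 2) := by
  haveI := isProb_PP hδ hK.meas hK.vol0 y
  rw [cv, ← integral_PP hδ hK.meas hK.vol0, ← integral_PP hδ hK.meas hK.vol0,
    ← integral_PP hδ hK.meas hK.vol0]
  exact cov_sq_le (hf.memLp_PP hδ hK y) (hψ.memLp_PP hδ hK y)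

theorem var_nonneg {f : E → ℝ} (hf : BM K f) (y : E) :
    0 ≤ (∫ x, f x ^ 2 ∂(PP K δ y)) - (∫ x, f x ∂(PP K δ y)) ^ 2 := by
  haveI := isProb_PP hδ hK.meas hK.vol0 y
  have := sq_integral_le (hf.memLp_PP hδ hK y)
  linarith

/-- Variance of a `C^1` function with gradient bounded on `K`. -/
theorem var_le_of_grad {f : E → ℝ} (hf : ContDiff ℝ 1 f) {L : ℝ}
    (hL : ∀ x ∈ K, ‖fderiv ℝ f x‖ ≤ L) (y : E) :
    (∫ x, f x ^ 2 ∂(PP K δ y)) - (∫ x, f x ∂(PP K δ y)) ^ 2 ≤ δ ^ 2 * L ^ 2 := by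
  haveI := isProb_PP hδ hK.meas hK.vol0 y
  have hcf : Continuous (fderiv ℝ f) := hf.continuous_fderiv one_ne_zero
  have hb : BM K (fun x => ‖fderiv ℝ f x‖ ^ 2) := hK.bm_of_cont (by fun_prop)
  have h := PP_poincare hδ hK.conv hK.meas (Metric.isBounded_closedBall.subset hK.sub) hK.vol0 y hf
  refine h.trans ?_
  gcongr
  have : ∫ x, ‖fderiv ℝ f x‖ ^ 2 ∂(PP K δ y) ≤ ∫ x, L ^ 2 ∂(PP K δ y) := by
    apply integral_mono_ae (hb.integrable_PP hδ hK y) (integrable_const _)
    filter_upwards [PP_ae_mem hK.meas y] with x hx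
    exact pow_le_pow_left₀ (norm_nonneg _) (hL x hx) 2
  simpa using this

theorem cv_bound0 {f φ : E → ℝ} (hf : ContDiff ℝ 1 f) {L : ℝ} (hL0 : 0 ≤ L)
    (hL : ∀ x ∈ K, ‖fderiv ℝ f x‖ ≤ L) (hφ : Measurable φ) (hφ1 : ∀ x ∈ K, |φ x| ≤ 1) (y : E) :
    |cv K δ f φ y| ≤ δ * L := by
  haveI := isProb_PP hδ hK.meas hK.vol0 y
  have hb : BM K φ := ⟨hφ, 1, hφ1⟩
  apply abs_le_of_sq_le_sq _ (by positivity)
  have h1 := cv_sq_le hδ hK (hK.bm_of_cont hf.continuous) hb y
  have h2 := var_le_of_grad hδ hK hf hL y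
  have h3 : (∫ x, φ x ^ 2 ∂(PP K δ y)) - (∫ x, φ x ∂(PP K δ y)) ^ 2 ≤ 1 := by
    have h4 : ∫ x, φ x ^ 2 ∂(PP K δ y) ≤ ∫ x, (1:ℝ) ∂(PP K δ y) := by
      apply integral_mono_ae (hb.sq.integrable_PP hδ hK y) (integrable_const _)
      filter_upwards [PP_ae_mem hK.meas y] with x hx
      rw [← sq_abs]
      exact pow_le_one₀ (abs_nonneg _) (hφ1 x hx)
    have h5 : 0 ≤ (∫ x, φ x ∂(PP K δ y)) ^ 2 := sq_nonneg _
    simp at h4
    linarith
  have h6 := var_nonneg hδ hK (hK.bm_of_cont hf.continuous) y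
  have h7 := var_nonneg hδ hK hb y
  calc _ ≤ _ := h1
    _ ≤ (δ ^ 2 * L ^ 2) * 1 := mul_le_mul h2 h3 h7 (by positivity)
    _ = _ := by ring

/-- Mean of the conditional law. -/
noncomputable def mn (K : Set E) (δ : ℝ) (y : E) : E := ∫ x, x ∂(PP K δ y)

theorem integrable_id_PP (y : E) : Integrable (fun x : E => x) (PP K δ y) := by
  haveI := isProb_PP hδ hK.meas hK.vol0 y
  apply Integrable.of_bound (C := R) (by fun_prop)
  filter_upwards [PP_ae_mem hK.meas y] with x hx
  simpa using hK.sub hx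

theorem second_moment_le (y : E) :
    ∫ x, ‖x - mn K δ y‖ ^ 2 ∂(PP K δ y) ≤ (Module.finrank ℝ E) * δ ^ 2 := by
  haveI := isProb_PP hδ hK.meas hK.vol0 y
  let b := stdOrthonormalBasis ℝ E
  have hint := integrable_id_PP hδ hK y
  have e1 : ∀ x : E, ‖x - mn K δ y‖ ^ 2 = ∑ i, (inner ℝ (x - mn K δ y) (b i)) ^ 2 := by
    intro x
    rw [← b.sum_sq_norm_inner_left (x - mn K δ y)]
    apply Finset.sum_congr rfl
    intro i _
    rw [Real.norm_eq_abs, sq_abs]
  simp only [e1]
  rw [integral_finsetSum]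
  · have e2 : ∀ i, ∫ x, (inner ℝ (x - mn K δ y) (b i)) ^ 2 ∂(PP K δ y) ≤ δ ^ 2 := by
      intro i
      have h1 := var_inner_le hδ hK.conv hK.meas hK.sub hK.vol0 y (b i)
      rw [b.norm_eq_one, one_pow, mul_one] at h1
      refine le_trans (le_of_eq ?_) h1
      set v := b i
      have hm : ∫ x, inner ℝ (x - y) v ∂(PP K δ y) = inner ℝ (mn K δ y - y) v := by
        have e3 : ∀ x : E, inner ℝ (x - y) v = inner ℝ v (x - y) := fun x => real_inner_comm _ _
        simp only [e3]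
        have hi : Integrable (fun x : E => x - y) (PP K δ y) := hint.sub (integrable_const _)
        rw [integral_inner hi, integral_sub hint (integrable_const _), mn]
        simp
      rw [hm]
      have e4 : ∀ x : E, (inner ℝ (x - mn K δ y) v) ^ 2 = (inner ℝ (x - y) v) ^ 2
          - 2 * inner ℝ (mn K δ y - y) v * inner ℝ (x - y) v
          + (inner ℝ (mn K δ y - y) v) ^ 2 := by
        intro x
        have : inner ℝ (x - mn K δ y) v = inner ℝ (x - y) v - inner ℝ (mn K δ y - y) v := by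
          rw [← inner_sub_left]; congr 1; abel
        rw [this]; ring
      simp only [e4]
      have hL2 := memLp_inner hδ hK.meas hK.sub hK.vol0 y v
      rw [integral_add, integral_sub, integral_const_mul, hm]
      · simp
        ring
      · exact hL2.integrable_sq
      · exact (hL2.integrable (by norm_num)).const_mul _
      · exact hL2.integrable_sq.sub ((hL2.integrable (by norm_num)).const_mul _)
      · exact integrable_const _
    calc _ ≤ ∑ i : Fin (Module.finrank ℝ E), δ ^ 2 := Finset.sum_le_sum fun i _ => e2 i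
      _ = _ := by simp
  · intro i _
    have hc : Continuous (fun x : E => (inner ℝ (x - mn K δ y) (b i)) ^ 2) := by fun_prop
    exact (hK.bm_of_cont hc).integrable_PP hδ hK y

theorem cv_bound1 {f ψ : E → ℝ} (hf : ContDiff ℝ 1 f) {Lf : ℝ} (hLf0 : 0 ≤ Lf)
    (hLf : ∀ x z, ‖fderiv ℝ f x - fderiv ℝ f z‖ ≤ Lf * ‖x - z‖)
    (hψ : ContDiff ℝ 1 ψ) {L : ℝ} (hL0 : 0 ≤ L)
    (hL : ∀ x ∈ K, ‖fderiv ℝ ψ x‖ ≤ L) (y : E) :
    |cv K δ f ψ y| ≤ δ ^ 2 * L * (avg K δ (fun x => ‖fderiv ℝ f x‖) y +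
      2 * (Lf * (Real.sqrt (Module.finrank ℝ E) * δ))) := by
  haveI := isProb_PP hδ hK.meas hK.vol0 y
  set n : ℝ := (Module.finrank ℝ E : ℝ) with hn
  have hn0 : 0 ≤ n := by positivity
  set m := mn K δ y with hm
  set F := fderiv ℝ f m with hF
  have hcf : Continuous (fderiv ℝ f) := hf.continuous_fderiv one_ne_zero
  have hbf : BM K f := hK.bm_of_cont hf.continuous
  have hbψ : BM K ψ := hK.bm_of_cont hψ.continuous
  have hbF : BM K (fun x => F x) := hK.bm_of_cont F.continuous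
  have hsm := second_moment_le hδ hK y
  have hvψ := var_le_of_grad hδ hK hψ hL y
  have hvψ0 := var_nonneg hδ hK hbψ y
  -- decomposition
  have hdec : cv K δ f ψ y = cv K δ (fun x => F x) ψ y + cv K δ (fun x => f x - F x) ψ y := by
    unfold cv
    have e1 : avg K δ (fun x => (f x - F x) * ψ x) y =
        avg K δ (fun x => f x * ψ x) y - avg K δ (fun x => F x * ψ x) y := by
      rw [← avg_sub hδ hK (hbf.mul hbψ) (hbF.mul hbψ)]
      congr 1
      ext x; ring
    rw [e1, avg_sub hδ hK hbf hbF]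
    ring
  -- linear part
  have h1 : |cv K δ (fun x => F x) ψ y| ≤ δ ^ 2 * L * ‖F‖ := by
    apply abs_le_of_sq_le_sq _ (by positivity)
    have hFd : ContDiff ℝ 1 (fun x => F x) := F.contDiff
    have a1 := cv_sq_le hδ hK hbF hbψ y
    have a2 := var_le_of_grad hδ hK hFd (L := ‖F‖) (fun x _ => by
      have : fderiv ℝ (fun x => F x) x = F := F.fderiv
      rw [this]) y
    calc _ ≤ _ := a1
      _ ≤ (δ ^ 2 * ‖F‖ ^ 2) * (δ ^ 2 * L ^ 2) := mul_le_mul a2 hvψ hvψ0 (by positivity)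
      _ = _ := by ring
  -- remainder
  have hrem : ∫ x, ‖fderiv ℝ f x - F‖ ^ 2 ∂(PP K δ y) ≤ Lf ^ 2 * (n * δ ^ 2) := by
    calc ∫ x, ‖fderiv ℝ f x - F‖ ^ 2 ∂(PP K δ y) ≤ ∫ x, Lf ^ 2 * ‖x - m‖ ^ 2 ∂(PP K δ y) := by
          apply integral_mono_ae
          · exact (hK.bm_of_cont (by fun_prop)).integrable_PP hδ hK y
          · exact (hK.bm_of_cont (by fun_prop)).integrable_PP hδ hK y
          · refine Eventually.of_forall fun x => ?_
            change _ ≤ Lf ^ 2 * ‖x - m‖ ^ 2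
            rw [← mul_pow]
            exact pow_le_pow_left₀ (norm_nonneg _) (hLf x m) 2
      _ = Lf ^ 2 * ∫ x, ‖x - m‖ ^ 2 ∂(PP K δ y) := integral_const_mul _ _
      _ ≤ _ := by gcongr
  have h2 : |cv K δ (fun x => f x - F x) ψ y| ≤ δ ^ 2 * L * (Lf * (Real.sqrt n * δ)) := by
    apply abs_le_of_sq_le_sq _ (by positivity)
    have hgd : ContDiff ℝ 1 (fun x => f x - F x) := hf.sub F.contDiff
    have hfd : ∀ x, fderiv ℝ (fun x => f x - F x) x = fderiv ℝ f x - F := by
      intro x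
      rw [fderiv_fun_sub ((hf.differentiable one_ne_zero) x) F.differentiableAt, F.fderiv]
    have a1 := cv_sq_le hδ hK (hbf.sub hbF) hbψ y
    have a2 := PP_poincare hδ hK.conv hK.meas (Metric.isBounded_closedBall.subset hK.sub)
      hK.vol0 y hgd
    simp only [hfd] at a2
    have a3 : (∫ x, (f x - F x) ^ 2 ∂(PP K δ y)) - (∫ x, (f x - F x) ∂(PP K δ y)) ^ 2 ≤
        δ ^ 2 * (Lf ^ 2 * (n * δ ^ 2)) := a2.trans (by gcongr)
    calc _ ≤ _ := a1
      _ ≤ (δ ^ 2 * (Lf ^ 2 * (n * δ ^ 2))) * (δ ^ 2 * L ^ 2) :=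
          mul_le_mul a3 hvψ hvψ0 (by positivity)
      _ = (δ ^ 2 * L * (Lf * (Real.sqrt n * δ))) ^ 2 := by
          have : Real.sqrt n ^ 2 = n := Real.sq_sqrt hn0
          calc _ = δ ^ 4 * L ^ 2 * Lf ^ 2 * δ ^ 2 * n := by ring
            _ = δ ^ 4 * L ^ 2 * Lf ^ 2 * δ ^ 2 * Real.sqrt n ^ 2 := by rw [this]
            _ = _ := by ring
  have h3 : ‖F‖ ≤ avg K δ (fun x => ‖fderiv ℝ f x‖) y + Lf * (Real.sqrt n * δ) := by
    have b1 : BM K (fun x => ‖fderiv ℝ f x‖) := hK.bm_of_cont (by fun_prop)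
    have b2 : BM K (fun x => ‖fderiv ℝ f x - F‖) := hK.bm_of_cont (by fun_prop)
    have c1 : ‖F‖ ≤ ∫ x, (‖fderiv ℝ f x‖ + ‖fderiv ℝ f x - F‖) ∂(PP K δ y) := by
      have : ‖F‖ = ∫ x, ‖F‖ ∂(PP K δ y) := by simp
      rw [this]
      apply integral_mono (integrable_const _)
        ((b1.integrable_PP hδ hK y).add (b2.integrable_PP hδ hK y))
      intro x
      calc ‖F‖ = ‖fderiv ℝ f x - (fderiv ℝ f x - F)‖ := by congr 1; abel
        _ ≤ _ := norm_sub_le _ _
    rw [integral_add (b1.integrable_PP hδ hK y) (b2.integrable_PP hδ hK y),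
      integral_PP hδ hK.meas hK.vol0] at c1
    have c2 : ∫ x, ‖fderiv ℝ f x - F‖ ∂(PP K δ y) ≤ Lf * (Real.sqrt n * δ) := by
      apply le_of_sq_le_sq _ (by positivity)
      calc _ ≤ _ := sq_integral_le (b2.memLp_PP hδ hK y)
        _ ≤ _ := hrem
        _ = _ := by
          have : Real.sqrt n ^ 2 = n := Real.sq_sqrt hn0
          calc _ = Lf ^ 2 * δ ^ 2 * n := by ring
            _ = Lf ^ 2 * δ ^ 2 * Real.sqrt n ^ 2 := by rw [this]
            _ = _ := by ring
    linarith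
  rw [hdec]
  calc |cv K δ (fun x => F x) ψ y + cv K δ (fun x => f x - F x) ψ y|
      ≤ |cv K δ (fun x => F x) ψ y| + |cv K δ (fun x => f x - F x) ψ y| := abs_add_le _ _
    _ ≤ δ ^ 2 * L * ‖F‖ + δ ^ 2 * L * (Lf * (Real.sqrt n * δ)) := add_le_add h1 h2
    _ ≤ δ ^ 2 * L * (avg K δ (fun x => ‖fderiv ℝ f x‖) y + Lf * (Real.sqrt n * δ)) +
        δ ^ 2 * L * (Lf * (Real.sqrt n * δ)) := by gcongr
    _ = _ := by ring

end

end Pool.Agent.H84
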