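import Pool.Agent.H84.Duality

/-!
# The `L^1` smoothing theorem on bounded convex sets
-/

set_option autoImplicit false
set_option linter.unusedSectionVars false
set_option linter.unusedVariables false
set_option linter.style.haveILetI false

open MeasureTheory Set Filter Topology
open scoped ENNReal NNReal

namespace Pool.Agent.H84

variable {E : Type*} [NormedAddCommGroup E] [InnerProductSpace ℝ E]
    [FiniteDimensional ℝ E] [MeasurableSpace E] [BorelSpace E]

variable {K : Set E} {R δ : ℝ}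

section

variable (hδ : 0 < δ) (hK : CB K R)
include hδ hK

theorem integrable_avg_ww {f : E → ℝ} (hf : BM K f) :
    Integrable (fun y => avg K δ f y * ww K δ y) := by
  obtain ⟨M, h1, h2, -⟩ := avg_props hδ hK hf
  exact integrable_mul_ww hδ hK h1.continuous.measurable h2

theorem integrable_cv_ww {f ψ : E → ℝ} (hf : BM K f) (hψ : BM K ψ) :
    Integrable (fun y => cv K δ f ψ y * ww K δ y) := by
  obtain ⟨M, h1, h2, -⟩ := avg_props hδ hK hf
  obtain ⟨N, h1', h2', -⟩ := avg_props hδ hK hψ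
  have i1 := integrable_avg_ww hδ hK (hf.mul hψ)
  have i2 : Integrable (fun y => (avg K δ f y * avg K δ ψ y) * ww K δ y) := by
    apply integrable_mul_ww hδ hK (h1.continuous.measurable.mul h1'.continuous.measurable)
      (M := M * N)
    intro x
    rw [Pi.mul_apply, abs_mul]
    exact mul_le_mul (h2 x) (h2' x) (abs_nonneg _) ((abs_nonneg _).trans (h2 x))
  have : (fun y => cv K δ f ψ y * ww K δ y) = fun y =>
      avg K δ (fun x => f x * ψ x) y * ww K δ y - (avg K δ f y * avg K δ ψ y) * ww K δ y := by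
    ext y
    rw [cv, sub_mul]
  rw [this]
  exact i1.sub i2

theorem dirichlet_bound0 {f φ : E → ℝ} (hf : ContDiff ℝ 1 f) {L : ℝ} (hL0 : 0 ≤ L)
    (hL : ∀ x ∈ K, ‖fderiv ℝ f x‖ ≤ L) (hφ : Measurable φ) (hφ1 : ∀ x ∈ K, |φ x| ≤ 1) :
    ∫ x in K, (f x - Qop K δ f x) * φ x ≤ δ * L * volume.real K := by
  have hb : BM K φ := ⟨hφ, 1, hφ1⟩
  have hbf : BM K f := hK.bm_of_cont hf.continuous
  rw [dirichlet_eq hδ hK hbf hb]
  have h2 : ∫ y, (δ * L) * ww K δ y = δ * L * volume.real K := by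
    rw [integral_const_mul, integral_ww hδ hK]
  rw [← h2]
  apply integral_mono (integrable_cv_ww hδ hK hbf hb) ((integrable_ww hδ hK).const_mul _)
  intro y
  apply mul_le_mul_of_nonneg_right _ (ww_pos hδ hK y).le
  exact (le_abs_self _).trans (cv_bound0 hδ hK hf hL0 hL hφ hφ1 y)

theorem dirichlet_bound1 {f ψ : E → ℝ} (hf : ContDiff ℝ 1 f) {Lf : ℝ} (hLf0 : 0 ≤ Lf)
    (hLf : ∀ x z, ‖fderiv ℝ f x - fderiv ℝ f z‖ ≤ Lf * ‖x - z‖)
    (hψ : ContDiff ℝ 1 ψ) {L : ℝ} (hL0 : 0 ≤ L)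
    (hL : ∀ x ∈ K, ‖fderiv ℝ ψ x‖ ≤ L) :
    ∫ x in K, (f x - Qop K δ f x) * ψ x ≤ δ ^ 2 * L * ((∫ x in K, ‖fderiv ℝ f x‖) +
      2 * (Lf * (Real.sqrt (Module.finrank ℝ E) * δ)) * volume.real K) := by
  have hb : BM K ψ := hK.bm_of_cont hψ.continuous
  have hbf : BM K f := hK.bm_of_cont hf.continuous
  have hcf : Continuous (fderiv ℝ f) := hf.continuous_fderiv one_ne_zero
  have hg : BM K (fun x => ‖fderiv ℝ f x‖) := hK.bm_of_cont (by fun_prop)
  rw [dirichlet_eq hδ hK hbf hb]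
  set c := 2 * (Lf * (Real.sqrt (Module.finrank ℝ E) * δ)) with hc
  have h2 : ∫ y, δ ^ 2 * L * (avg K δ (fun x => ‖fderiv ℝ f x‖) y * ww K δ y + c * ww K δ y) =
      δ ^ 2 * L * ((∫ x in K, ‖fderiv ℝ f x‖) + c * volume.real K) := by
    rw [integral_const_mul, integral_add (integrable_avg_ww hδ hK hg)
      ((integrable_ww hδ hK).const_mul _), integral_const_mul, integral_ww hδ hK,
      integral_avg_ww hδ hK hg]
  rw [← h2]
  apply integral_mono (integrable_cv_ww hδ hK hbf hb)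
    (((integrable_avg_ww hδ hK hg).add ((integrable_ww hδ hK).const_mul _)).const_mul _)
  intro y
  have h3 := (le_abs_self _).trans (cv_bound1 hδ hK hf hLf0 hLf hψ hL0 hL y)
  calc cv K δ f ψ y * ww K δ y ≤ (δ ^ 2 * L * (avg K δ (fun x => ‖fderiv ℝ f x‖) y + c)) *
        ww K δ y := mul_le_mul_of_nonneg_right h3 (ww_pos hδ hK y).le
    _ = _ := by simp only [Pi.add_apply]; ring

/-- Gradient of the iterates of a function bounded by one. -/
theorem grad_iter_le {φ : E → ℝ} (hφ : Measurable φ) (hφ1 : ∀ x ∈ K, |φ x| ≤ 1) (j : ℕ)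
    {x : E} (hx : x ∈ K) :
    ‖fderiv ℝ ((Qop K δ)^[j + 1] φ) x‖ ≤ (δ * Real.sqrt (j + 1))⁻¹ := by
  have hb : BM K φ := ⟨hφ, 1, hφ1⟩
  have h1 := grad_iter hδ hK hb j x
  have h2 : (Qop K δ)^[j + 1] (fun x => φ x ^ 2) x ≤ 1 := by
    refine (le_abs_self _).trans (abs_iter_le hδ hK (fun z hz => ?_) (j + 1) x hx)
    rw [abs_pow]
    exact pow_le_one₀ (abs_nonneg _) (hφ1 z hz)
  have h3 : 0 ≤ ((Qop K δ)^[j + 1] φ x) ^ 2 := sq_nonneg _
  have h4 : (j + 1 : ℝ) * δ ^ 2 * ‖fderiv ℝ ((Qop K δ)^[j + 1] φ) x‖ ^ 2 ≤ 1 := by linarith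
  have hs : 0 < Real.sqrt (j + 1) := Real.sqrt_pos.2 (by positivity)
  apply le_of_sq_le_sq _ (by positivity)
  rw [inv_pow, mul_pow, Real.sq_sqrt (by positivity), ← one_div, le_div_iff₀ (by positivity)]
  calc _ = (j + 1 : ℝ) * δ ^ 2 * ‖fderiv ℝ ((Qop K δ)^[j + 1] φ) x‖ ^ 2 := by ring
    _ ≤ 1 := h4

theorem sum_bound {f φ : E → ℝ} (hf : ContDiff ℝ 1 f) {L Lf : ℝ} (hL0 : 0 ≤ L)
    (hL : ∀ x ∈ K, ‖fderiv ℝ f x‖ ≤ L) (hLf0 : 0 ≤ Lf)
    (hLf : ∀ x z, ‖fderiv ℝ f x - fderiv ℝ f z‖ ≤ Lf * ‖x - z‖)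
    (hφ : Measurable φ) (hφ1 : ∀ x ∈ K, |φ x| ≤ 1) (N : ℕ) :
    ∫ x in K, (f x - (Qop K δ)^[N + 1] f x) * φ x ≤ δ * L * volume.real K +
      2 * δ * Real.sqrt N * ((∫ x in K, ‖fderiv ℝ f x‖) +
      2 * (Lf * (Real.sqrt (Module.finrank ℝ E) * δ)) * volume.real K) := by
  have hb : BM K φ := ⟨hφ, 1, hφ1⟩
  have hbf : BM K f := hK.bm_of_cont hf.continuous
  set X := (∫ x in K, ‖fderiv ℝ f x‖) +
      2 * (Lf * (Real.sqrt (Module.finrank ℝ E) * δ)) * volume.real K with hX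
  have hX0 : 0 ≤ X := by
    have : 0 ≤ ∫ x in K, ‖fderiv ℝ f x‖ := integral_nonneg fun x => norm_nonneg _
    positivity
  induction N with
  | zero =>
    simp only [Function.iterate_succ_apply', Function.iterate_zero, id, Nat.cast_zero,
      Real.sqrt_zero, mul_zero, zero_mul, add_zero]
    exact dirichlet_bound0 hδ hK hf hL0 hL hφ hφ1
  | succ N ih =>
    have hstep : ∫ x in K, (f x - (Qop K δ)^[N + 1 + 1] f x) * φ x =
        (∫ x in K, (f x - (Qop K δ)^[N + 1] f x) * φ x) +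
        ∫ x in K, (f x - Qop K δ f x) * (Qop K δ)^[N + 1] φ x := by
      have i1 := (hbf.mul hb).integrableOn hK
      have i2 := ((bm_iter hδ hK hbf (N + 1)).mul hb).integrableOn hK
      have i3 := ((bm_iter hδ hK hbf (N + 1 + 1)).mul hb).integrableOn hK
      have i4 := (hbf.mul (bm_iter hδ hK hb (N + 1))).integrableOn hK
      have i5 := ((bm_Qop hδ hK hbf).mul (bm_iter hδ hK hb (N + 1))).integrableOn hK
      simp only [sub_mul]
      rw [integral_sub i1 i3, integral_sub i1 i2, integral_sub i4 i5]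
      have e1 := iter_symm hδ hK hbf hb (N + 1)
      have e2 := iter_symm hδ hK (bm_Qop hδ hK hbf) hb (N + 1)
      rw [← Function.iterate_succ_apply] at e2
      rw [e1, e2]
      ring
    rw [hstep]
    have hψ : ContDiff ℝ 1 ((Qop K δ)^[N + 1] φ) := contDiff_iter hδ hK hb N
    have hs : 0 < Real.sqrt (N + 1) := Real.sqrt_pos.2 (by positivity)
    have h2 := dirichlet_bound1 hδ hK hf hLf0 hLf hψ (L := (δ * Real.sqrt (N + 1))⁻¹)
      (by positivity) (fun x hx => grad_iter_le hδ hK hφ hφ1 N hx)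
    rw [← hX] at h2
    have h3 : δ ^ 2 * (δ * Real.sqrt (N + 1))⁻¹ * X = δ * (Real.sqrt (N + 1))⁻¹ * X := by
      field_simp
    rw [h3] at h2
    have h4 : 2 * Real.sqrt N + (Real.sqrt (N + 1))⁻¹ ≤ 2 * Real.sqrt (N + 1) := by
      have ha : Real.sqrt N ^ 2 = N := Real.sq_sqrt (by positivity)
      have hb' : Real.sqrt (N + 1) ^ 2 = N + 1 := Real.sq_sqrt (by positivity)
      have hc : 0 ≤ Real.sqrt N := Real.sqrt_nonneg _
      have hd : (2 * Real.sqrt N + (Real.sqrt (N + 1))⁻¹) * Real.sqrt (N + 1) ≤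
          (2 * Real.sqrt (N + 1)) * Real.sqrt (N + 1) := by
        rw [add_mul, inv_mul_cancel₀ hs.ne']
        nlinarith [sq_nonneg (Real.sqrt (N + 1) - Real.sqrt N)]
      exact le_of_mul_le_mul_right hd hs
    push_cast
    have h5 : 2 * δ * Real.sqrt N * X + δ * (Real.sqrt (N + 1))⁻¹ * X ≤
        2 * δ * Real.sqrt (N + 1) * X := by
      have : (2 * Real.sqrt N + (Real.sqrt (N + 1))⁻¹) * (δ * X) ≤
        2 * Real.sqrt (N + 1) * (δ * X) := mul_le_mul_of_nonneg_right h4 (by positivity)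
      linarith
    linarith

end

/-- **The `L¹` smoothing theorem.** -/
theorem smoothing (hK : CB K R) {f : E → ℝ} (hf : ContDiff ℝ 1 f) {Lf : ℝ}
    (hLf : ∀ x z, ‖fderiv ℝ f x - fderiv ℝ f z‖ ≤ Lf * ‖x - z‖)
    (hf1 : ∀ x ∈ K, |f x| ≤ 1) {t : ℝ} (ht : 0 < t) {ε : ℝ} (hε : 0 < ε) :
    ∃ g : E → ℝ, ContDiff ℝ 1 g ∧ (∀ x ∈ K, ‖fderiv ℝ g x‖ ≤ 1 / Real.sqrt t) ∧
      ∫ x in K, |f x - g x| ≤ 2 * Real.sqrt t * (∫ x in K, ‖fderiv ℝ f x‖) + ε := by
  have hcf : Continuous (fderiv ℝ f) := hf.continuous_fderiv one_ne_zero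
  obtain ⟨L, hL⟩ := hK.bdd_of_cont (f := fun x => ‖fderiv ℝ f x‖) (by fun_prop)
  have hL' : ∀ x ∈ K, ‖fderiv ℝ f x‖ ≤ |L| := fun x hx =>
    ((le_abs_self _).trans (hL x hx)).trans (le_abs_self _)
  have hLf' : ∀ x z, ‖fderiv ℝ f x - fderiv ℝ f z‖ ≤ |Lf| * ‖x - z‖ := fun x z =>
    (hLf x z).trans (mul_le_mul_of_nonneg_right (le_abs_self _) (norm_nonneg _))
  set n : ℝ := (Module.finrank ℝ E : ℝ) with hn
  set C : ℝ := |L| * volume.real K + 2 * Real.sqrt t * (2 * (|Lf| * Real.sqrt n) *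
    volume.real K) with hC
  have hC0 : 0 ≤ C := by positivity
  have hst : 0 < Real.sqrt t := Real.sqrt_pos.2 ht
  -- choose N
  obtain ⟨N, hN⟩ : ∃ N : ℕ, Real.sqrt (t / (N + 1)) * C ≤ ε := by
    have hlim : Tendsto (fun N : ℕ => Real.sqrt (t / ((N:ℝ) + 1)) * C) atTop (𝓝 (0 * C)) := by
      apply Tendsto.mul_const
      rw [← Real.sqrt_zero]
      apply (Real.continuous_sqrt.tendsto 0).comp
      exact tendsto_const_div_atTop_nhds_zero_nat t |>.comp (tendsto_add_atTop_nat 1) |>.congr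
        (fun n => by simp)
    rw [zero_mul] at hlim
    obtain ⟨N, hN⟩ := (hlim.eventually_le_const hε).exists
    exact ⟨N, hN⟩
  set δ := Real.sqrt (t / (N + 1)) with hδdef
  have hδ : 0 < δ := Real.sqrt_pos.2 (by positivity)
  have hδ2 : δ ^ 2 = t / (N + 1) := Real.sq_sqrt (by positivity)
  have hbf : BM K f := hK.bm_of_cont hf.continuous
  set g := (Qop K δ)^[N + 1] f with hg
  have hgc : ContDiff ℝ 1 g := contDiff_iter hδ hK hbf N
  have hprod : δ * Real.sqrt (N + 1) = Real.sqrt t := by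
    rw [hδdef, ← Real.sqrt_mul (by positivity)]
    congr 1
    field_simp
  refine ⟨g, hgc, ?_, ?_⟩
  · intro x hx
    have := grad_iter_le hδ hK hf.continuous.measurable hf1 N hx
    rwa [hprod, ← one_div] at this
  · -- test against the sign
    set φ : E → ℝ := fun x => if 0 ≤ f x - g x then 1 else -1 with hφdef
    have hφm : Measurable φ := by
      apply Measurable.ite _ measurable_const measurable_const
      exact measurableSet_le measurable_const
        (hf.continuous.measurable.sub hgc.continuous.measurable)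
    have hφ1 : ∀ x ∈ K, |φ x| ≤ 1 := by
      intro x _
      simp only [hφdef]
      split_ifs <;> simp
    have hφe : ∀ x, |f x - g x| = (f x - g x) * φ x := by
      intro x
      simp only [hφdef]
      split_ifs with h
      · rw [abs_of_nonneg h, mul_one]
      · rw [abs_of_neg (not_le.1 h)]; ring
    simp only [hφe]
    have hmain := sum_bound hδ hK hf (abs_nonneg L) hL' (abs_nonneg Lf) hLf' hφm hφ1 N
    rw [← hg, ← hn] at hmain
    have hI0 : 0 ≤ ∫ x in K, ‖fderiv ℝ f x‖ := integral_nonneg fun x => norm_nonneg _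
    have hle : δ * Real.sqrt N ≤ Real.sqrt t := by
      rw [← hprod]
      gcongr
      linarith
    have hNn : 0 ≤ Real.sqrt N := Real.sqrt_nonneg _
    calc ∫ x in K, (f x - g x) * φ x ≤ δ * |L| * volume.real K +
        2 * δ * Real.sqrt N * ((∫ x in K, ‖fderiv ℝ f x‖) +
        2 * (|Lf| * (Real.sqrt n * δ)) * volume.real K) := hmain
      _ = δ * |L| * volume.real K + 2 * (δ * Real.sqrt N) * ((∫ x in K, ‖fderiv ℝ f x‖) +
        2 * (|Lf| * (Real.sqrt n * δ)) * volume.real K) := by ring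
      _ ≤ δ * |L| * volume.real K + 2 * Real.sqrt t * ((∫ x in K, ‖fderiv ℝ f x‖) +
        2 * (|Lf| * (Real.sqrt n * δ)) * volume.real K) := by gcongr
      _ = 2 * Real.sqrt t * (∫ x in K, ‖fderiv ℝ f x‖) + δ * C := by rw [hC]; ring
      _ ≤ _ := by gcongr

end Pool.Agent.H84
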