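import Pool.Agent.H84.Smoothing

/-!
# The chain `Q`, its gradient bounds and the `L^1` smoothing theorem
-/

set_option autoImplicit false
set_option linter.unusedSectionVars false
set_option linter.unusedVariables false
set_option linter.style.haveILetI false

open MeasureTheory Set Filter Topology
open scoped ENNReal NNReal

namespace Pool.Agent.H84

variable {E : Type*} [NormedAddCommGroup E] [InnerProductSpace ℝ E]
    [FiniteDimensional ℝ E] [MeasurableSpace E] [BorelSpace E]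

/-- Bounded convex sets of positive volume. -/
structure CB (K : Set E) (R : ℝ) : Prop where
  conv : Convex ℝ K
  meas : MeasurableSet K
  sub : K ⊆ Metric.closedBall 0 R
  vol0 : volume K ≠ 0

variable {K : Set E} {R δ : ℝ}

theorem CB.lt_top (hK : CB K R) : volume K < ⊤ :=
  (measure_mono hK.sub).trans_lt (isCompact_closedBall (0:E) R).measure_lt_top

theorem CB.bdd_of_cont (hK : CB K R) {f : E → ℝ} (hf : Continuous f) :
    ∃ M, ∀ x ∈ K, |f x| ≤ M := by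
  obtain ⟨M, hM⟩ := (isCompact_closedBall (0:E) R).exists_bound_of_continuousOn hf.continuousOn
  exact ⟨M, fun x hx => hM x (hK.sub hx)⟩

/-- Functions which are measurable and bounded on `K`. -/
def BM (K : Set E) (ψ : E → ℝ) : Prop := Measurable ψ ∧ ∃ M, ∀ x ∈ K, |ψ x| ≤ M

theorem CB.bm_of_cont (hK : CB K R) {f : E → ℝ} (hf : Continuous f) : BM K f :=
  ⟨hf.measurable, hK.bdd_of_cont hf⟩

theorem BM.sq {ψ : E → ℝ} (h : BM K ψ) : BM K (fun x => ψ x ^ 2) := by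
  obtain ⟨h1, M, hM⟩ := h
  refine ⟨h1.pow_const 2, M ^ 2, fun x hx => ?_⟩
  rw [abs_pow]
  exact pow_le_pow_left₀ (abs_nonneg _) (hM x hx) 2

theorem BM.mul {ψ φ : E → ℝ} (h : BM K ψ) (h' : BM K φ) : BM K (fun x => ψ x * φ x) := by
  obtain ⟨h1, M, hM⟩ := h
  obtain ⟨h1', M', hM'⟩ := h'
  refine ⟨h1.mul h1', M * M', fun x hx => ?_⟩
  rw [abs_mul]
  exact mul_le_mul (hM x hx) (hM' x hx) (abs_nonneg _) ((abs_nonneg _).trans (hM x hx))

theorem BM.sub {ψ φ : E → ℝ} (h : BM K ψ) (h' : BM K φ) : BM K (fun x => ψ x - φ x) := by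
  obtain ⟨h1, M, hM⟩ := h
  obtain ⟨h1', M', hM'⟩ := h'
  refine ⟨h1.sub h1', M + M', fun x hx => ?_⟩
  exact (abs_sub _ _).trans (add_le_add (hM x hx) (hM' x hx))

theorem BM.add {ψ φ : E → ℝ} (h : BM K ψ) (h' : BM K φ) : BM K (fun x => ψ x + φ x) := by
  obtain ⟨h1, M, hM⟩ := h
  obtain ⟨h1', M', hM'⟩ := h'
  refine ⟨h1.add h1', M + M', fun x hx => ?_⟩
  exact (abs_add_le _ _).trans (add_le_add (hM x hx) (hM' x hx))

theorem BM.const_mul {ψ : E → ℝ} (h : BM K ψ) (c : ℝ) : BM K (fun x => c * ψ x) := by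
  obtain ⟨h1, M, hM⟩ := h
  refine ⟨h1.const_mul c, |c| * M, fun x hx => ?_⟩
  rw [abs_mul]
  exact mul_le_mul_of_nonneg_left (hM x hx) (abs_nonneg _)

theorem BM.integrable_PP (hδ : 0 < δ) (hK : CB K R) {ψ : E → ℝ} (h : BM K ψ) (y : E) :
    Integrable ψ (PP K δ y) := by
  obtain ⟨h1, M, hM⟩ := h
  exact Pool.Agent.H84.integrable_PP hδ hK.meas hK.vol0 y h1 hM

theorem BM.memLp_PP (hδ : 0 < δ) (hK : CB K R) {ψ : E → ℝ} (h : BM K ψ) (y : E) :
    MemLp ψ 2 (PP K δ y) := by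
  obtain ⟨h1, M, hM⟩ := h
  exact Pool.Agent.H84.memLp_PP hδ hK.meas hK.vol0 y h1 hM 2

theorem BM.integrableOn (hK : CB K R) {ψ : E → ℝ} (h : BM K ψ) : IntegrableOn ψ K := by
  obtain ⟨h1, M, hM⟩ := h
  haveI : IsFiniteMeasure (volume.restrict K) := ⟨by simpa using hK.lt_top⟩
  apply Integrable.of_bound (C := M) h1.aestronglyMeasurable
  filter_upwards [ae_restrict_mem hK.meas] with x hx
  exact hM x hx

/-- The Markov operator. -/
noncomputable def Qop (K : Set E) (δ : ℝ) (ψ : E → ℝ) : E → ℝ := Aop δ (avg K δ ψ)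

section avgfacts

variable (hδ : 0 < δ) (hK : CB K R)
include hδ hK

theorem avg_props {ψ : E → ℝ} (h : BM K ψ) : ∃ M, ContDiff ℝ 1 (avg K δ ψ) ∧
    (∀ x, |avg K δ ψ x| ≤ M) ∧ (∀ x, ‖fderiv ℝ (avg K δ ψ) x‖ ≤ M / δ) := by
  obtain ⟨h1, M, hM⟩ := h
  have hb := fun x => abs_avg_le hδ hK.meas hK.vol0 hM x
  have hM0 : 0 ≤ M := (abs_nonneg _).trans (hb 0)
  refine ⟨M, contDiff_avg hδ hK.meas hK.sub hK.vol0 h1 hM, hb, ?_⟩
  intro x
  haveI := isProb_PP hδ hK.meas hK.vol0 x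
  have h2 := norm_fderiv_avg_sq_le_var hδ hK.conv hK.meas hK.sub hK.vol0 h1 hM x
  have h3 : ∫ z, ψ z ^ 2 ∂(PP K δ x) ≤ M ^ 2 := by
    have := abs_avg_le (δ := δ) hδ hK.meas hK.vol0 (ψ := fun z => ψ z ^ 2) (M := M ^ 2)
      (fun z hz => by rw [abs_pow]; exact pow_le_pow_left₀ (abs_nonneg _) (hM z hz) 2) x
    rw [integral_PP hδ hK.meas hK.vol0]
    exact (le_abs_self _).trans this
  have h4 : ‖fderiv ℝ (avg K δ ψ) x‖ ^ 2 ≤ (M / δ) ^ 2 := by
    refine h2.trans ?_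
    rw [div_pow, div_eq_inv_mul]
    have : 0 ≤ (∫ z, ψ z ∂(PP K δ x)) ^ 2 := sq_nonneg _
    have h5 : (∫ z, ψ z ^ 2 ∂(PP K δ x)) - (∫ z, ψ z ∂(PP K δ x)) ^ 2 ≤ M ^ 2 := by linarith
    have h6 : 0 ≤ (δ ^ 2)⁻¹ := by positivity
    exact mul_le_mul_of_nonneg_left h5 h6
  exact le_of_sq_le_sq h4 (by positivity)

theorem avg_add {f g : E → ℝ} (hf : BM K f) (hg : BM K g) (y : E) :
    avg K δ (fun x => f x + g x) y = avg K δ f y + avg K δ g y := by
  rw [← integral_PP hδ hK.meas hK.vol0, ← integral_PP hδ hK.meas hK.vol0,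
    ← integral_PP hδ hK.meas hK.vol0]
  exact integral_add (hf.integrable_PP hδ hK y) (hg.integrable_PP hδ hK y)

theorem avg_sub {f g : E → ℝ} (hf : BM K f) (hg : BM K g) (y : E) :
    avg K δ (fun x => f x - g x) y = avg K δ f y - avg K δ g y := by
  rw [← integral_PP hδ hK.meas hK.vol0, ← integral_PP hδ hK.meas hK.vol0,
    ← integral_PP hδ hK.meas hK.vol0]
  exact integral_sub (hf.integrable_PP hδ hK y) (hg.integrable_PP hδ hK y)

theorem avg_const_mul (f : E → ℝ) (c : ℝ) (y : E) :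
    avg K δ (fun x => c * f x) y = c * avg K δ f y := by
  rw [← integral_PP hδ hK.meas hK.vol0, ← integral_PP hδ hK.meas hK.vol0, integral_const_mul]

theorem avg_le_avg {f g : E → ℝ} (hf : BM K f) (hg : BM K g) (h : ∀ x ∈ K, f x ≤ g x) (y : E) :
    avg K δ f y ≤ avg K δ g y :=
  avg_mono hδ hK.meas hK.vol0 y (hf.integrable_PP hδ hK y) (hg.integrable_PP hδ hK y) h

theorem avg_sq_le {f : E → ℝ} (hf : BM K f) (y : E) :
    (avg K δ f y) ^ 2 ≤ avg K δ (fun x => f x ^ 2) y := by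
  haveI := isProb_PP hδ hK.meas hK.vol0 y
  rw [← integral_PP hδ hK.meas hK.vol0, ← integral_PP hδ hK.meas hK.vol0]
  exact sq_integral_le (hf.memLp_PP hδ hK y)

omit hK in
theorem Aop_add {f g : E → ℝ} (hf : Measurable f) (hg : Measurable g) {M N : ℝ}
    (hM : ∀ x, |f x| ≤ M) (hN : ∀ x, |g x| ≤ N) (y : E) :
    Aop δ (fun x => f x + g x) y = Aop δ f y + Aop δ g y := by
  rw [Aop, Aop, Aop, ← integral_PP hδ MeasurableSet.univ vol_univ_ne,
    ← integral_PP hδ MeasurableSet.univ vol_univ_ne,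
    ← integral_PP hδ MeasurableSet.univ vol_univ_ne]
  exact integral_add (integrable_PP_univ hδ hf hM y) (integrable_PP_univ hδ hg hN y)

omit hK in
theorem Aop_sub {f g : E → ℝ} (hf : Measurable f) (hg : Measurable g) {M N : ℝ}
    (hM : ∀ x, |f x| ≤ M) (hN : ∀ x, |g x| ≤ N) (y : E) :
    Aop δ (fun x => f x - g x) y = Aop δ f y - Aop δ g y := by
  rw [Aop, Aop, Aop, ← integral_PP hδ MeasurableSet.univ vol_univ_ne,
    ← integral_PP hδ MeasurableSet.univ vol_univ_ne,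
    ← integral_PP hδ MeasurableSet.univ vol_univ_ne]
  exact integral_sub (integrable_PP_univ hδ hf hM y) (integrable_PP_univ hδ hg hN y)

omit hK in
theorem Aop_const_mul (f : E → ℝ) (c : ℝ) (y : E) :
    Aop δ (fun x => c * f x) y = c * Aop δ f y := by
  rw [Aop, Aop, ← integral_PP hδ MeasurableSet.univ vol_univ_ne,
    ← integral_PP hδ MeasurableSet.univ vol_univ_ne, integral_const_mul]

omit hK in
theorem Aop_mono {f g : E → ℝ} (hf : Measurable f) (hg : Measurable g) {M N : ℝ}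
    (hM : ∀ x, |f x| ≤ M) (hN : ∀ x, |g x| ≤ N) (h : ∀ x, f x ≤ g x) (y : E) :
    Aop δ f y ≤ Aop δ g y := by
  rw [Aop, Aop, ← integral_PP hδ MeasurableSet.univ vol_univ_ne,
    ← integral_PP hδ MeasurableSet.univ vol_univ_ne]
  exact integral_mono (integrable_PP_univ hδ hf hM y) (integrable_PP_univ hδ hg hN y) h

omit hK in
theorem Aop_sq_le {f : E → ℝ} (hf : Measurable f) {M : ℝ} (hM : ∀ x, |f x| ≤ M) (y : E) :
    (Aop δ f y) ^ 2 ≤ Aop δ (fun x => f x ^ 2) y := by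
  haveI := isProb_PP (K := (univ : Set E)) hδ MeasurableSet.univ vol_univ_ne y
  rw [Aop, Aop, ← integral_PP hδ MeasurableSet.univ vol_univ_ne,
    ← integral_PP hδ MeasurableSet.univ vol_univ_ne]
  exact sq_integral_le (memLp_PP hδ MeasurableSet.univ vol_univ_ne y hf (fun x _ => hM x) 2)

omit hK in
theorem abs_Aop_le {f : E → ℝ} {M : ℝ} (hM : ∀ x, |f x| ≤ M) (y : E) :
    |Aop δ f y| ≤ M := abs_avg_le hδ MeasurableSet.univ vol_univ_ne (fun x _ => hM x) y

/-! ### Properties of `Q` -/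

theorem contDiff_Qop {ψ : E → ℝ} (h : BM K ψ) : ContDiff ℝ 1 (Qop K δ ψ) := by
  obtain ⟨M, h1, h2, h3⟩ := avg_props hδ hK h
  exact contDiff_Aop hδ h1 h2 h3

theorem bm_Qop {ψ : E → ℝ} (h : BM K ψ) : BM K (Qop K δ ψ) :=
  hK.bm_of_cont (contDiff_Qop hδ hK h).continuous

theorem abs_Qop_le {ψ : E → ℝ} {M : ℝ} (hM : ∀ x ∈ K, |ψ x| ≤ M) (x : E) :
    |Qop K δ ψ x| ≤ M :=
  abs_Aop_le hδ (fun y => abs_avg_le hδ hK.meas hK.vol0 hM y) x

theorem Qop_sub {f g : E → ℝ} (hf : BM K f) (hg : BM K g) (x : E) :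
    Qop K δ (fun x => f x - g x) x = Qop K δ f x - Qop K δ g x := by
  obtain ⟨M, h1, h2, -⟩ := avg_props hδ hK hf
  obtain ⟨N, h1', h2', -⟩ := avg_props hδ hK hg
  have : avg K δ (fun x => f x - g x) = fun y => avg K δ f y - avg K δ g y := by
    ext y; exact avg_sub hδ hK hf hg y
  rw [Qop, this, Aop_sub hδ h1.continuous.measurable h1'.continuous.measurable h2 h2']
  rfl

theorem Qop_const_mul (f : E → ℝ) (c : ℝ) (x : E) :
    Qop K δ (fun x => c * f x) x = c * Qop K δ f x := by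
  have : avg K δ (fun x => c * f x) = fun y => c * avg K δ f y := by
    ext y; exact avg_const_mul hδ hK f c y
  rw [Qop, this, Aop_const_mul hδ]
  rfl

theorem Qop_mono {f g : E → ℝ} (hf : BM K f) (hg : BM K g) (h : ∀ x ∈ K, f x ≤ g x) (x : E) :
    Qop K δ f x ≤ Qop K δ g x := by
  obtain ⟨M, h1, h2, -⟩ := avg_props hδ hK hf
  obtain ⟨N, h1', h2', -⟩ := avg_props hδ hK hg
  exact Aop_mono hδ h1.continuous.measurable h1'.continuous.measurable h2 h2'
    (fun y => avg_le_avg hδ hK hf hg h y) x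

/-- Smoothing: gradient of `Q ψ` against the variance. -/
theorem fderiv_Qop_sq_le_var {ψ : E → ℝ} (h : BM K ψ) (x : E) :
    ‖fderiv ℝ (Qop K δ ψ) x‖ ^ 2 ≤
      (δ ^ 2)⁻¹ * (Qop K δ (fun x => ψ x ^ 2) x - Qop K δ ψ x ^ 2) := by
  obtain ⟨M, h1, h2, h3⟩ := avg_props hδ hK h
  obtain ⟨N, h1', h2', -⟩ := avg_props hδ hK h.sq
  have hcf : Continuous (fderiv ℝ (avg K δ ψ)) := h1.continuous_fderiv one_ne_zero
  obtain ⟨hm, M0, hM0⟩ := h
  have hM00 : 0 ≤ M := (abs_nonneg _).trans (h2 0)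
  have s1 := norm_fderiv_Aop_sq_le hδ h1 h2 h3 x
  have s2 : Aop δ (fun y => ‖fderiv ℝ (avg K δ ψ) y‖ ^ 2) x ≤
      Aop δ (fun y => (δ ^ 2)⁻¹ * (avg K δ (fun x => ψ x ^ 2) y - avg K δ ψ y ^ 2)) x := by
    refine Aop_mono hδ (M := (M / δ) ^ 2) (N := (δ ^ 2)⁻¹ * (N + M ^ 2)) (by fun_prop)
      ?_ ?_ ?_ ?_ x
    · have := h1.continuous.measurable
      have := h1'.continuous.measurable
      fun_prop
    · intro z
      rw [abs_of_nonneg (by positivity)]
      exact pow_le_pow_left₀ (norm_nonneg _) (h3 z) 2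
    · intro z
      rw [abs_mul, abs_of_nonneg (by positivity : 0 ≤ (δ ^ 2)⁻¹)]
      apply mul_le_mul_of_nonneg_left _ (by positivity)
      refine (abs_sub _ _).trans (add_le_add (h2' z) ?_)
      rw [abs_pow]
      exact pow_le_pow_left₀ (abs_nonneg _) (h2 z) 2
    · intro z
      have := norm_fderiv_avg_sq_le_var hδ hK.conv hK.meas hK.sub hK.vol0 hm hM0 z
      rwa [integral_PP hδ hK.meas hK.vol0, integral_PP hδ hK.meas hK.vol0] at this
  rw [Aop_const_mul hδ, Aop_sub hδ h1'.continuous.measurable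
    (h1.continuous.measurable.pow_const 2) h2' (N := M ^ 2) (fun z => by
      rw [abs_pow]; exact pow_le_pow_left₀ (abs_nonneg _) (h2 z) 2)] at s2
  have s3 := Aop_sq_le hδ h1.continuous.measurable h2 x
  refine s1.trans (s2.trans ?_)
  apply mul_le_mul_of_nonneg_left _ (by positivity)
  change Qop K δ (fun x => ψ x ^ 2) x - _ ≤ _
  have s4 : (Qop K δ ψ x) ^ 2 ≤ Aop δ (fun x => avg K δ ψ x ^ 2) x := s3
  linarith

/-- Contraction: gradient of `Q ψ` against the gradient of `ψ`. -/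
theorem fderiv_Qop_sq_le {ψ : E → ℝ} (h : ContDiff ℝ 1 ψ) (x : E) :
    ‖fderiv ℝ (Qop K δ ψ) x‖ ^ 2 ≤ Qop K δ (fun x => ‖fderiv ℝ ψ x‖ ^ 2) x := by
  have hb : BM K ψ := hK.bm_of_cont h.continuous
  have hcψ : Continuous (fderiv ℝ ψ) := h.continuous_fderiv one_ne_zero
  have hb' : BM K (fun x => ‖fderiv ℝ ψ x‖ ^ 2) := hK.bm_of_cont (by fun_prop)
  obtain ⟨M, h1, h2, h3⟩ := avg_props hδ hK hb
  obtain ⟨N, h1', h2', -⟩ := avg_props hδ hK hb'
  have hcf : Continuous (fderiv ℝ (avg K δ ψ)) := h1.continuous_fderiv one_ne_zero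
  have s1 := norm_fderiv_Aop_sq_le hδ h1 h2 h3 x
  refine s1.trans ?_
  refine Aop_mono hδ (M := (M / δ) ^ 2) (N := N) (by fun_prop) h1'.continuous.measurable ?_ h2'
    ?_ x
  · intro z
    rw [abs_of_nonneg (by positivity)]
    exact pow_le_pow_left₀ (norm_nonneg _) (h3 z) 2
  · intro z
    have := norm_fderiv_avg_sq_le hδ hK.conv hK.meas hK.sub hK.vol0 h z
    rwa [integral_PP hδ hK.meas hK.vol0] at this

/-- Iterates. -/
theorem bm_iter {φ : E → ℝ} (h : BM K φ) (j : ℕ) : BM K ((Qop K δ)^[j] φ) := by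
  induction j with
  | zero => exact h
  | succ j ih =>
    rw [Function.iterate_succ_apply']
    exact bm_Qop hδ hK ih

theorem contDiff_iter {φ : E → ℝ} (h : BM K φ) (j : ℕ) :
    ContDiff ℝ 1 ((Qop K δ)^[j + 1] φ) := by
  rw [Function.iterate_succ_apply']
  exact contDiff_Qop hδ hK (bm_iter hδ hK h j)

theorem abs_iter_le {φ : E → ℝ} {M : ℝ} (hM : ∀ x ∈ K, |φ x| ≤ M) (j : ℕ) :
    ∀ x ∈ K, |(Qop K δ)^[j] φ x| ≤ M := by
  induction j with
  | zero => exact hM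
  | succ j ih =>
    intro x _
    rw [Function.iterate_succ_apply']
    exact abs_Qop_le hδ hK ih x

/-- The key gradient estimate. -/
theorem grad_iter {φ : E → ℝ} (h : BM K φ) (j : ℕ) (x : E) :
    (j + 1 : ℝ) * δ ^ 2 * ‖fderiv ℝ ((Qop K δ)^[j + 1] φ) x‖ ^ 2 ≤
      (Qop K δ)^[j + 1] (fun x => φ x ^ 2) x - ((Qop K δ)^[j + 1] φ x) ^ 2 := by
  induction j generalizing x with
  | zero =>
    have := fderiv_Qop_sq_le_var hδ hK h x
    simp only [Function.iterate_succ_apply', Function.iterate_zero, id]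
    have h2 := mul_le_mul_of_nonneg_left this (by positivity : 0 ≤ δ ^ 2)
    rw [← mul_assoc, mul_inv_cancel₀ (by positivity), one_mul] at h2
    simpa using h2
  | succ j ih =>
    set u := (Qop K δ)^[j + 1] φ with hu
    set s := (Qop K δ)^[j + 1] (fun x => φ x ^ 2) with hs
    have hub : BM K u := bm_iter hδ hK h _
    have hsb : BM K s := bm_iter hδ hK h.sq _
    have huc : ContDiff ℝ 1 u := contDiff_iter hδ hK h j
    have hcu : Continuous (fderiv ℝ u) := huc.continuous_fderiv one_ne_zero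
    have e1 : (Qop K δ)^[j + 1 + 1] φ = Qop K δ u := by
      rw [Function.iterate_succ_apply']
    have e2 : (Qop K δ)^[j + 1 + 1] (fun x => φ x ^ 2) = Qop K δ s := by
      rw [Function.iterate_succ_apply']
    rw [e1, e2]
    have a1 := fderiv_Qop_sq_le_var hδ hK hub x
    have a1' : δ ^ 2 * ‖fderiv ℝ (Qop K δ u) x‖ ^ 2 ≤
        Qop K δ (fun x => u x ^ 2) x - Qop K δ u x ^ 2 := by
      have h2 := mul_le_mul_of_nonneg_left a1 (by positivity : 0 ≤ δ ^ 2)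
      rwa [← mul_assoc, mul_inv_cancel₀ (by positivity), one_mul] at h2
    have a2 := fderiv_Qop_sq_le hδ hK huc x
    have hgb : BM K (fun x => ‖fderiv ℝ u x‖ ^ 2) := hK.bm_of_cont (by fun_prop)
    have a3 : Qop K δ (fun x => (j + 1 : ℝ) * δ ^ 2 * ‖fderiv ℝ u x‖ ^ 2) x ≤
        Qop K δ (fun x => s x - u x ^ 2) x :=
      Qop_mono hδ hK (hgb.const_mul _) (hsb.sub hub.sq) (fun z _ => ih z) x
    rw [Qop_const_mul hδ hK, Qop_sub hδ hK hsb hub.sq] at a3
    have a4 : (j + 1 : ℝ) * δ ^ 2 * ‖fderiv ℝ (Qop K δ u) x‖ ^ 2 ≤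
        (j + 1 : ℝ) * δ ^ 2 * Qop K δ (fun x => ‖fderiv ℝ u x‖ ^ 2) x := by gcongr
    push_cast
    linarith

end avgfacts

end Pool.Agent.H84
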