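import Pool.Agent.H84.Blocks
import Pool.Agent.H84.KlsClass
import Pool.Agent.H69.KLS.TailExp

/-!
# Truncation of a rotation invariant body and the final theorem
-/

set_option autoImplicit false
set_option linter.unusedSectionVars false
set_option linter.unusedVariables false

open MeasureTheory Measure Set Filter Topology
open scoped ENNReal NNReal Pointwise

namespace Pool.Agent.H84

open Pool.H97.KLS

variable {p : ℕ} {m k : Fin p → ℕ}

/-- Inclusion of the block of index `l`, as a linear map. -/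
noncomputable def inclL (l : Fin p) : Mat (m l) (k l) →ₗ[ℝ] BMat p m k where
  toFun Y := ∑ q, Y q • EuclideanSpace.single (⟨l, q⟩ : Σ l : Fin p, Fin (m l) × Fin (k l)) (1:ℝ)
  map_add' X Y := by simp [add_smul, Finset.sum_add_distrib]
  map_smul' c X := by simp [mul_smul, Finset.smul_sum]

theorem inner_inclL (l : Fin p) (Y : Mat (m l) (k l)) (X : BMat p m k) :
    inner ℝ (inclL l Y) X = inner ℝ Y (blk l X) := by
  show inner ℝ (∑ q, Y q • EuclideanSpace.single
    (⟨l, q⟩ : Σ l : Fin p, Fin (m l) × Fin (k l)) (1:ℝ)) X = _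
  simp only [sum_inner, inner_smul_left, EuclideanSpace.inner_single_left, conj_trivial,
    map_one, one_mul]
  simp only [PiLp.inner_apply, RCLike.inner_apply, conj_trivial, blk_apply]
  exact Finset.sum_congr rfl fun q _ => mul_comm _ _

theorem blk_inclL (l : Fin p) (Y : Mat (m l) (k l)) : blk l (inclL l Y : BMat p m k) = Y := by
  ext q
  rw [blk_apply]
  show (∑ q', Y q' • EuclideanSpace.single
    (⟨l, q'⟩ : Σ l : Fin p, Fin (m l) × Fin (k l)) (1:ℝ)).ofLp ⟨l, q⟩ = _
  simp only [WithLp.ofLp_sum, Finset.sum_apply, PiLp.smul_apply, smul_eq_mul]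
  rw [Finset.sum_eq_single q]
  · simp
  · intro b _ hb
    have : (⟨l, q⟩ : Σ l : Fin p, Fin (m l) × Fin (k l)) ≠ ⟨l, b⟩ := by
      intro h
      apply hb
      exact (eq_of_heq (Sigma.mk.inj_iff.1 h).2).symm
    rw [PiLp.single_apply, if_neg this, mul_zero]
  · simp

/-- Inclusion of the block of index `l`, as a linear isometry. -/
noncomputable def incl (l : Fin p) : Mat (m l) (k l) →ₗᵢ[ℝ] BMat p m k where
  toLinearMap := inclL l
  norm_map' Y := by
    have h : ‖(inclL l Y : BMat p m k)‖ ^ 2 = ‖Y‖ ^ 2 := by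
      rw [← real_inner_self_eq_norm_sq, inner_inclL, blk_inclL, real_inner_self_eq_norm_sq]
    exact (sq_eq_sq₀ (norm_nonneg _) (norm_nonneg _)).1 h

/-- The invariance hypothesis: all blocks may be rotated independently. -/
def BInv (K : Set (BMat p m k)) : Prop :=
  ∀ O : (l : Fin p) → Matrix (Fin (k l)) (Fin (k l)) ℝ,
    (∀ l, O l * (O l).transpose = 1 ∧ (O l).det = 1) → ∀ X ∈ K, blkRot O X ∈ K

theorem BInv.single {K : Set (BMat p m k)} (hK : BInv K) (l : Fin p)
    (A : Matrix (Fin (k l)) (Fin (k l)) ℝ) (hA : A * A.transpose = 1) (hd : A.det = 1) :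
    ∃ U : BMat p m k ≃ₗᵢ[ℝ] BMat p m k, (∀ z ∈ K, U z ∈ K) ∧
      ∀ z v, rowComb v (blk l (U z)) = WithLp.toLp 2 (A.mulVec (rowComb v (blk l z)).ofLp) := by
  have hA' : A.transpose * A.transpose.transpose = 1 := by
    rw [Matrix.transpose_transpose]; exact mul_eq_one_comm.1 hA
  set O : (l : Fin p) → Matrix (Fin (k l)) (Fin (k l)) ℝ :=
    Function.update (fun _ => 1) l A.transpose with hO
  have hO1 : ∀ l', O l' * (O l').transpose = 1 ∧ (O l').det = 1 := by
    intro l'
    by_cases h : l' = l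
    · subst h
      simp only [hO, Function.update_self]
      exact ⟨hA', by rw [Matrix.det_transpose]; exact hd⟩
    · simp only [hO, Function.update_of_ne h]
      simp
  refine ⟨blkRotLI O fun l => (hO1 l).1, fun z hz => hK O hO1 z hz, fun z v => ?_⟩
  rw [blkRotLI_apply, blk_blkRot, Pool.Agent.H69.KLS.rowComb_rotX]
  simp only [hO, Function.update_self, Matrix.transpose_transpose]

/-- The truncation. -/
def trunc (Ω : Set (BMat p m k)) (D : ℝ) : Set (BMat p m k) :=
  {X | X ∈ Ω ∧ ∀ l (v : EuclideanSpace ℝ (Fin (m l))),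
    ‖rowComb v (blk l X)‖ ≤ D * Real.sqrt (k l) * ‖v‖}

theorem trunc_eq (Ω : Set (BMat p m k)) (D : ℝ) :
    trunc Ω D = Ω ∩ ⋂ l, ⋂ v : EuclideanSpace ℝ (Fin (m l)),
      {X | ‖rowB l v X‖ ≤ D * Real.sqrt (k l) * ‖v‖} := by
  ext X
  simp [trunc]

theorem trunc_convex {Ω : Set (BMat p m k)} (hΩ : Convex ℝ Ω) (D : ℝ) : Convex ℝ (trunc Ω D) := by
  rw [trunc_eq]
  refine hΩ.inter (convex_iInter fun l => convex_iInter fun v => ?_)
  intro X hX Y hY a b ha hb hab
  simp only [mem_ofPred_eq] at hX hY ⊢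
  rw [map_add, map_smul, map_smul]
  refine (norm_add_le _ _).trans ?_
  rw [norm_smul, norm_smul, Real.norm_of_nonneg ha, Real.norm_of_nonneg hb]
  calc a * ‖rowB l v X‖ + b * ‖rowB l v Y‖
      ≤ a * (D * Real.sqrt (k l) * ‖v‖) + b * (D * Real.sqrt (k l) * ‖v‖) := by gcongr
    _ = (a + b) * (D * Real.sqrt (k l) * ‖v‖) := by ring
    _ = _ := by rw [hab, one_mul]

theorem trunc_meas {Ω : Set (BMat p m k)} (hΩ : MeasurableSet Ω) (D : ℝ) :
    MeasurableSet (trunc Ω D) := by
  rw [trunc_eq]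
  refine hΩ.inter (IsClosed.measurableSet ?_)
  refine isClosed_iInter fun l => isClosed_iInter fun v => ?_
  exact isClosed_le (LinearMap.continuous_of_finiteDimensional (rowB l v)).norm continuous_const

theorem trunc_inv {Ω : Set (BMat p m k)} (hΩ : BInv Ω) (D : ℝ) : BInv (trunc Ω D) := by
  intro O hO X hX
  refine ⟨hΩ O hO X hX.1, fun l v => ?_⟩
  rw [blk_blkRot]
  have h : ‖rowComb v (rotX (O l) (blk l X))‖ = ‖rowComb v (blk l X)‖ := by
    have hA : (O l).transpose * (O l).transpose.transpose = 1 := by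
      rw [Matrix.transpose_transpose]; exact mul_eq_one_comm.1 (hO l).1
    rw [Pool.Agent.H69.KLS.rowComb_rotX]
    exact (Pool.Agent.H69.KLS.orthLI (O l).transpose hA).norm_map (rowComb v (blk l X))
  rw [h]
  exact hX.2 l v

/-- The truncation keeps three quarters of the volume. -/
theorem trunc_volume (hp : 0 < p) (hk : ∀ l, 2 ≤ k l) {A B : ℝ} (hA : 0 ≤ A) (hB : 0 ≤ B)
    (hm : ∀ l, (m l : ℝ) ≤ A * k l) (hlog : ∀ l, Real.log p ≤ B * k l)
    {Ω : Set (BMat p m k)} (hΩo : IsOpen Ω)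
    (hΩc : Convex ℝ Ω) (hΩb : Bornology.IsBounded Ω) (hΩ : BInv Ω) {s : ℝ} (hs : 0 < s)
    (hS : ∀ v : BMat p m k, ∫ x in Ω, (inner ℝ v x) ^ 2 ≤ s ^ 2 * ‖v‖ ^ 2 * volume.real Ω) :
    3 / 4 * volume.real Ω
      ≤ volume.real (trunc Ω (42000 * (1 + B) * Real.sqrt (1 + A) * s)) := by
  set D := 42000 * (1 + B) * Real.sqrt (1 + A) * s with hD
  have hΩt : volume Ω ≠ ⊤ := hΩb.measure_lt_top.ne
  have hp0 : (0:ℝ) < p := by exact_mod_cast hp
  have hp1 : (1:ℝ) ≤ p := by exact_mod_cast hp
  have hlog0 : 0 ≤ Real.log p := Real.log_nonneg hp1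
  have hlog4 : Real.log 4 ≤ 1.4 := by
    have h1 : Real.log 4 = 2 * Real.log 2 := by
      rw [show (4:ℝ) = 2 ^ 2 by norm_num, Real.log_pow]
      norm_num
    have := Real.log_two_lt_d9
    linarith
  have hlog40 : 0 ≤ Real.log 4 := Real.log_nonneg (by norm_num)
  set bad : Fin p → Set (BMat p m k) := fun l =>
    {z ∈ Ω | ∃ v, 24500 * (1 + Real.log (4 * p) / k l) * s * Real.sqrt (m l + k l) * ‖v‖
      < ‖rowComb v (blk l z)‖} with hbad
  have hbadm : ∀ l, volume (bad l) ≤ ENNReal.ofReal (1 / (4 * p)) * volume Ω := by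
    intro l
    have hk0 : (0:ℝ) < k l := by
      have := hk l
      exact_mod_cast (by omega : 0 < k l)
    have hlog4p : 0 ≤ Real.log (4 * p) := Real.log_nonneg (by linarith)
    have h1 := Pool.Agent.H69.KLS.op_tail_exp (m := m l) (hk l) (incl l) (blk l)
      (fun Y z => inner_inclL l Y z) hΩo.measurableSet hΩc hΩb
      (fun A hA hd => hΩ.single l A hA hd) hs hS (t := 1 + Real.log (4 * p) / k l)
      (by have : 0 ≤ Real.log (4 * p) / k l := by positivity
          linarith)
    refine h1.trans ?_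
    gcongr
    have h2 : -((k l : ℝ) * (1 + Real.log (4 * p) / k l)) = -(k l : ℝ) - Real.log (4 * p) := by
      field_simp
      ring
    rw [h2, Real.exp_sub, Real.exp_log (by positivity), div_le_div_iff_of_pos_right (by positivity)]
    exact Real.exp_le_one_iff.2 (by linarith)
  have hsub : Ω \ trunc Ω D ⊆ ⋃ l, bad l := by
    rintro X ⟨hX, hX2⟩
    simp only [trunc, mem_ofPred_eq, not_and] at hX2
    have := hX2 hX
    push Not at this
    obtain ⟨l, v, hv⟩ := this
    refine mem_iUnion.2 ⟨l, hX, v, lt_of_le_of_lt ?_ hv⟩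
    have hk0 : (0:ℝ) < k l := by
      have := hk l
      exact_mod_cast (by omega : 0 < k l)
    have hk2 : (2:ℝ) ≤ k l := by exact_mod_cast hk l
    have e1 : 1 + Real.log (4 * p) / k l ≤ 1.7 * (1 + B) := by
      rw [Real.log_mul (by norm_num) hp0.ne', add_div]
      have h3 : Real.log 4 / k l ≤ 0.7 := by
        rw [div_le_iff₀ hk0]
        linarith
      have h4 : Real.log p / k l ≤ B := by
        rw [div_le_iff₀ hk0]
        exact hlog l
      linarith
    have e2 : Real.sqrt (m l + k l) ≤ Real.sqrt (1 + A) * Real.sqrt (k l) := by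
      rw [← Real.sqrt_mul (by positivity)]
      apply Real.sqrt_le_sqrt
      have := hm l
      linarith
    have hD' : 24500 * (1.7 * (1 + B)) * s * (Real.sqrt (1 + A) * Real.sqrt (k l)) * ‖v‖
        ≤ D * Real.sqrt (k l) * ‖v‖ := by
      rw [hD]
      have : 0 ≤ (1 + B) * s * (Real.sqrt (1 + A) * Real.sqrt (k l)) * ‖v‖ := by positivity
      nlinarith
    refine le_trans ?_ hD'
    gcongr
  have hsum : volume (Ω \ trunc Ω D) ≤ ENNReal.ofReal (1 / 4) * volume Ω := by
    calc volume (Ω \ trunc Ω D) ≤ volume (⋃ l, bad l) := measure_mono hsub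
      _ ≤ ∑ l, volume (bad l) := measure_iUnion_fintype_le _ _
      _ ≤ ∑ l : Fin p, ENNReal.ofReal (1 / (4 * p)) * volume Ω := Finset.sum_le_sum fun l _ => hbadm l
      _ = ENNReal.ofReal (1 / 4) * volume Ω := by
          rw [Finset.sum_const, Finset.card_univ, Fintype.card_fin, nsmul_eq_mul, ← mul_assoc]
          congr 1
          rw [← ENNReal.ofReal_natCast, ← ENNReal.ofReal_mul (by positivity)]
          congr 1
          field_simp
  have hsumr : volume.real (Ω \ trunc Ω D) ≤ 1 / 4 * volume.real Ω := by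
    have h := ENNReal.toReal_mono (ENNReal.mul_ne_top ENNReal.ofReal_ne_top hΩt) hsum
    rw [ENNReal.toReal_mul, ENNReal.toReal_ofReal (by norm_num)] at h
    exact h
  have htr : trunc Ω D ⊆ Ω := fun X hX => hX.1
  have h5 : volume.real (Ω \ trunc Ω D) = volume.real Ω - volume.real (trunc Ω D) := by
    rw [measureReal_sdiff htr (trunc_meas hΩo.measurableSet D)]
  linarith

end Pool.Agent.H84
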