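import Pool.Agent.H84.RotFinal
import Pool.Agent.H97.KlsBlock

set_option autoImplicit false

open MeasureTheory
open scoped ENNReal NNReal

namespace Pool.Agent.Results.MP_dc1397_gt.Rotations

variable {p : ℕ} {m k : Fin p → ℕ}

/-- The orthogonal direct sum of `p` spaces of real matrices, the one of index `l` of format
`m l × k l`, with the Euclidean (Frobenius) norm. -/
abbrev Space (p : ℕ) (m k : Fin p → ℕ) : Type :=
  EuclideanSpace ℝ (Σ l : Fin p, Fin (m l) × Fin (k l))

/-- Multiply each block `X_l` on the right by the `k l × k l` matrix `O l`. -/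
noncomputable def rotate (O : (l : Fin p) → Matrix (Fin (k l)) (Fin (k l)) ℝ) (X : Space p m k) :
    Space p m k :=
  WithLp.toLp 2 (fun q => ∑ j, X ⟨q.1, (q.2.1, j)⟩ * O q.1 j q.2.2)

/-- `Ω` is an open bounded convex set of positive volume, symmetric about the origin. -/
def IsBody (Ω : Set (Space p m k)) : Prop :=
  IsOpen Ω ∧ Convex ℝ Ω ∧ Bornology.IsBounded Ω ∧ (∀ X ∈ Ω, -X ∈ Ω) ∧ 0 < volume Ω

/-- `Ω` is invariant under independent rotations of all blocks, `X_l ↦ X_l * O_l`. -/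
def RotationInvariant (Ω : Set (Space p m k)) : Prop :=
  ∀ O : (l : Fin p) → Matrix (Fin (k l)) (Fin (k l)) ℝ,
    (∀ l, O l ∈ Matrix.specialOrthogonalGroup (Fin (k l)) ℝ) → ∀ X ∈ Ω, rotate O X ∈ Ω

/-- The Hausdorff measure of codimension one in the space of dimension `∑ l, m l * k l`. -/
noncomputable def area (S : Set (Space p m k)) : ℝ≥0∞ :=
  μH[(∑ l, (m l : ℝ) * k l) - 1] S

open Pool.Agent.H84 Pool.H97.KLS in
/-- The hyperplane inequality of the question for bodies with rotational symmetries: an open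
bounded convex symmetric `Ω` in the direct sum of `p` spaces of `m_l × k_l` matrices, invariant
under multiplying the blocks on the right by independent rotations of `SO(k_l)`. -/
theorem result :
    ∃ C : ℝ≥0, ∀ (p : ℕ) (m k : Fin p → ℕ) (A B : ℝ≥0) (Ω : Set (Space p m k)),
      1 ≤ p → (∀ l, 1 ≤ m l) → (∀ l, 2 ≤ k l) →
      (∀ l, (m l : ℝ) ≤ A * k l) → (∀ l, Real.log p ≤ B * k l) →
      IsBody Ω → RotationInvariant Ω →
      ∃ a : Space p m k, a ≠ 0 ∧
        ∀ E : Set (Space p m k), MeasurableSet E → E ⊆ Ω → volume E = volume Ω / 2 →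
          area {X | X ∈ Ω ∧ inner ℝ a X = (0 : ℝ)}
            ≤ ((C * (1 + B) * NNReal.sqrt (1 + A) : ℝ≥0) : ℝ≥0∞) * area (Ω ∩ frontier E) := by
  refine ⟨1839600000, ?_⟩
  intro p m k A B Ω hp hm1 hk hmA hlog hbody hinv
  obtain ⟨hΩo, hΩc, hΩb, hsymm, hvol⟩ := hbody
  simp only [area]
  have hBI : BInv Ω := by
    intro O hO X hX
    refine hinv O (fun l => ?_) X hX
    rw [Matrix.mem_specialOrthogonalGroup_iff, Matrix.mem_orthogonalGroup_iff]
    exact ⟨(hO l).1, (hO l).2⟩
  have hne : Ω.Nonempty := by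
    rw [Set.nonempty_iff_ne_empty]
    rintro rfl
    simp at hvol
  -- the dimension
  have hdim : Module.finrank ℝ (BMat p m k) = ∑ l, m l * k l := by
    rw [finrank_euclideanSpace, Fintype.card_sigma]
    simp
  have hpos : 0 < ∑ l, m l * k l := by
    have h1 : m ⟨0, hp⟩ * k ⟨0, hp⟩ ≤ ∑ l, m l * k l :=
      Finset.single_le_sum (f := fun l => m l * k l) (fun _ _ => Nat.zero_le _) (Finset.mem_univ _)
    have h2 : 0 < m ⟨0, hp⟩ * k ⟨0, hp⟩ :=
      Nat.mul_pos (hm1 _) (by have := hk ⟨0, hp⟩; omega)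
    omega
  obtain ⟨n, hn⟩ : ∃ n, ∑ l, m l * k l = n + 1 := ⟨_, (Nat.succ_pred_eq_of_pos hpos).symm⟩
  have hnr : (∑ l, (m l : ℝ) * k l) - 1 = (n : ℝ) := by
    have : ((∑ l, m l * k l : ℕ) : ℝ) = n + 1 := by rw [hn]; push_cast; ring
    push_cast at this
    rw [this]
    ring
  rw [hnr]
  obtain ⟨a, ha, s, hs, hS, hred⟩ := kls_reduce (hdim.trans hn) hΩo hΩc hΩb hsymm hne
  refine ⟨a, by rintro rfl; simp at ha, fun E hE hEΩ hEv => ?_⟩
  set D : ℝ := 42000 * (1 + B) * Real.sqrt (1 + A) * s with hD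
  have hsq : 0 < Real.sqrt (1 + (A:ℝ)) := Real.sqrt_pos.2 (by positivity)
  have hD0 : 0 < D := by positivity
  have hvolT := trunc_volume (by omega) hk (A := A) (B := B) (by positivity) (by positivity)
    hmA hlog hΩo hΩc hΩb hBI hs hS
  obtain ⟨R, hR⟩ := hΩb.subset_closedBall 0
  have hVpos : 0 < volume.real Ω := ENNReal.toReal_pos hvol.ne' hΩb.measure_lt_top.ne
  have hK : CB (trunc Ω D) R := by
    refine ⟨trunc_convex hΩc D, trunc_meas hΩo.measurableSet D, fun X hX => hR hX.1, ?_⟩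
    intro h
    have h0 : volume.real (trunc Ω D) = 0 := by simp [Measure.real, h]
    rw [← hD, h0] at hvolT
    linarith
  have hPC := Pool.H97.KLSR.block_poincare hk hK (trunc_inv hBI D) hD0 (fun X hX => hX.2)
  have hc : 6 * D = (252000 * (1 + B) * Real.sqrt (1 + A)) * s := by
    rw [hD]
    ring
  rw [hc] at hPC
  have key := hred (trunc Ω D) (252000 * (1 + B) * Real.sqrt (1 + A)) (by positivity)
    (fun X hX => hX.1) (trunc_convex hΩc D) (trunc_meas hΩo.measurableSet D) hvolT hPC E hE hEΩ hEv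
  refine key.trans (le_of_eq ?_)
  congr 1
  rw [ENNReal.ofReal, ENNReal.coe_inj]
  apply NNReal.coe_injective
  rw [Real.coe_toNNReal _ (by positivity)]
  push_cast
  ring

end Pool.Agent.Results.MP_dc1397_gt.Rotations
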