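import Pool.Agent.H84.BrascampLieb

/-!
# A smoothing operator on bounded convex sets

For a bounded convex set `K` of positive volume, a `C^1` function `f` with Lipschitz derivative and
`|f| ≤ 1`, and `t, ε > 0` we construct a `C^1` function `g` with `‖∇ g‖ ≤ 1 / √t` everywhere and
`∫_K |f - g| ≤ 2 √t ∫_K ‖∇ f‖ + ε`.

The function is `Q^N f`, with `Q` the Markov operator of the two-step chain
add a Gaussian of size `δ`, then resample the point of `K` from its conditional law.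
-/

set_option autoImplicit false
set_option linter.unusedSectionVars false
set_option linter.unusedVariables false
set_option linter.style.haveILetI false

open MeasureTheory Set Filter Topology
open scoped ENNReal NNReal

namespace Pool.Agent.H84

section Cov

variable {Ω : Type*} [MeasurableSpace Ω]

/-- Cauchy–Schwarz for covariances. -/
theorem cov_sq_le {P : Measure Ω} [IsProbabilityMeasure P] {f g : Ω → ℝ}
    (hf : MemLp f 2 P) (hg : MemLp g 2 P) :
    ((∫ x, f x * g x ∂P) - (∫ x, f x ∂P) * ∫ x, g x ∂P) ^ 2 ≤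
      ((∫ x, f x ^ 2 ∂P) - (∫ x, f x ∂P) ^ 2) * ((∫ x, g x ^ 2 ∂P) - (∫ x, g x ∂P) ^ 2) := by
  set a := ∫ x, f x ∂P with ha
  set b := ∫ x, g x ∂P with hb
  have i1 : Integrable f P := hf.integrable (by norm_num)
  have i2 : Integrable g P := hg.integrable (by norm_num)
  have i11 : Integrable (fun x => f x ^ 2) P := hf.integrable_sq
  have i22 : Integrable (fun x => g x ^ 2) P := hg.integrable_sq
  have i12 : Integrable (fun x => f x * g x) P := hf.integrable_mul hg
  have hq : ∀ t : ℝ, 0 ≤ ((∫ x, g x ^ 2 ∂P) - b ^ 2) * (t * t) +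
      (2 * ((∫ x, f x * g x ∂P) - a * b)) * t + ((∫ x, f x ^ 2 ∂P) - a ^ 2) := by
    intro t
    have e : ∀ x, ((f x - a) + t * (g x - b)) ^ 2 =
        f x ^ 2 + 2 * t * (f x * g x) + t ^ 2 * g x ^ 2
          + (-2 * (a + t * b)) * f x + (-2 * t * (a + t * b)) * g x + (a + t * b) ^ 2 := by
      intro x; ring
    have h0 : 0 ≤ ∫ x, ((f x - a) + t * (g x - b)) ^ 2 ∂P := integral_nonneg fun x => sq_nonneg _
    simp only [e] at h0
    rw [integral_add, integral_add, integral_add, integral_add, integral_add, integral_const_mul,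
      integral_const_mul, integral_const_mul, integral_const_mul, ← ha, ← hb] at h0
    · simp only [integral_const, probReal_univ, smul_eq_mul, one_mul] at h0
      nlinarith
    · exact i11
    · exact i12.const_mul _
    · exact i11.add (i12.const_mul _)
    · exact i22.const_mul _
    · exact (i11.add (i12.const_mul _)).add (i22.const_mul _)
    · exact i1.const_mul _
    · exact ((i11.add (i12.const_mul _)).add (i22.const_mul _)).add (i1.const_mul _)
    · exact i2.const_mul _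
    · exact (((i11.add (i12.const_mul _)).add (i22.const_mul _)).add (i1.const_mul _)).add
        (i2.const_mul _)
    · exact integrable_const _
  have := discrim_le_zero hq
  rw [discrim] at this
  nlinarith

theorem sq_integral_le {P : Measure Ω} [IsProbabilityMeasure P] {f : Ω → ℝ}
    (hf : MemLp f 2 P) : (∫ x, f x ∂P) ^ 2 ≤ ∫ x, f x ^ 2 ∂P := by
  set a := ∫ x, f x ∂P with ha
  have i1 : Integrable f P := hf.integrable (by norm_num)
  have i11 : Integrable (fun x => f x ^ 2) P := hf.integrable_sq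
  have e : ∀ x, (f x - a) ^ 2 = f x ^ 2 + (-2 * a) * f x + a ^ 2 := by intro x; ring
  have h0 : 0 ≤ ∫ x, (f x - a) ^ 2 ∂P := integral_nonneg fun x => sq_nonneg _
  simp only [e] at h0
  rw [integral_add, integral_add, integral_const_mul, ← ha] at h0
  · simp only [integral_const, probReal_univ, smul_eq_mul, one_mul] at h0
    nlinarith
  · exact i11
  · exact i1.const_mul _
  · exact i11.add (i1.const_mul _)
  · exact integrable_const _

end Cov

variable {E : Type*} [NormedAddCommGroup E] [InnerProductSpace ℝ E]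
    [FiniteDimensional ℝ E] [MeasurableSpace E] [BorelSpace E]

/-- Gaussian kernel. -/
noncomputable def kern (δ : ℝ) (x y : E) : ℝ := Real.exp (-‖x - y‖ ^ 2 / (2 * δ ^ 2))

theorem kern_pos (δ : ℝ) (x y : E) : 0 < kern δ x y := Real.exp_pos _

theorem kern_le_one (δ : ℝ) (x y : E) : kern δ x y ≤ 1 := by
  rw [kern, Real.exp_le_one_iff]
  have : 0 ≤ ‖x - y‖ ^ 2 / (2 * δ ^ 2) := by positivity
  rw [neg_div]
  linarith

theorem kern_comm (δ : ℝ) (x y : E) : kern δ x y = kern δ y x := by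
  rw [kern, kern, norm_sub_rev]

@[fun_prop]
theorem continuous_kern (δ : ℝ) : Continuous (fun p : E × E => kern δ p.1 p.2) := by
  unfold kern; fun_prop

/-- The kernel is strongly log-concave. -/
theorem slc_kern {K : Set E} (hK : Convex ℝ K) {δ : ℝ} (hδ : 0 < δ) (y : E) :
    SLC K (fun x => kern δ x y) ((δ ^ 2)⁻¹) where
  conv := hK
  nonneg := fun x _ => (kern_pos δ x y).le
  slc := by
    intro x _ x' _
    apply le_of_eq
    simp only [kern]
    rw [← Real.exp_add, ← Real.exp_nat_mul, ← Real.exp_add]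
    congr 1
    have h1 : (2:ℝ)⁻¹ • (x + x') - y = (2:ℝ)⁻¹ • ((x - y) + (x' - y)) := by
      module
    have h2 : x - x' = (x - y) - (x' - y) := by abel
    rw [h1, h2, norm_smul]
    set u := x - y
    set v := x' - y
    have h3 := parallelogram_law_with_norm ℝ u v
    have h4 : ‖(2:ℝ)⁻¹‖ = 2⁻¹ := by norm_num
    rw [h4, mul_pow]
    push_cast
    have hδ' : δ ^ 2 ≠ 0 := by positivity
    field_simp
    nlinarith

/-- Unnormalised Gaussian average over `K`. -/
noncomputable def NN (K : Set E) (δ : ℝ) (ψ : E → ℝ) (y : E) : ℝ := ∫ x in K, ψ x * kern δ x y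

/-- Normalising factor. -/
noncomputable def ZZ (K : Set E) (δ : ℝ) (y : E) : ℝ := ∫ x in K, kern δ x y

/-- Gaussian average over `K`. -/
noncomputable def avg (K : Set E) (δ : ℝ) (ψ : E → ℝ) (y : E) : ℝ := NN K δ ψ y / ZZ K δ y

theorem integrable_kern {δ : ℝ} (hδ : 0 < δ) (y : E) :
    Integrable (fun x => kern δ x y) := by
  have h := GaussianFourier.integrable_cexp_neg_mul_sq_norm_add (V := E)
    (b := ((1 / (2 * δ ^ 2) : ℝ) : ℂ)) (by
      rw [Complex.ofReal_re]; positivity) 0 0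
  have h2 : Integrable (fun x : E => Real.exp (-‖x‖ ^ 2 / (2 * δ ^ 2))) := by
    have := h.norm
    refine this.congr (Eventually.of_forall fun x => ?_)
    have e : (-((1 / (2 * δ ^ 2) : ℝ) : ℂ) * (‖x‖ : ℂ) ^ 2 + 0 * ((inner ℝ (0:E) x : ℝ) : ℂ)) =
        ((-‖x‖ ^ 2 / (2 * δ ^ 2) : ℝ) : ℂ) := by
      push_cast; ring
    simp only [e, Complex.norm_exp, Complex.ofReal_re]
  exact h2.comp_sub_right y


section Basic

variable {K : Set E} {δ : ℝ}

theorem ZZ_pos (hδ : 0 < δ) (hKm : MeasurableSet K) (hK0 : volume K ≠ 0) (y : E) :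
    0 < ZZ K δ y := by
  rw [ZZ, integral_pos_iff_support_of_nonneg (fun x => (kern_pos δ x y).le)
    (integrable_kern hδ y).integrableOn]
  have : Function.support (fun x => kern δ x y) = univ := by
    ext x; simp [(kern_pos δ x y).ne']
  rw [this, Measure.restrict_apply_univ]
  exact pos_iff_ne_zero.2 hK0

theorem measurable_kern_left (y : E) : Measurable (fun x => kern δ x y) := by
  have : Continuous (fun x => kern δ x y) := by unfold kern; fun_prop
  exact this.measurable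

/-- The conditional law. -/
noncomputable def PP (K : Set E) (δ : ℝ) (y : E) : Measure E :=
  (volume.restrict K).withDensity (fun x => ENNReal.ofReal (kern δ x y / ZZ K δ y))

theorem integral_PP (hδ : 0 < δ) (hKm : MeasurableSet K) (hK0 : volume K ≠ 0) (y : E)
    (ψ : E → ℝ) : ∫ x, ψ x ∂(PP K δ y) = avg K δ ψ y := by
  have hZ := ZZ_pos hδ hKm hK0 y
  have hm : Measurable (fun x => ENNReal.ofReal (kern δ x y / ZZ K δ y)) :=
    ((measurable_kern_left y).div_const _).ennreal_ofReal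
  rw [PP, integral_withDensity_eq_integral_toReal_smul hm
    (Eventually.of_forall fun x => ENNReal.ofReal_lt_top), avg, NN, ← integral_div]
  congr 1
  ext x
  rw [ENNReal.toReal_ofReal (div_nonneg (kern_pos δ x y).le hZ.le), smul_eq_mul]
  ring

theorem isProb_PP (hδ : 0 < δ) (hKm : MeasurableSet K) (hK0 : volume K ≠ 0) (y : E) :
    IsProbabilityMeasure (PP K δ y) := by
  have hZ := ZZ_pos hδ hKm hK0 y
  constructor
  rw [PP, withDensity_apply _ MeasurableSet.univ, Measure.restrict_univ,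
    ← ofReal_integral_eq_lintegral_ofReal]
  · rw [integral_div]
    have : ∫ x in K, kern δ x y = ZZ K δ y := rfl
    rw [this, div_self hZ.ne', ENNReal.ofReal_one]
  · exact (integrable_kern hδ y).integrableOn.div_const _
  · exact Eventually.of_forall fun x => div_nonneg (kern_pos δ x y).le hZ.le

theorem PP_ae_mem (hKm : MeasurableSet K) (y : E) : ∀ᵐ x ∂(PP K δ y), x ∈ K := by
  have h : PP K δ y ≪ volume.restrict K := withDensity_absolutelyContinuous _ _
  exact h.ae_le (ae_restrict_mem hKm)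

/-- Bounded a.e. strongly measurable functions are in every `L^p`. -/
theorem memLp_PP (hδ : 0 < δ) (hKm : MeasurableSet K) (hK0 : volume K ≠ 0) (y : E)
    {ψ : E → ℝ} (hψ : Measurable ψ) {M : ℝ} (hM : ∀ x ∈ K, |ψ x| ≤ M) (p : ℝ≥0∞) :
    MemLp ψ p (PP K δ y) := by
  haveI := isProb_PP hδ hKm hK0 y
  apply MemLp.of_bound hψ.aestronglyMeasurable M
  filter_upwards [PP_ae_mem hKm y] with x hx
  exact hM x hx

theorem integrable_PP (hδ : 0 < δ) (hKm : MeasurableSet K) (hK0 : volume K ≠ 0) (y : E)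
    {ψ : E → ℝ} (hψ : Measurable ψ) {M : ℝ} (hM : ∀ x ∈ K, |ψ x| ≤ M) :
    Integrable ψ (PP K δ y) := by
  haveI := isProb_PP hδ hKm hK0 y
  exact (memLp_PP hδ hKm hK0 y hψ hM 1).integrable le_rfl

/-- Poincaré inequality for the conditional law. -/
theorem PP_poincare (hδ : 0 < δ) (hK : Convex ℝ K) (hKm : MeasurableSet K)
    (hKb : Bornology.IsBounded K) (hK0 : volume K ≠ 0) (y : E)
    {ψ : E → ℝ} (hψ : ContDiff ℝ 1 ψ) :
    (∫ x, ψ x ^ 2 ∂(PP K δ y)) - (∫ x, ψ x ∂(PP K δ y)) ^ 2 ≤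
      δ ^ 2 * ∫ x, ‖fderiv ℝ ψ x‖ ^ 2 ∂(PP K δ y) := by
  have hZ := ZZ_pos hδ hKm hK0 y
  have h := brascamp_lieb (K := K) (w := fun x => kern δ x y) (ρ := (δ ^ 2)⁻¹) (by positivity)
    (slc_kern hK hδ y) hKm (measurable_kern_left y) (integrable_kern hδ y).integrableOn hZ hKb ψ hψ
  rw [integral_PP hδ hKm hK0, integral_PP hδ hKm hK0, integral_PP hδ hKm hK0, avg, avg, avg]
  simp only [NN]
  rw [inv_inv] at h
  change ZZ K δ y * _ - _ ≤ δ ^ 2 * (ZZ K δ y * _) at h
  set Z := ZZ K δ y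
  set A := ∫ x in K, ψ x ^ 2 * kern δ x y
  set B := ∫ x in K, ψ x * kern δ x y
  set C := ∫ x in K, ‖fderiv ℝ ψ x‖ ^ 2 * kern δ x y
  have e1 : A / Z - (B / Z) ^ 2 = (Z * A - B ^ 2) / Z ^ 2 := by field_simp
  have e2 : δ ^ 2 * (C / Z) = (δ ^ 2 * (Z * C)) / Z ^ 2 := by field_simp
  rw [e1, e2]
  gcongr

theorem hasFDerivAt_kern (hδ : 0 < δ) (x y : E) :
    HasFDerivAt (fun y => kern δ x y) ((kern δ x y * (δ ^ 2)⁻¹) • innerSL ℝ (x - y)) y := by
  have h1 : HasFDerivAt (fun y : E => x - y) (-(ContinuousLinearMap.id ℝ E)) y := by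
    simpa using (hasFDerivAt_id y).const_sub x
  have h2 := h1.norm_sq
  have h3 := ((h2.neg).mul_const ((2 * δ ^ 2)⁻¹)).exp
  have e : (fun y => kern δ x y) = fun y => Real.exp (-‖x - y‖ ^ 2 * (2 * δ ^ 2)⁻¹) := by
    ext z; rw [kern, div_eq_mul_inv]
  rw [e]
  refine HasFDerivAt.congr_fderiv (f := fun y => Real.exp (-‖x - y‖ ^ 2 * (2 * δ ^ 2)⁻¹)) h3 ?_
  ext v
  have e2 : (-fun x_1 : E => ‖x - x_1‖ ^ 2) y = -‖x - y‖ ^ 2 := rfl
  have e3 : kern δ x y = Real.exp (-‖x - y‖ ^ 2 * (2 * δ ^ 2)⁻¹) := by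
    rw [kern, div_eq_mul_inv]
  rw [e2, ← e3]
  simp only [smul_apply, neg_apply,
    ContinuousLinearMap.comp_apply, ContinuousLinearMap.id_apply, map_neg, innerSL_apply_apply,
    smul_eq_mul, nsmul_eq_mul]
  push_cast
  field_simp

/-- The derivative of `NN`. -/
noncomputable def DNN (K : Set E) (δ : ℝ) (ψ : E → ℝ) (y : E) : E →L[ℝ] ℝ :=
  ∫ x in K, (ψ x * (kern δ x y * (δ ^ 2)⁻¹)) • innerSL ℝ (x - y)

variable {R M : ℝ}

theorem DNN_bound (hδ : 0 < δ) (hKR : K ⊆ Metric.closedBall 0 R) {ψ : E → ℝ}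
    (hM : ∀ x ∈ K, |ψ x| ≤ M) (y0 : E) {x : E} (hx : x ∈ K) {y : E}
    (hy : y ∈ Metric.ball y0 1) :
    ‖(ψ x * (kern δ x y * (δ ^ 2)⁻¹)) • innerSL ℝ (x - y)‖ ≤
      M * (δ ^ 2)⁻¹ * (R + ‖y0‖ + 1) := by
  have hM0 : 0 ≤ M := (abs_nonneg _).trans (hM x hx)
  rw [norm_smul, innerSL_apply_norm, norm_mul, norm_mul, Real.norm_eq_abs, Real.norm_eq_abs,
    Real.norm_eq_abs, abs_of_pos (kern_pos δ x y), abs_of_pos (by positivity : 0 < (δ ^ 2)⁻¹)]
  have h1 : ‖x - y‖ ≤ R + ‖y0‖ + 1 := by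
    have hx' : ‖x‖ ≤ R := by simpa using hKR hx
    have hy' : ‖y - y0‖ < 1 := by simpa [dist_eq_norm] using hy
    calc ‖x - y‖ = ‖x - y0 - (y - y0)‖ := by congr 1; abel
      _ ≤ ‖x - y0‖ + ‖y - y0‖ := norm_sub_le _ _
      _ ≤ ‖x‖ + ‖y0‖ + ‖y - y0‖ := by gcongr; exact norm_sub_le _ _
      _ ≤ _ := by linarith
  have hb := kern_le_one δ x y
  have hc := kern_pos δ x y
  have hd : 0 < (δ ^ 2)⁻¹ := by positivity
  calc |ψ x| * (kern δ x y * (δ ^ 2)⁻¹) * ‖x - y‖
      ≤ M * (1 * (δ ^ 2)⁻¹) * (R + ‖y0‖ + 1) :=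
        mul_le_mul (mul_le_mul (hM x hx) (mul_le_mul_of_nonneg_right hb hd.le)
          (mul_nonneg hc.le hd.le) hM0) h1 (norm_nonneg _) (by positivity)
    _ = _ := by ring

theorem hasFDerivAt_NN (hδ : 0 < δ) (hKm : MeasurableSet K) (hKR : K ⊆ Metric.closedBall 0 R)
    {ψ : E → ℝ} (hψ : Measurable ψ) (hM : ∀ x ∈ K, |ψ x| ≤ M) (y : E) :
    HasFDerivAt (NN K δ ψ) (DNN K δ ψ y) y := by
  have hvK : volume K < ⊤ :=
    (measure_mono hKR).trans_lt (isCompact_closedBall (0:E) R).measure_lt_top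
  haveI : IsFiniteMeasure (volume.restrict K) := ⟨by simpa using hvK⟩
  unfold NN DNN
  apply hasFDerivAt_integral_of_dominated_of_fderiv_le
    (bound := fun _ => M * (δ ^ 2)⁻¹ * (R + ‖y‖ + 1)) (Metric.ball_mem_nhds y one_pos)
  · refine Eventually.of_forall fun z => ?_
    exact (hψ.mul (measurable_kern_left z)).aestronglyMeasurable
  · apply Integrable.bdd_mul (integrable_kern hδ y).integrableOn hψ.aestronglyMeasurable (c := M)
    filter_upwards [ae_restrict_mem hKm] with x hx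
    exact hM x hx
  · have h1 : Measurable (fun x => ψ x * (kern δ x y * (δ ^ 2)⁻¹)) :=
      hψ.mul ((measurable_kern_left y).mul_const _)
    have h2 : Continuous (fun x : E => innerSL ℝ (x - y)) := by fun_prop
    exact h1.aestronglyMeasurable.smul h2.aestronglyMeasurable
  · filter_upwards [ae_restrict_mem hKm] with x hx z hz
    exact DNN_bound hδ hKR hM y hx hz
  · exact integrable_const _
  · refine Eventually.of_forall fun x z _ => ?_
    have := (hasFDerivAt_kern hδ x z).const_mul (ψ x)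
    rwa [smul_smul] at this

theorem continuous_DNN (hδ : 0 < δ) (hKm : MeasurableSet K) (hKR : K ⊆ Metric.closedBall 0 R)
    {ψ : E → ℝ} (hψ : Measurable ψ) (hM : ∀ x ∈ K, |ψ x| ≤ M) :
    Continuous (DNN K δ ψ) := by
  have hvK : volume K < ⊤ :=
    (measure_mono hKR).trans_lt (isCompact_closedBall (0:E) R).measure_lt_top
  haveI : IsFiniteMeasure (volume.restrict K) := ⟨by simpa using hvK⟩
  rw [continuous_iff_continuousAt]
  intro y
  unfold DNN
  apply continuousAt_of_dominated (bound := fun _ => M * (δ ^ 2)⁻¹ * (R + ‖y‖ + 1))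
  · refine Eventually.of_forall fun z => ?_
    have h1 : Measurable (fun x => ψ x * (kern δ x z * (δ ^ 2)⁻¹)) :=
      hψ.mul ((measurable_kern_left z).mul_const _)
    have h2 : Continuous (fun x : E => innerSL ℝ (x - z)) := by fun_prop
    exact h1.aestronglyMeasurable.smul h2.aestronglyMeasurable
  · filter_upwards [Metric.ball_mem_nhds y one_pos] with z hz
    filter_upwards [ae_restrict_mem hKm] with x hx
    exact DNN_bound hδ hKR hM y hx hz
  · exact integrable_const _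
  · refine Eventually.of_forall fun x => ?_
    have : Continuous (fun z : E => (ψ x * (kern δ x z * (δ ^ 2)⁻¹)) • innerSL ℝ (x - z)) := by
      unfold kern; fun_prop
    exact this.continuousAt

theorem DNN_apply (hδ : 0 < δ) (hKm : MeasurableSet K) (hKR : K ⊆ Metric.closedBall 0 R)
    {ψ : E → ℝ} (hψ : Measurable ψ) (hM : ∀ x ∈ K, |ψ x| ≤ M) (y v : E) :
    DNN K δ ψ y v = (δ ^ 2)⁻¹ * ∫ x in K, ψ x * inner ℝ (x - y) v * kern δ x y := by
  have hvK : volume K < ⊤ :=
    (measure_mono hKR).trans_lt (isCompact_closedBall (0:E) R).measure_lt_top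
  haveI : IsFiniteMeasure (volume.restrict K) := ⟨by simpa using hvK⟩
  unfold DNN
  rw [ContinuousLinearMap.integral_apply, ← integral_const_mul]
  · congr 1
    ext x
    simp [inner_sub_left]
    ring
  · refine Integrable.of_bound (C := M * (δ ^ 2)⁻¹ * (R + ‖y‖ + 1)) ?_ ?_
    · have h1 : Measurable (fun x => ψ x * (kern δ x y * (δ ^ 2)⁻¹)) :=
        hψ.mul ((measurable_kern_left y).mul_const _)
      have h2 : Continuous (fun x : E => innerSL ℝ (x - y)) := by fun_prop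
      exact h1.aestronglyMeasurable.smul h2.aestronglyMeasurable
    · filter_upwards [ae_restrict_mem hKm] with x hx
      exact DNN_bound hδ hKR hM y hx (Metric.mem_ball_self one_pos)

theorem ZZ_eq_NN (y : E) : ZZ K δ y = NN K δ (fun _ => 1) y := by
  simp [ZZ, NN]

/-- Derivative of the conditional average, as a covariance. -/
theorem hasFDerivAt_avg (hδ : 0 < δ) (hKm : MeasurableSet K) (hKR : K ⊆ Metric.closedBall 0 R)
    (hK0 : volume K ≠ 0)
    {ψ : E → ℝ} (hψ : Measurable ψ) (hM : ∀ x ∈ K, |ψ x| ≤ M) (y : E) :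
    HasFDerivAt (avg K δ ψ) (NN K δ ψ y • (-(ZZ K δ y ^ 2)⁻¹ • DNN K δ (fun _ => 1) y) +
      (ZZ K δ y)⁻¹ • DNN K δ ψ y) y := by
  have h1 := hasFDerivAt_NN hδ hKm hKR hψ hM y
  have h2 := hasFDerivAt_NN hδ hKm hKR (ψ := fun _ => (1:ℝ)) (M := 1) measurable_const
    (fun x _ => by simp) y
  have hZ := ZZ_pos hδ hKm hK0 y
  have h2' : HasFDerivAt (ZZ K δ) (DNN K δ (fun _ => 1) y) y := by
    have : ZZ K δ = NN K δ (fun _ => 1) := by ext z; exact ZZ_eq_NN z
    rwa [this]
  have h3 := (hasDerivAt_inv hZ.ne').comp_hasFDerivAt y h2'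
  have h4 := h1.mul h3
  have e : avg K δ ψ = fun y => NN K δ ψ y * (ZZ K δ y)⁻¹ := by
    ext z; rw [avg, div_eq_mul_inv]
  rw [e]
  exact h4

theorem contDiff_avg (hδ : 0 < δ) (hKm : MeasurableSet K) (hKR : K ⊆ Metric.closedBall 0 R)
    (hK0 : volume K ≠ 0)
    {ψ : E → ℝ} (hψ : Measurable ψ) (hM : ∀ x ∈ K, |ψ x| ≤ M) :
    ContDiff ℝ 1 (avg K δ ψ) := by
  rw [contDiff_one_iff_hasFDerivAt]
  refine ⟨_, ?_, fun y => hasFDerivAt_avg hδ hKm hKR hK0 hψ hM y⟩
  have c1 : Continuous (NN K δ ψ) := by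
    rw [continuous_iff_continuousAt]
    exact fun y => (hasFDerivAt_NN hδ hKm hKR hψ hM y).continuousAt
  have c2 : Continuous (ZZ K δ) := by
    have : ZZ K δ = NN K δ (fun _ => 1) := by ext z; exact ZZ_eq_NN z
    rw [this, continuous_iff_continuousAt]
    exact fun y => (hasFDerivAt_NN hδ hKm hKR (ψ := fun _ => (1:ℝ)) (M := 1) measurable_const
      (fun x _ => by simp) y).continuousAt
  have c3 := continuous_DNN hδ hKm hKR hψ hM
  have c4 := continuous_DNN hδ hKm hKR (ψ := fun _ => (1:ℝ)) (M := 1) measurable_const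
      (fun x _ => by simp)
  have hne : ∀ y, ZZ K δ y ^ 2 ≠ 0 := fun y => pow_ne_zero _ (ZZ_pos hδ hKm hK0 y).ne'
  have hne' : ∀ y, ZZ K δ y ≠ 0 := fun y => (ZZ_pos hδ hKm hK0 y).ne'
  exact (c1.smul (((c2.pow 2).inv₀ hne).neg.smul c4)).add ((c2.inv₀ hne').smul c3)

theorem fderiv_avg_apply (hδ : 0 < δ) (hKm : MeasurableSet K) (hKR : K ⊆ Metric.closedBall 0 R)
    (hK0 : volume K ≠ 0)
    {ψ : E → ℝ} (hψ : Measurable ψ) (hM : ∀ x ∈ K, |ψ x| ≤ M) (y v : E) :
    fderiv ℝ (avg K δ ψ) y v = (δ ^ 2)⁻¹ *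
      ((∫ x, ψ x * inner ℝ (x - y) v ∂(PP K δ y)) -
        (∫ x, ψ x ∂(PP K δ y)) * ∫ x, inner ℝ (x - y) v ∂(PP K δ y)) := by
  have hZ := ZZ_pos hδ hKm hK0 y
  rw [(hasFDerivAt_avg hδ hKm hKR hK0 hψ hM y).fderiv]
  simp only [smul_apply, add_apply, smul_eq_mul]
  rw [DNN_apply hδ hKm hKR hψ hM, DNN_apply hδ hKm hKR (ψ := fun _ => (1:ℝ)) (M := 1)
    measurable_const (fun x _ => by simp), integral_PP hδ hKm hK0, integral_PP hδ hKm hK0,
    integral_PP hδ hKm hK0, avg, avg, avg]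
  simp only [NN, one_mul]
  field_simp
  ring

theorem fderiv_inner_left (y v : E) (x : E) :
    fderiv ℝ (fun x : E => inner ℝ (x - y) v) x = innerSL ℝ v := by
  have h : HasFDerivAt (fun x : E => inner ℝ (x - y) v) (innerSL ℝ v) x := by
    have h1 : (fun x : E => inner ℝ (x - y) v) = fun x => innerSL ℝ v x - inner ℝ v y := by
      ext z
      rw [innerSL_apply_apply, inner_sub_left, real_inner_comm, real_inner_comm v y]
    rw [h1]
    exact ((innerSL ℝ v).hasFDerivAt).sub_const _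
  exact h.fderiv

theorem memLp_inner (hδ : 0 < δ) (hKm : MeasurableSet K) (hKR : K ⊆ Metric.closedBall 0 R)
    (hK0 : volume K ≠ 0) (y v : E) :
    MemLp (fun x : E => inner ℝ (x - y) v) 2 (PP K δ y) := by
  apply memLp_PP hδ hKm hK0 y (by fun_prop) (M := (R + ‖y‖) * ‖v‖)
  intro x hx
  refine (abs_real_inner_le_norm _ _).trans ?_
  gcongr
  have hx' : ‖x‖ ≤ R := by simpa using hKR hx
  exact (norm_sub_le _ _).trans (by gcongr)

theorem var_inner_le (hδ : 0 < δ) (hK : Convex ℝ K) (hKm : MeasurableSet K)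
    (hKR : K ⊆ Metric.closedBall 0 R) (hK0 : volume K ≠ 0) (y v : E) :
    (∫ x, (inner ℝ (x - y) v) ^ 2 ∂(PP K δ y)) - (∫ x, inner ℝ (x - y) v ∂(PP K δ y)) ^ 2 ≤
      δ ^ 2 * ‖v‖ ^ 2 := by
  haveI := isProb_PP hδ hKm hK0 y
  have hKb : Bornology.IsBounded K := Metric.isBounded_closedBall.subset hKR
  have h := PP_poincare hδ hK hKm hKb hK0 y (ψ := fun x => inner ℝ (x - y) v)
    ((contDiff_id.sub contDiff_const).inner ℝ contDiff_const)
  refine h.trans (le_of_eq ?_)
  simp only [fderiv_inner_left, innerSL_apply_norm]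
  simp

/-- Local Poincaré: the derivative of the conditional average is controlled by the conditional
variance. -/
theorem norm_fderiv_avg_sq_le_var (hδ : 0 < δ) (hK : Convex ℝ K) (hKm : MeasurableSet K)
    (hKR : K ⊆ Metric.closedBall 0 R) (hK0 : volume K ≠ 0)
    {ψ : E → ℝ} (hψ : Measurable ψ) (hM : ∀ x ∈ K, |ψ x| ≤ M) (y : E) :
    ‖fderiv ℝ (avg K δ ψ) y‖ ^ 2 ≤ (δ ^ 2)⁻¹ *
      ((∫ x, ψ x ^ 2 ∂(PP K δ y)) - (∫ x, ψ x ∂(PP K δ y)) ^ 2) := by
  haveI := isProb_PP hδ hKm hK0 y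
  set V := (∫ x, ψ x ^ 2 ∂(PP K δ y)) - (∫ x, ψ x ∂(PP K δ y)) ^ 2 with hV
  have hψ2 : MemLp ψ 2 (PP K δ y) := memLp_PP hδ hKm hK0 y hψ hM 2
  have hV0 : 0 ≤ V := by
    have := sq_integral_le hψ2
    rw [hV]; linarith
  have hb : ‖fderiv ℝ (avg K δ ψ) y‖ ≤ Real.sqrt ((δ ^ 2)⁻¹ * V) := by
    apply ContinuousLinearMap.opNorm_le_bound _ (Real.sqrt_nonneg _)
    intro v
    rw [Real.norm_eq_abs]
    apply abs_le_of_sq_le_sq _ (by positivity)
    rw [mul_pow, Real.sq_sqrt (by positivity), fderiv_avg_apply hδ hKm hKR hK0 hψ hM]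
    have h1 := cov_sq_le hψ2 (memLp_inner hδ hKm hKR hK0 y v)
    have h2 := var_inner_le hδ hK hKm hKR hK0 y v
    rw [mul_pow]
    calc (δ ^ 2)⁻¹ ^ 2 * ((∫ x, ψ x * inner ℝ (x - y) v ∂(PP K δ y)) -
        (∫ x, ψ x ∂(PP K δ y)) * ∫ x, inner ℝ (x - y) v ∂(PP K δ y)) ^ 2
        ≤ (δ ^ 2)⁻¹ ^ 2 * (V * (δ ^ 2 * ‖v‖ ^ 2)) := by
          gcongr
          exact h1.trans (by gcongr)
      _ = (δ ^ 2)⁻¹ * V * ‖v‖ ^ 2 := by
          field_simp
  calc ‖fderiv ℝ (avg K δ ψ) y‖ ^ 2 ≤ Real.sqrt ((δ ^ 2)⁻¹ * V) ^ 2 := by gcongr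
    _ = _ := Real.sq_sqrt (by positivity)

/-- Gradient contraction. -/
theorem norm_fderiv_avg_sq_le (hδ : 0 < δ) (hK : Convex ℝ K) (hKm : MeasurableSet K)
    (hKR : K ⊆ Metric.closedBall 0 R) (hK0 : volume K ≠ 0)
    {ψ : E → ℝ} (hψ : ContDiff ℝ 1 ψ) (y : E) :
    ‖fderiv ℝ (avg K δ ψ) y‖ ^ 2 ≤ ∫ x, ‖fderiv ℝ ψ x‖ ^ 2 ∂(PP K δ y) := by
  have hKb : Bornology.IsBounded K := Metric.isBounded_closedBall.subset hKR
  obtain ⟨M, hM⟩ := (isCompact_closedBall (0:E) R).exists_bound_of_continuousOn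
    hψ.continuous.continuousOn
  have h1 := norm_fderiv_avg_sq_le_var hδ hK hKm hKR hK0 hψ.continuous.measurable
    (M := M) (fun x hx => hM x (hKR hx)) y
  have h2 := PP_poincare hδ hK hKm hKb hK0 y hψ
  calc _ ≤ _ := h1
    _ ≤ (δ ^ 2)⁻¹ * (δ ^ 2 * ∫ x, ‖fderiv ℝ ψ x‖ ^ 2 ∂(PP K δ y)) := by gcongr
    _ = _ := by field_simp

theorem abs_avg_le (hδ : 0 < δ) (hKm : MeasurableSet K) (hK0 : volume K ≠ 0)
    {ψ : E → ℝ} (hM : ∀ x ∈ K, |ψ x| ≤ M) (y : E) : |avg K δ ψ y| ≤ M := by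
  haveI := isProb_PP hδ hKm hK0 y
  rw [← integral_PP hδ hKm hK0 y ψ]
  have := norm_integral_le_of_norm_le_const (μ := PP K δ y) (f := ψ) (C := M) (by
    filter_upwards [PP_ae_mem hKm y] with x hx
    exact hM x hx)
  simpa using this

theorem avg_mono (hδ : 0 < δ) (hKm : MeasurableSet K) (hK0 : volume K ≠ 0) (y : E)
    {f g : E → ℝ} (hf : Integrable f (PP K δ y)) (hg : Integrable g (PP K δ y))
    (h : ∀ x ∈ K, f x ≤ g x) : avg K δ f y ≤ avg K δ g y := by
  rw [← integral_PP hδ hKm hK0, ← integral_PP hδ hKm hK0]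
  apply integral_mono_ae hf hg
  filter_upwards [PP_ae_mem hKm y] with x hx
  exact h x hx

end Basic

section Gauss

variable {δ : ℝ}

theorem vol_univ_ne : volume (univ : Set E) ≠ 0 := by
  have := (isOpen_univ (X := E)).measure_pos volume univ_nonempty
  exact this.ne'

/-- Gaussian normalising constant. -/
noncomputable def cE (E : Type*) [NormedAddCommGroup E] [InnerProductSpace ℝ E]
    [FiniteDimensional ℝ E] [MeasurableSpace E] [BorelSpace E] (δ : ℝ) : ℝ :=
  ∫ z : E, kern δ z 0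

theorem ZZ_univ (x : E) : ZZ univ δ x = cE E δ := by
  rw [ZZ, Measure.restrict_univ, cE]
  have : ∀ z : E, kern δ z x = (fun w => kern δ w (0:E)) (z - x) := by
    intro z; simp [kern]
  simp only [this]
  exact integral_sub_right_eq_self (fun w : E => kern δ w (0:E)) x

theorem cE_pos (hδ : 0 < δ) : 0 < cE E δ := by
  rw [← ZZ_univ (0:E)]
  exact ZZ_pos hδ MeasurableSet.univ vol_univ_ne 0

/-- Gaussian average. -/
noncomputable abbrev Aop (δ : ℝ) (h : E → ℝ) (x : E) : ℝ := avg univ δ h x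

theorem Aop_eq (h : E → ℝ) (x : E) :
    Aop δ h x = (cE E δ)⁻¹ * ∫ z : E, h (x + z) * kern δ z 0 := by
  rw [Aop, avg, ZZ_univ, NN, Measure.restrict_univ, div_eq_inv_mul]
  congr 1
  have : ∀ z : E, h z * kern δ z x = (fun w => h (x + w) * kern δ w (0:E)) (z - x) := by
    intro z; simp [kern]
  simp only [this]
  exact integral_sub_right_eq_self (fun w : E => h (x + w) * kern δ w (0:E)) x

theorem measurable_avg {K : Set E} (hδ : 0 < δ) (hKm : MeasurableSet K)
    {R : ℝ} (hKR : K ⊆ Metric.closedBall 0 R) (hK0 : volume K ≠ 0)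
    {ψ : E → ℝ} (hψ : Measurable ψ) {M : ℝ} (hM : ∀ x ∈ K, |ψ x| ≤ M) :
    Measurable (avg K δ ψ) := (contDiff_avg hδ hKm hKR hK0 hψ hM).continuous.measurable

theorem integrable_kern_zero (hδ : 0 < δ) : Integrable (fun z : E => kern δ z 0) :=
  integrable_kern hδ 0

theorem hasFDerivAt_Aop (hδ : 0 < δ) {h : E → ℝ} (hh : ContDiff ℝ 1 h) {M L : ℝ}
    (hM : ∀ x, |h x| ≤ M) (hL : ∀ x, ‖fderiv ℝ h x‖ ≤ L) (x : E) :
    HasFDerivAt (Aop δ h) ((cE E δ)⁻¹ • ∫ z : E, kern δ z 0 • fderiv ℝ h (x + z)) x := by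
  have e : Aop δ h = fun x => (cE E δ)⁻¹ • ∫ z : E, h (x + z) * kern δ z 0 := by
    ext x; exact Aop_eq h x
  rw [e]
  suffices key : HasFDerivAt (fun x => ∫ z : E, h (x + z) * kern δ z 0)
      (∫ z : E, kern δ z 0 • fderiv ℝ h (x + z)) x from key.const_smul ((cE E δ)⁻¹)
  apply hasFDerivAt_integral_of_dominated_of_fderiv_le (bound := fun z => L * kern δ z 0)
    (F := fun x z => h (x + z) * kern δ z 0) (F' := fun x z => kern δ z 0 • fderiv ℝ h (x + z))
    (s := univ) univ_mem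
  · refine Eventually.of_forall fun z => ?_
    exact ((hh.continuous.comp (by fun_prop : Continuous fun w : E => z + w)).measurable.mul
      (measurable_kern_left 0)).aestronglyMeasurable
  · apply Integrable.bdd_mul (integrable_kern_zero hδ) (c := M)
    · exact (hh.continuous.comp (by fun_prop : Continuous fun w : E => x + w)).aestronglyMeasurable
    · exact Eventually.of_forall fun z => hM _
  · exact (measurable_kern_left 0).aestronglyMeasurable.smul
      ((hh.continuous_fderiv one_ne_zero).comp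
        (by fun_prop : Continuous fun w : E => x + w)).aestronglyMeasurable
  · refine Eventually.of_forall fun z w _ => ?_
    rw [norm_smul, Real.norm_eq_abs, abs_of_pos (kern_pos _ _ _), mul_comm]
    exact mul_le_mul_of_nonneg_right (hL _) (kern_pos _ _ _).le
  · exact (integrable_kern_zero hδ).const_mul _
  · refine Eventually.of_forall fun z w _ => ?_
    have h1 : HasFDerivAt h (fderiv ℝ h (w + z)) (w + z) :=
      ((hh.differentiable one_ne_zero) _).hasFDerivAt
    have h2 : HasFDerivAt (fun w : E => w + z) (ContinuousLinearMap.id ℝ E) w :=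
      (hasFDerivAt_id w).add_const z
    have h3 := (h1.comp w h2).mul_const (kern δ z 0)
    simpa using h3

theorem contDiff_Aop (hδ : 0 < δ) {h : E → ℝ} (hh : ContDiff ℝ 1 h) {M L : ℝ}
    (hM : ∀ x, |h x| ≤ M) (hL : ∀ x, ‖fderiv ℝ h x‖ ≤ L) : ContDiff ℝ 1 (Aop δ h) := by
  rw [contDiff_one_iff_hasFDerivAt]
  refine ⟨_, ?_, fun x => hasFDerivAt_Aop hδ hh hM hL x⟩
  suffices key : Continuous (fun x : E => ∫ z : E, kern δ z 0 • fderiv ℝ h (x + z)) from
    key.const_smul ((cE E δ)⁻¹)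
  rw [continuous_iff_continuousAt]
  intro x
  apply continuousAt_of_dominated (bound := fun z => L * kern δ z 0)
  · refine Eventually.of_forall fun z => ?_
    exact (measurable_kern_left 0).aestronglyMeasurable.smul
      ((hh.continuous_fderiv one_ne_zero).comp
        (by fun_prop : Continuous fun w : E => z + w)).aestronglyMeasurable
  · refine Eventually.of_forall fun z => Eventually.of_forall fun w => ?_
    rw [norm_smul, Real.norm_eq_abs, abs_of_pos (kern_pos _ _ _), mul_comm]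
    exact mul_le_mul_of_nonneg_right (hL _) (kern_pos _ _ _).le
  · exact (integrable_kern_zero hδ).const_mul _
  · refine Eventually.of_forall fun z => ?_
    have h1 : Continuous (fun w : E => fderiv ℝ h (w + z)) :=
      (hh.continuous_fderiv one_ne_zero).comp (by fun_prop : Continuous fun w : E => w + z)
    have : Continuous (fun w : E => kern δ z 0 • fderiv ℝ h (w + z)) :=
      h1.const_smul (kern δ z (0:E))
    exact this.continuousAt

theorem integrable_PP_univ (hδ : 0 < δ) {h : E → ℝ} (hm : Measurable h) {M : ℝ}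
    (hM : ∀ x, |h x| ≤ M) (x : E) : Integrable h (PP univ δ x) :=
  integrable_PP hδ MeasurableSet.univ vol_univ_ne x hm (fun x _ => hM x)

theorem norm_fderiv_Aop_sq_le (hδ : 0 < δ) {h : E → ℝ} (hh : ContDiff ℝ 1 h) {M L : ℝ}
    (hM : ∀ x, |h x| ≤ M) (hL : ∀ x, ‖fderiv ℝ h x‖ ≤ L) (x : E) :
    ‖fderiv ℝ (Aop δ h) x‖ ^ 2 ≤ Aop δ (fun y => ‖fderiv ℝ h y‖ ^ 2) x := by
  haveI := isProb_PP (K := (univ : Set E)) hδ MeasurableSet.univ vol_univ_ne x
  have hc := cE_pos (E := E) hδ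
  have hcf : Continuous (fderiv ℝ h) := hh.continuous_fderiv one_ne_zero
  have h1 : ‖fderiv ℝ (Aop δ h) x‖ ≤ Aop δ (fun y => ‖fderiv ℝ h y‖) x := by
    rw [(hasFDerivAt_Aop hδ hh hM hL x).fderiv, Aop_eq, norm_smul, Real.norm_eq_abs,
      abs_of_pos (by positivity)]
    gcongr
    refine (norm_integral_le_integral_norm _).trans (le_of_eq ?_)
    congr 1
    ext z
    rw [norm_smul, Real.norm_eq_abs, abs_of_pos (kern_pos _ _ _), mul_comm]
  have h2 : (Aop δ (fun y => ‖fderiv ℝ h y‖) x) ^ 2 ≤ Aop δ (fun y => ‖fderiv ℝ h y‖ ^ 2) x := by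
    rw [Aop, Aop, ← integral_PP hδ MeasurableSet.univ vol_univ_ne,
      ← integral_PP hδ MeasurableSet.univ vol_univ_ne]
    apply sq_integral_le
    apply memLp_PP hδ MeasurableSet.univ vol_univ_ne x (by fun_prop) (M := L)
    intro y _
    rw [abs_of_nonneg (norm_nonneg _)]
    exact hL y
  exact (pow_le_pow_left₀ (norm_nonneg _) h1 2).trans h2

end Gauss

end Pool.Agent.H84
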